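import Pool.Agent.Lib.MP_7c08ba_nt.ThR.Stmts
import Pool.Agent.Lib.MP_7c08ba_nt.Gen.GenusMain

/-!
Theorem R: ideals in an unramified cyclic extension of prime degree.
-/

set_option autoImplicit false

namespace BKThR

open BKGen BKGen.Genus NumberField Ideal
open scoped Pointwise

namespace Amb

/-- If `x` has norm one then `x ^ p` is a quotient of units. -/
theorem exists_unit_pow {S G : Type*} [CommRing S] [Group G] [Fintype G] [MulSemiringAction G S]
    {p : ℕ} (hp : p.Prime) (hcard : Nat.card G = p) {σ : G} (hσ : σ ≠ 1) (x : Sˣ)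
    (hx : ∏ g : G, g • (x : S) = 1) : ∃ v : Sˣ, σ • (v : S) = (x : S) ^ p * v := by
  let f : Sˣ →* Sˣ := Units.map (MulSemiringAction.toRingHom G S σ).toMonoidHom
  have hf : ∀ u : Sˣ, (f u : S) = σ • (u : S) := fun u => rfl
  have hfi : ∀ (i : ℕ) (u : Sˣ), ((f^[i] u : Sˣ) : S) = σ ^ i • (u : S) := by
    intro i u
    induction i with
    | zero => rw [Function.iterate_zero, id, pow_zero, one_smul]
    | succ i ih => rw [Function.iterate_succ_apply', hf, ih, smul_smul, pow_succ']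
  let s : ℕ → Sˣ := fun i => ∏ k ∈ Finset.range i, f^[k] x
  have hs : ∀ i, s (i + 1) = f (s i) * x := by
    intro i
    simp only [s]
    rw [Finset.prod_range_succ', map_prod, Function.iterate_zero, id]
    congr 1
    refine Finset.prod_congr rfl fun k _ => ?_
    rw [Function.iterate_succ_apply']
  have hsp : s p = 1 := by
    apply Units.ext
    rw [Units.val_one, ← hx, prod_eq_prod_range hp hcard hσ]
    simp only [s, Units.coe_prod, hfi]
  let V : Sˣ := ∏ i ∈ Finset.range p, s i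
  have hV : f V * x ^ p = V := by
    have h1 : f V * x ^ p = ∏ i ∈ Finset.range p, s (i + 1) := by
      simp only [V, hs]
      rw [Finset.prod_mul_distrib, map_prod, Finset.prod_const, Finset.card_range]
    have h2 : (∏ i ∈ Finset.range p, s (i + 1)) * s 0 = (∏ i ∈ Finset.range p, s i) * s p := by
      rw [← Finset.prod_range_succ', ← Finset.prod_range_succ]
    have h3 : s 0 = 1 := by simp only [s, Finset.range_zero, Finset.prod_empty]
    rw [h3, hsp, mul_one, mul_one] at h2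
    rw [h1, h2]
  refine ⟨V⁻¹, ?_⟩
  have h4 : f V⁻¹ = x ^ p * V⁻¹ := by
    rw [map_inv]
    have h5 : (f V)⁻¹ = x ^ p * V⁻¹ := by
      rw [← hV, mul_inv, mul_comm (f V)⁻¹, ← mul_assoc, mul_inv_cancel, one_mul]
      rw [hV]
    exact h5
  have h6 := congrArg Units.val h4
  rw [hf, Units.val_mul, Units.val_pow_eq_pow_val] at h6
  exact h6

/-- Bezout. -/
theorem combine {S G : Type*} [CommRing S] [Group G] [MulSemiringAction G S]
    {σ : G} (x : Sˣ) {m n : ℕ} (hmn : Nat.Coprime m n) (v w : Sˣ)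
    (hv : σ • (v : S) = (x : S) ^ m * v) (hw : σ • (w : S) = (x : S) ^ n * w) :
    ∃ u : Sˣ, σ • (u : S) = (x : S) * u := by
  let f : Sˣ →* Sˣ := Units.map (MulSemiringAction.toRingHom G S σ).toMonoidHom
  have hf : ∀ u : Sˣ, (f u : S) = σ • (u : S) := fun u => rfl
  have hv' : f v = x ^ m * v := by
    apply Units.ext
    rw [hf, hv, Units.val_mul, Units.val_pow_eq_pow_val]
  have hw' : f w = x ^ n * w := by
    apply Units.ext
    rw [hf, hw, Units.val_mul, Units.val_pow_eq_pow_val]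
  obtain ⟨a, b, hab⟩ : ∃ a b : ℤ, a * m + b * n = 1 := by
    have h1 : IsCoprime (m : ℤ) n := Nat.isCoprime_iff_coprime.mpr hmn
    exact h1
  refine ⟨v ^ a * w ^ b, ?_⟩
  have h1 : f (v ^ a * w ^ b) = x * (v ^ a * w ^ b) := by
    rw [map_mul, map_zpow, map_zpow, hv', hw', mul_zpow, mul_zpow, ← zpow_natCast, ← zpow_natCast,
      ← zpow_mul, ← zpow_mul]
    have h2 : x ^ ((m : ℤ) * a) * v ^ a * (x ^ ((n : ℤ) * b) * w ^ b) =
        x ^ ((m : ℤ) * a) * x ^ ((n : ℤ) * b) * (v ^ a * w ^ b) := by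
      rw [mul_mul_mul_comm]
    rw [h2, ← zpow_add]
    have h3 : (m : ℤ) * a + n * b = 1 := by rw [← hab]; ring
    rw [h3, zpow_one]
  have h2 := congrArg Units.val h1
  rw [hf, Units.val_mul] at h2
  exact h2

end Amb

/-- Ideals: an unramified cyclic extension of degree `p` with a unit of norm one which is not a
quotient: `p` divides the class number. -/
theorem stAmb : StAmb := by
  classical
  intro p K M _ _ _ _ _ _ σ hp hcard hσ hunr x hx hxu
  by_contra hcl
  rw [classNumber, ← Nat.card_eq_fintype_card] at hcl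
  set h := Nat.card (ClassGroup (𝓞 K)) with hh
  obtain ⟨ε, hε0, hε⟩ := h90 hp hcard hσ 1 (x : 𝓞 M) one_ne_zero x.ne_zero (by
    rw [hx]
    simp)
  rw [one_mul] at hε
  have hspan : span {ε} ≠ (⊥ : Ideal (𝓞 M)) := by rwa [Ne, span_singleton_eq_bot]
  have hinv : ∀ g : M ≃ₐ[K] M, g • span {ε} = span {ε} := by
    apply inv_of_gen hp hcard hσ
    rw [smul_span, hε]
    exact Ideal.span_singleton_mul_left_unit x.isUnit ε
  have htop : ∀ g : M ≃ₐ[K] M, g • (⊤ : Ideal (𝓞 M)) = ⊤ := by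
    intro g
    rw [← Ideal.one_eq_top, smul_one]
  obtain ⟨j, J, hJ0, hJ⟩ := exists_eq_pow_mul (R := 𝓞 K) htop
    (fun q hq hq0 => Or.inl (hunr q hq hq0)) (span {ε}) hinv hspan
  have hJ' : span {ε} = J.map (algebraMap (𝓞 K) (𝓞 M)) := by
    rw [hJ, ← Ideal.one_eq_top, one_pow, one_mul]
  obtain ⟨b, hb0, hb⟩ := ext_span (S := 𝓞 M) hJ0
  rw [← hh, ← hJ', Ideal.span_singleton_pow, Ideal.span_singleton_eq_span_singleton] at hb
  obtain ⟨u, hu⟩ := hb.symm
  have hb0' : algebraMap (𝓞 K) (𝓞 M) b ≠ 0 := by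
    rwa [Ne, map_eq_zero_iff _ (algebraMap_inj (R := 𝓞 K) (S := 𝓞 M))]
  have h3 : σ • (u : 𝓞 M) = (x : 𝓞 M) ^ h * u := by
    have h1 : σ • (algebraMap (𝓞 K) (𝓞 M) b * (u : 𝓞 M)) =
        algebraMap (𝓞 K) (𝓞 M) b * σ • (u : 𝓞 M) := by
      rw [smul_mul', smul_algebraMap]
    rw [hu, smul_pow', hε, mul_pow, ← hu] at h1
    have h2 : algebraMap (𝓞 K) (𝓞 M) b * ((x : 𝓞 M) ^ h * u) =
        algebraMap (𝓞 K) (𝓞 M) b * σ • (u : 𝓞 M) := by
      rw [← h1]; ring
    exact (mul_left_cancel₀ hb0' h2).symm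
  obtain ⟨v, hv⟩ := Amb.exists_unit_pow hp hcard hσ x hx
  obtain ⟨w, hw⟩ := Amb.combine x ((Nat.Prime.coprime_iff_not_dvd hp).mpr hcl) v u hv h3
  exact hxu w hw

end BKThR
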