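import Pool.Agent.Lib.MP_7c08ba_nt.ThR.Stmts
import Pool.Agent.Lib.MP_7c08ba_nt.Gen.SUnits

/-!
Theorem R: units modulo `p`-th powers.
-/

set_option autoImplicit false

namespace BKThR

open BKGen BKGen.Genus NumberField

namespace ModCard

/-- The `p`-torsion of the unit group has `p` elements. -/
lemma card_tors {p : ℕ} [Fact p.Prime] {K : Type} [Field K] [NumberField K] {ζ : K}
    (hζ : IsPrimitiveRoot ζ p) : Nat.card {x : Additive (𝓞 K)ˣ // p • x = 0} = p := by
  have hp0 : p ≠ 0 := (Fact.out : p.Prime).ne_zero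
  have : NeZero p := ⟨hp0⟩
  have h1 : Nat.card (rootsOfUnity p (𝓞 K)) = p :=
    hζ.toInteger_isPrimitiveRoot.card_rootsOfUnity
  have hA : ∀ x : {x : Additive (𝓞 K)ˣ // p • x = 0},
      (Additive.toMul x.1 : (𝓞 K)ˣ) ∈ rootsOfUnity p (𝓞 K) := by
    intro x
    rw [mem_rootsOfUnity]
    exact congrArg Additive.toMul x.2
  have hC : ∀ y : rootsOfUnity p (𝓞 K), p • (Additive.ofMul (y : (𝓞 K)ˣ)) = 0 := by
    intro y
    exact congrArg Additive.ofMul ((mem_rootsOfUnity p _).1 y.2)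
  let e : {x : Additive (𝓞 K)ˣ // p • x = 0} ≃ rootsOfUnity p (𝓞 K) :=
    { toFun := fun x => ⟨_, hA x⟩
      invFun := fun y => ⟨_, hC y⟩
      left_inv := fun x => rfl
      right_inv := fun y => rfl }
  rw [Nat.card_congr e, h1]

end ModCard

/-- Units modulo `p`-th powers. -/
theorem stCard : StCard := by
  intro p _ K _ _ ζ hζ
  have h := BKGen.SUnits.index_pR p (Fact.out : p.Prime).ne_zero (Additive (𝓞 K)ˣ)
  rw [ModCard.card_tors hζ, Units.finrank_eq, ← pow_succ] at h
  rw [← h]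
  rfl

end BKThR
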