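import Pool.Agent.Lib.MP_7c08ba_nt.ThR.Stmts

/-!
Module Conj of Theorem R: complex conjugation.
-/

set_option autoImplicit false

noncomputable section

namespace BKThR

open BKGen NumberField

namespace Cj

variable {p : ℕ} [Fact p.Prime] {K : Type} [Field K]

theorem powAt_of_aut {ι' J : K →+* PadicAlgCl p} (t : PadicAlgCl p ≃ₐ[ℚ_[p]] PadicAlgCl p)
    (h : ∀ x, J x = t (ι' x)) {a : K} (ha : PowAt p ι' a) : PowAt p J a := by
  obtain ⟨β, hβ, hβp⟩ := ha
  refine ⟨t β, ?_, by rw [← map_pow, hβp, h]⟩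
  have h1 : comp p ι' ≤ (comp p J).comap (t : PadicAlgCl p →ₐ[ℚ_[p]] PadicAlgCl p) := by
    rw [comp, IntermediateField.adjoin_le_iff]
    rintro _ ⟨x, rfl⟩
    have h2 : J x ∈ comp p J := IntermediateField.subset_adjoin _ _ ⟨x, rfl⟩
    rw [h] at h2
    exact h2
  exact h1 hβ

/-- a root of unity `ξ` such that `ξ ^ k = ζ ^ s` (`k` prime to `p`) only if `p ∣ s` is a `p`-th
power -/
theorem exists_root {ζ : K} (hζ : IsPrimitiveRoot ζ p)
    (hnot : ∀ s : ℕ, (∃ u : K, u ^ p = ζ ^ s) → p ∣ s) {ξ : K} {N : ℕ} (hN : 0 < N)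
    (hξ : ξ ^ N = 1) (hk : ∀ k s : ℕ, ¬ p ∣ k → ξ ^ k = ζ ^ s → p ∣ s) : ∃ u : K, u ^ p = ξ := by
  have hp : p.Prime := Fact.out
  have hξ0 : ξ ≠ 0 := by
    rintro rfl
    rw [zero_pow hN.ne'] at hξ
    exact zero_ne_one hξ
  -- the order of `ξ`, written as `p ^ e * n'`
  obtain ⟨e, n', hn', hNe⟩ := Nat.exists_eq_pow_mul_and_not_dvd hN.ne' p hp.ne_one
  -- `ξ ^ n'` is killed by `p ^ e`; induction on `e` shows that it is `1`
  have key : ∀ e : ℕ, (ξ ^ n') ^ p ^ e = 1 → ξ ^ n' = 1 := by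
    intro e
    induction e with
    | zero => intro h; simpa using h
    | succ e ih =>
      intro h
      apply ih
      have h1 : ((ξ ^ n') ^ p ^ e) ^ p = 1 := by rw [← pow_mul, ← pow_succ]; exact h
      obtain ⟨s, -, hs⟩ := hζ.eq_pow_of_pow_eq_one h1
      rcases Nat.eq_zero_or_pos e with rfl | he
      · have h2 : ξ ^ n' = ζ ^ s := by rw [hs]; simp
        obtain ⟨q, rfl⟩ := hk n' s hn' h2
        rw [← hs, pow_mul, hζ.pow_eq_one, one_pow]
      · obtain ⟨q, rfl⟩ := hnot s ⟨(ξ ^ n') ^ p ^ (e - 1), by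
          rw [hs, ← pow_mul, ← pow_succ, Nat.sub_add_cancel he]⟩
        rw [← hs, pow_mul, hζ.pow_eq_one, one_pow]
  have h1 : ξ ^ n' = 1 := key e (by rw [← pow_mul, mul_comm, ← hNe]; exact hξ)
  have hcop : Nat.Coprime p n' := (hp.coprime_iff_not_dvd).2 hn'
  have hcop' : IsCoprime (p : ℤ) (n' : ℤ) := by exact_mod_cast hcop
  obtain ⟨a, b, hab⟩ := hcop'
  refine ⟨ξ ^ a, ?_⟩
  have h2 : ξ ^ (a * p + b * n') = ξ := by rw [hab, zpow_one]
  rw [zpow_add₀ hξ0, mul_comm b, zpow_mul ξ (n' : ℤ), zpow_natCast, h1, one_zpow, mul_one,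
    zpow_mul, zpow_natCast] at h2
  exact h2

end Cj

theorem stConj (hAb : StAb) (hNot : StNot) (hEmb : StEmb) : StConj := by
  intro p _ F K _ _ _ _ _ ζ j ι S ε hε τ m g y hy hτζ hτε hmg J
  have hp : p.Prime := Fact.out
  obtain ⟨hgal, hcomm⟩ := hAb p F K ζ S.hζ S.htop S.hdeg
  have hreal := S.hreal
  have hKc : IsTotallyComplex K := isTotallyComplex_of_algebra F K
  have hab : IsAbelianGalois ℚ K :=
    { toIsGalois := hgal
      is_comm := ⟨fun f g => hcomm f g⟩ }
  have hCM : IsCMField K := IsCMField.of_isAbelianGalois K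
  set c : K ≃ₐ[ℚ] K := (IsCMField.complexConj K).restrictScalars ℚ with hc
  have hcdef : ∀ x, c x = IsCMField.complexConj K x := fun _ => rfl
  have hcc : ∀ x, c (c x) = x := fun x => IsCMField.complexConj_apply_apply K x
  have hcF : ∃ x : F, c (algebraMap F K x) ≠ algebraMap F K x := by
    by_contra hcon
    push Not at hcon
    let φ : K →+* ℂ := Classical.choice (inferInstance : Nonempty _)
    have h1 : ComplexEmbedding.IsReal (φ.comp (algebraMap F K)) := by
      rw [ComplexEmbedding.isReal_iff]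
      ext x
      rw [ComplexEmbedding.conjugate_coe_eq, RingHom.comp_apply,
        ← IsCMField.complexEmbedding_complexConj, ← hcdef, hcon]
    exact IsTotallyComplex.complexEmbedding_not_isReal _ h1
  have hE := hEmb p F K ζ j ι S c hcF J
  set e : K := ((ε : 𝓞 K) : K) with he
  have he0 : e ≠ 0 := by
    rw [he]
    exact RingOfIntegers.coe_ne_zero_iff.2 (Units.ne_zero ε)
  have hce0 : c e ≠ 0 := (map_ne_zero c).2 he0
  -- the root of unity
  obtain ⟨N, hN, hξN⟩ : ∃ N : ℕ, 0 < N ∧ (e / c e) ^ N = 1 := by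
    have h1 : IsOfFinOrder ((IsCMField.unitsMulComplexConjInv K ε : (𝓞 K)ˣ)) :=
      (IsCMField.unitsMulComplexConjInv K ε).2
    rw [isOfFinOrder_iff_pow_eq_one] at h1
    obtain ⟨N, hN, h2⟩ := h1
    refine ⟨N, hN, ?_⟩
    have h3 := congrArg (fun u : (𝓞 K)ˣ => ((u : 𝓞 K) : K)) h2
    simpa [IsCMField.unitsMulComplexConjInv_apply, div_eq_mul_inv, hcdef, he] using h3
  obtain ⟨u, hu⟩ := Cj.exists_root S.hζ (hNot p F K ζ S.hp2 S.hζ S.htop S.hdeg) hN hξN (by
    intro k s hkp hks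
    have hcτ : ∀ x, τ (c x) = c (τ x) := by
      intro x
      have h1 := hcomm (τ.restrictScalars ℚ) c
      exact DFunLike.congr_fun h1 x
    have h1 : τ (e / c e) = (e / c e) ^ m * (y / c y) ^ p := by
      rw [map_div₀, hcτ, hτε, map_mul, map_pow, map_pow, div_pow, div_pow, mul_div_mul_comm]
    have h2 : ζ ^ (g * s) = ζ ^ (m * s) * ((y / c y) ^ k) ^ p := by
      have h3 : τ (e / c e) ^ k = ((e / c e) ^ m * (y / c y) ^ p) ^ k := by rw [h1]
      rw [← map_pow, hks, map_pow, hτζ, ← pow_mul, mul_pow, pow_right_comm _ m k, hks] at h3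
      rw [h3, ← pow_mul, mul_comm s m, pow_right_comm]
    -- natural exponent
    have h4 : ζ ^ (g * s + (p - 1) * (m * s)) = ((y / c y) ^ k) ^ p := by
      rw [pow_add, h2, mul_right_comm, ← pow_add,
        show m * s + (p - 1) * (m * s) = p * (m * s) by
          have := hp.one_le
          zify [this]
          ring, pow_mul, S.hζ.pow_eq_one, one_pow, one_mul]
    have h5 := hNot p F K ζ S.hp2 S.hζ S.htop S.hdeg _ ⟨_, h4.symm⟩
    have h6 : (p : ℤ) ∣ ((m : ℤ) - g) * s := by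
      have h7 : (p : ℤ) ∣ ((g * s + (p - 1) * (m * s) : ℕ) : ℤ) := Int.natCast_dvd_natCast.2 h5
      have h8 : ((g * s + (p - 1) * (m * s) : ℕ) : ℤ) = p * (m * s) - ((m : ℤ) - g) * s := by
        push_cast [hp.one_le]
        ring
      rw [h8] at h7
      exact (dvd_sub_right (dvd_mul_right _ _)).1 h7
    rcases (Nat.prime_iff_prime_int.1 hp).dvd_or_dvd h6 with h | h
    · exact absurd h hmg
    · exact Int.natCast_dvd_natCast.1 h)
  rcases hE with ⟨t, ht⟩ | ⟨t, ht⟩
  · exact Cj.powAt_of_aut t ht hε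
  · refine Cj.powAt_of_aut (ι' := ι.comp (c : K →+* K)) t (fun x => ht x) ?_
    obtain ⟨β, hβ, hβp⟩ := hε
    have hu0 : u ≠ 0 := by
      rintro rfl
      rw [zero_pow hp.ne_zero] at hu
      exact div_ne_zero he0 hce0 hu.symm
    have hle : comp p ι ≤ comp p (ι.comp (c : K →+* K)) := by
      rw [comp, IntermediateField.adjoin_le_iff]
      rintro _ ⟨x, rfl⟩
      have h1 : (ι.comp (c : K →+* K)) (c x) ∈ comp p (ι.comp (c : K →+* K)) :=
        IntermediateField.subset_adjoin _ _ ⟨c x, rfl⟩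
      have h2 : (ι.comp (c : K →+* K)) (c x) = ι x := congrArg ι (hcc x)
      rwa [h2] at h1
    refine ⟨β / ι u, hle (div_mem hβ (IntermediateField.subset_adjoin _ _ ⟨u, rfl⟩)), ?_⟩
    have h3 : e = c e * u ^ p := by
      rw [hu]
      field_simp
    change (β / ι u) ^ p = ι (c e)
    have hιu : ι u ≠ 0 := (map_ne_zero ι).2 hu0
    rw [div_pow, hβp, ← map_pow, div_eq_iff (pow_ne_zero _ hιu |> fun h => by rwa [map_pow]),
      ← map_mul, ← h3]

end BKThR
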