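import Pool.Agent.Lib.MP_7c08ba_nt.ThR.Stmts

/-!
Embeddings of `K` into `ℚ̄_p`: two classes.
-/

set_option autoImplicit false

namespace BKThR

open BKGen BKGen.Genus NumberField

namespace EmbAux

/-- A normal number field: two embeddings into a field differ by an automorphism. -/
theorem exists_aut {K L : Type} [Field K] [NumberField K] [Field L] [CharZero L]
    (hK : IsGalois ℚ K) (ι J : K →+* L) : ∃ g : K ≃ₐ[ℚ] K, ∀ x : K, ι (g x) = J x := by
  let _ := ι.toAlgebra
  let φ : K →ₐ[ℚ] L := J.toRatAlgHom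
  refine ⟨φ.restrictNormal' K, fun x => ?_⟩
  exact φ.restrictNormal_commutes K x

/-- Three embeddings of a quadratic field: two of them are equal. -/
theorem agree {F K : Type} [Field F] [NumberField F] [Field K] [NumberField K] [Algebra F K]
    (hF : Module.finrank ℚ F = 2) (g c : K ≃ₐ[ℚ] K)
    (hc : ∃ x : F, c (algebraMap F K x) ≠ algebraMap F K x)
    (hg : ∃ x : F, g (algebraMap F K x) ≠ algebraMap F K x) (x : F) :
    g (algebraMap F K x) = c (algebraMap F K x) := by
  let i : F →ₐ[ℚ] K := (algebraMap F K).toRatAlgHom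
  let ig : F →ₐ[ℚ] K := (g : K →ₐ[ℚ] K).comp i
  let ic : F →ₐ[ℚ] K := (c : K →ₐ[ℚ] K).comp i
  have hcard : Nat.card (F →ₐ[ℚ] K) ≤ 2 := hF ▸ card_algHom_le_finrank ℚ F K
  have h1 : ig ≠ i := by
    rintro h
    obtain ⟨y, hy⟩ := hg
    exact hy (DFunLike.congr_fun h y)
  have h2 : ic ≠ i := by
    rintro h
    obtain ⟨y, hy⟩ := hc
    exact hy (DFunLike.congr_fun h y)
  have h3 : ig = ic := by
    by_contra hne
    have hfin : Finite (F →ₐ[ℚ] K) := inferInstance
    have hinj : Function.Injective (![i, ig, ic] : Fin 3 → (F →ₐ[ℚ] K)) := by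
      intro a b hab
      fin_cases a <;> fin_cases b <;> simp_all
    have := Nat.card_le_card_of_injective _ hinj
    simp only [Nat.card_eq_fintype_card, Fintype.card_fin] at this
    rw [← Nat.card_eq_fintype_card] at this
    omega
  exact DFunLike.congr_fun h3 x

/-- An automorphism which fixes `F`. -/
theorem exists_over {F K : Type} [Field F] [Field K] [NumberField K] [Algebra F K]
    (g : K ≃ₐ[ℚ] K) (hg : ∀ x : F, g (algebraMap F K x) = algebraMap F K x) :
    ∃ δ : K ≃ₐ[F] K, ∀ x : K, δ x = g x :=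
  ⟨AlgEquiv.ofRingEquiv (f := g.toRingEquiv) hg, fun _ => rfl⟩

end EmbAux

theorem stEmb (_hGal : StGal) (hAb : StAb) (hLoc : StLoc) : StEmb := by
  intro p _ F K _ _ _ _ _ ζ j ι H c hc J
  obtain ⟨hK, hcomm⟩ := hAb p F K ζ H.hζ H.htop H.hdeg
  obtain ⟨g, hg⟩ := EmbAux.exists_aut hK ι J
  by_cases hgF : ∃ x : F, g (algebraMap F K x) ≠ algebraMap F K x
  · right
    have hag := EmbAux.agree H.hdeg g c hc hgF
    obtain ⟨δ, hδ⟩ := EmbAux.exists_over (F := F) (g * c⁻¹) (fun x => by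
      rw [hcomm]
      show c.symm (g (algebraMap F K x)) = _
      rw [hag, AlgEquiv.symm_apply_apply])
    obtain ⟨τ, hτ⟩ := hLoc p F K ζ j ι H δ
    refine ⟨τ, fun x => ?_⟩
    rw [← hτ, hδ, ← hg]
    show ι (g x) = ι (g (c.symm (c x)))
    rw [AlgEquiv.symm_apply_apply]
  · left
    push Not at hgF
    obtain ⟨δ, hδ⟩ := EmbAux.exists_over (F := F) g hgF
    obtain ⟨τ, hτ⟩ := hLoc p F K ζ j ι H δ
    refine ⟨τ, fun x => ?_⟩
    rw [← hτ, hδ, hg]

end BKThR
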