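import Pool.Agent.Lib.MP_7c08ba_nt.ThR.Stmts
import Pool.Agent.Lib.MP_7c08ba_nt.Gen.LocalCyc

/-!
Automorphisms of `K/F` are induced by automorphisms of `ℚ̄_p/ℚ_p`.
-/

set_option autoImplicit false

namespace BKThR

open BKGen BKGen.Genus NumberField Polynomial

namespace Loc

variable {p : ℕ} [Fact p.Prime]

/-- The minimal polynomial of a primitive `p`-th root of unity over `ℚ_p` has degree at least
`p - 1`. -/
theorem le_natDegree {η : PadicAlgCl p} (hη : IsPrimitiveRoot η p) :
    p - 1 ≤ (minpoly ℚ_[p] η).natDegree := by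
  classical
  have hp : p.Prime := Fact.out
  have hint : IsIntegral ℚ_[p] η := Algebra.IsIntegral.isIntegral η
  by_contra hcon
  rw [not_le] at hcon
  set y : PadicAlgCl p := η - 1 with hy
  have hη1 : η ≠ 1 := hη.ne_one hp.one_lt
  have hy0 : y ≠ 0 := sub_ne_zero.mpr hη1
  have hroot : (1 + y) ^ p = 1 := by
    rw [hy, add_sub_cancel]
    exact hη.pow_eq_one
  set g : ℚ_[p][X] := (minpoly ℚ_[p] η).comp (X + C 1) with hg
  have hmon : g.Monic := by
    rw [hg]
    exact (minpoly.monic hint).comp (monic_X_add_C 1) (by rw [natDegree_X_add_C]; omega)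
  have hdeg : g.natDegree < p - 1 := by
    rw [hg, natDegree_comp, natDegree_X_add_C, mul_one]
    exact hcon
  have hz : aeval y g = 0 := by
    rw [hg, aeval_comp, map_add, aeval_X, aeval_C, map_one, hy, sub_add_cancel]
    exact minpoly.aeval _ _
  rw [aeval_def, eval₂_eq_sum_range' _ hdeg] at hz
  set s := (Finset.range (p - 1)).filter (fun i => g.coeff i ≠ 0) with hs
  have e1 : ∑ i ∈ Finset.range (p - 1), algebraMap ℚ_[p] (PadicAlgCl p) (g.coeff i) * y ^ i =
      ∑ i ∈ s, algebraMap ℚ_[p] (PadicAlgCl p) (g.coeff i) * y ^ i := by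
    rw [hs, Finset.sum_filter]
    refine Finset.sum_congr rfl fun i _ => ?_
    split_ifs with h
    · rfl
    · rw [not_not.mp h, map_zero, zero_mul]
  have hmem : g.natDegree ∈ s := by
    rw [hs, Finset.mem_filter, Finset.mem_range]
    refine ⟨hdeg, ?_⟩
    rw [coeff_natDegree, hmon.leadingCoeff]
    exact one_ne_zero
  have hne : s.Nonempty := ⟨_, hmem⟩
  have h1 := IsUltrametricDist.norm_sum_eq_sup'_of_pairwise_ne (s := s)
    (f := fun i => algebraMap ℚ_[p] (PadicAlgCl p) (g.coeff i) * y ^ i) hne (by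
      intro i hi j hj hij h
      rw [hs, Finset.coe_filter] at hi hj
      exact hij (LocalCyc.index_eq hy0 hroot hi.2 hj.2 (Finset.mem_range.mp hi.1)
        (Finset.mem_range.mp hj.1) h))
  rw [← e1, hz, norm_zero] at h1
  have h2 := Finset.le_sup' (fun i => ‖algebraMap ℚ_[p] (PadicAlgCl p) (g.coeff i) * y ^ i‖) hmem
  rw [← h1] at h2
  have h3 : algebraMap ℚ_[p] (PadicAlgCl p) (g.coeff g.natDegree) * y ^ g.natDegree ≠ 0 := by
    rw [coeff_natDegree, hmon.leadingCoeff, map_one, one_mul]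
    exact pow_ne_zero _ hy0
  exact h3 (norm_le_zero_iff.mp h2)

/-- The minimal polynomial of a primitive `p`-th root of unity over `ℚ_p`. -/
theorem minpoly_eq {η : PadicAlgCl p} (hη : IsPrimitiveRoot η p) :
    minpoly ℚ_[p] η = cyclotomic p ℚ_[p] := by
  have hp : p.Prime := Fact.out
  have hint : IsIntegral ℚ_[p] η := Algebra.IsIntegral.isIntegral η
  have h0 : aeval η (cyclotomic p ℚ_[p]) = 0 := by
    rw [aeval_def, eval₂_eq_eval_map, map_cyclotomic]
    exact hη.isRoot_cyclotomic hp.pos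
  have hdvd : minpoly ℚ_[p] η ∣ cyclotomic p ℚ_[p] := minpoly.dvd _ _ h0
  refine (eq_of_monic_of_dvd_of_natDegree_le (minpoly.monic hint) (cyclotomic.monic p _)
    hdvd ?_).symm
  rw [natDegree_cyclotomic, Nat.totient_prime hp]
  exact le_natDegree hη

/-- Primitive `p`-th roots of unity are conjugate over `ℚ_p`. -/
theorem exists_conj {η θ : PadicAlgCl p} (hη : IsPrimitiveRoot η p) (hθ : IsPrimitiveRoot θ p) :
    ∃ τ : PadicAlgCl p ≃ₐ[ℚ_[p]] PadicAlgCl p, τ η = θ := by
  refine minpoly.exists_algEquiv_of_root' (Algebra.IsAlgebraic.isAlgebraic η) ?_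
  rw [minpoly_eq hη, ← minpoly_eq hθ]
  exact minpoly.aeval _ _

end Loc

/-- Automorphisms of `K/F` are induced by automorphisms of `ℚ̄_p/ℚ_p`. -/
theorem stLoc : StLoc := by
  intro p _ F K _ _ _ _ _ ζ j ι hS δ
  have hp : p.Prime := Fact.out
  have h1 : IsPrimitiveRoot (ι ζ) p := hS.hζ.map_of_injective ι.injective
  have h2 : IsPrimitiveRoot (ι (δ ζ)) p :=
    (hS.hζ.map_of_injective δ.injective).map_of_injective ι.injective
  obtain ⟨τ, hτ⟩ := Loc.exists_conj h1 h2
  refine ⟨τ, fun x => ?_⟩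
  have hx : x ∈ IntermediateField.adjoin F {ζ} := by
    rw [hS.htop]
    exact IntermediateField.mem_top
  induction hx using IntermediateField.adjoin_induction with
  | mem x hx =>
    rw [Set.mem_singleton_iff] at hx
    rw [hx, hτ]
  | algebraMap x =>
    rw [AlgEquiv.commutes, hS.hι, AlgEquiv.commutes]
  | add x y _ _ hx hy => rw [map_add, map_add, hx, hy, map_add, map_add]
  | inv x _ hx => rw [map_inv₀, map_inv₀, hx, map_inv₀, map_inv₀]
  | mul x y _ _ hx hy => rw [map_mul, map_mul, hx, hy, map_mul, map_mul]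

end BKThR
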