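import Pool.Agent.Lib.MP_7c08ba_nt.ThR.Stmts
import Pool.Agent.Lib.MP_7c08ba_nt.Gen.RT.Emb

/-!
Reduction to units: an eigenvector which is a `p`-th power away from `p`.
-/

set_option autoImplicit false

namespace BKThR

open BKGen BKGen.Genus NumberField UniqueFactorizationMonoid

section Ideals

variable {L : Type*} [Field L] [NumberField L]

/-- `a` is, up to units, a `p`-th power at all places. -/
def PowAll (p : ℕ) {K : Type*} [Field K] (a : K) : Prop :=
  ∀ (l : ℕ) [Fact l.Prime], ∀ j : K →+* PadicAlgCl l, ∃ b : K, ‖j a‖ = ‖j b‖ ^ p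

theorem dvd_mult_all {p : ℕ} {x : 𝓞 L} (hx0 : x ≠ 0) (h : PowAll p (x : L)) (q : Ideal (𝓞 L))
    [hq : q.IsPrime] (h0 : q ≠ ⊥) (hp : p.Prime) :
    p ∣ multiplicity q (Ideal.span {x}) := by
  obtain ⟨l, hl, hlq⟩ := exists_prime_mem q h0
  have : Fact l.Prime := ⟨hl⟩
  obtain ⟨j, hj⟩ := RT.exists_emb q h0 hlq
  obtain ⟨r, hr0, hr1, hr⟩ := RT.exists_unif q h0 j hj
  obtain ⟨b, hb⟩ := h l j
  have hx0' : j (x : L) ≠ 0 := by
    rw [Ne, map_eq_zero]
    exact_mod_cast hx0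
  have hb0 : b ≠ 0 := by
    rintro rfl
    rw [map_zero, norm_zero, zero_pow hp.ne_zero, norm_eq_zero] at hb
    exact hx0' hb
  obtain ⟨b₁, b₂, hb₂, rfl⟩ := IsFractionRing.div_surjective (A := 𝓞 L) b
  have hb₂' : b₂ ≠ 0 := nonZeroDivisors.ne_zero hb₂
  have hb₁' : b₁ ≠ 0 := by
    rintro rfl
    simp at hb0
  have e1 := hr x hx0
  have e2 := hr b₁ hb₁'
  have e3 := hr b₂ hb₂'
  set n := multiplicity q (Ideal.span {x})
  set n₁ := multiplicity q (Ideal.span {b₁})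
  set n₂ := multiplicity q (Ideal.span {b₂})
  have e4 : r ^ n * (r ^ n₂) ^ p = (r ^ n₁) ^ p := by
    rw [← e1, ← e2, ← e3, hb, map_div₀, norm_div]
    have : ‖j ((b₂ : 𝓞 L) : L)‖ ≠ 0 := by
      rw [norm_ne_zero_iff, Ne, map_eq_zero]
      exact_mod_cast hb₂'
    change ((‖j ((b₁ : 𝓞 L) : L)‖ / ‖j ((b₂ : 𝓞 L) : L)‖) ^ p) ^ classNumber L *
      (‖j ((b₂ : 𝓞 L) : L)‖ ^ classNumber L) ^ p = (‖j ((b₁ : 𝓞 L) : L)‖ ^ classNumber L) ^ p
    rw [← pow_mul, mul_comm p, pow_mul, div_pow, ← mul_pow, div_mul_cancel₀]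
    exact pow_ne_zero _ this
  rw [← pow_mul, ← pow_mul, ← pow_add] at e4
  have e5 : n + n₂ * p = n₁ * p := pow_right_injective₀ hr0 hr1.ne e4
  have e6 : n = (n₁ - n₂) * p := by
    have : n = n₁ * p - n₂ * p := by omega
    rw [this, Nat.sub_mul]
  rw [e6]
  exact Dvd.intro_left _ rfl

theorem exists_root_ideal {p : ℕ} (I : Ideal (𝓞 L)) (hI : I ≠ ⊥)
    (h : ∀ q : Ideal (𝓞 L), q.IsPrime → q ≠ ⊥ → p ∣ multiplicity q I) :
    ∃ B : Ideal (𝓞 L), I = B ^ p := by
  classical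
  set M := normalizedFactors I with hM
  have hMp : ∀ q ∈ M, Prime q := fun q hq => prime_of_normalized_factor q hq
  have hprod : I = M.prod := by
    have := prod_normalizedFactors hI
    exact (associated_iff_eq.1 this).symm
  set N : Multiset (Ideal (𝓞 L)) := ∑ q ∈ M.toFinset, (M.count q / p) • {q} with hN
  have hN1 : M = p • N := by
    rw [hN, Finset.smul_sum]
    conv_lhs => rw [← Multiset.toFinset_sum_count_nsmul_eq M]
    refine Finset.sum_congr rfl fun q hq => ?_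
    rw [Multiset.mem_toFinset] at hq
    have hqp := hMp q hq
    have h3 := h q (Ideal.isPrime_of_prime hqp) hqp.ne_zero
    have h4 : M.count q = multiplicity q I := by
      rw [hM, multiplicity_eq_count_normalizedFactors hqp.irreducible hI, normalize_eq]
    rw [smul_smul, h4, Nat.mul_div_cancel' h3]
  refine ⟨N.prod, ?_⟩
  rw [← Multiset.prod_nsmul, ← hN1]
  exact hprod

theorem unit_int {p : ℕ} (hp : p.Prime) {x : 𝓞 L} (hx0 : x ≠ 0)
    (h : PowAll p (x : L)) : ∃ (ε : (𝓞 L)ˣ) (b : L), b ≠ 0 ∧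
      (x : L) ^ classNumber L = ((ε : 𝓞 L) : L) * b ^ p := by
  have hxs : Ideal.span {x} ≠ ⊥ := by
    rw [Ne, Ideal.span_singleton_eq_bot]
    exact hx0
  obtain ⟨B, hB⟩ := exists_root_ideal (p := p) (Ideal.span {x}) hxs
    (fun q hq h0 => dvd_mult_all hx0 h q h0 hp)
  have hB0 : B ≠ ⊥ := by
    rintro rfl
    rw [Ideal.bot_pow hp.ne_zero] at hB
    exact hxs hB
  obtain ⟨z, hz⟩ := RT.pow_class B hB0
  have h1 : Ideal.span {z ^ p} = Ideal.span {x ^ classNumber L} := by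
    rw [← Ideal.span_singleton_pow, ← Ideal.span_singleton_pow, hB, ← pow_mul, mul_comm p,
      pow_mul, hz]
  rw [Ideal.span_singleton_eq_span_singleton] at h1
  obtain ⟨u, hu⟩ := h1
  have e : (x : L) ^ classNumber L = ((u : 𝓞 L) : L) * (z : L) ^ p := by
    have := congrArg (algebraMap (𝓞 L) L) hu
    simp only [map_mul, map_pow] at this
    rw [mul_comm]
    exact this.symm
  refine ⟨u, z, ?_, e⟩
  intro h0
  have hx' : (x : L) ^ classNumber L ≠ 0 := pow_ne_zero _ (by exact_mod_cast hx0)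
  rw [e, h0, zero_pow hp.ne_zero, mul_zero] at hx'
  exact hx' rfl

theorem unit_of_powAll {p : ℕ} (hp : p.Prime) {x : L} (hx0 : x ≠ 0)
    (h : PowAll p x) : ∃ (ε : (𝓞 L)ˣ) (b : L), b ≠ 0 ∧
      x ^ classNumber L = ((ε : 𝓞 L) : L) * b ^ p := by
  obtain ⟨a, b, hb, rfl⟩ := IsFractionRing.div_surjective (A := 𝓞 L) x
  have hb' : b ≠ 0 := nonZeroDivisors.ne_zero hb
  have hbL : (algebraMap (𝓞 L) L) b ≠ 0 := by
    have : ((b : 𝓞 L) : L) ≠ 0 := by exact_mod_cast hb'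
    exact this
  have ha' : a ≠ 0 := by
    rintro rfl
    simp at hx0
  set x₁ : 𝓞 L := a * b ^ (p - 1) with hx₁
  have hx₁0 : x₁ ≠ 0 := mul_ne_zero ha' (pow_ne_zero _ hb')
  have e1 : ((x₁ : 𝓞 L) : L) = (algebraMap (𝓞 L) L a / algebraMap (𝓞 L) L b) *
      (algebraMap (𝓞 L) L b) ^ p := by
    change algebraMap (𝓞 L) L (a * b ^ (p - 1)) = _
    rw [map_mul, map_pow]
    obtain ⟨k, hk⟩ : ∃ k, p = k + 1 := ⟨p - 1, by have := hp.one_lt; omega⟩
    rw [hk, Nat.add_sub_cancel, pow_succ]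
    field_simp
  have h1 : PowAll p ((x₁ : 𝓞 L) : L) := by
    intro l _ j
    obtain ⟨c, hc⟩ := h l j
    refine ⟨c * algebraMap (𝓞 L) L b, ?_⟩
    rw [e1, map_mul, norm_mul, hc, map_pow, norm_pow, map_mul, norm_mul, mul_pow]
  obtain ⟨ε, y, hy, he⟩ := unit_int hp hx₁0 h1
  refine ⟨ε, y / (algebraMap (𝓞 L) L b) ^ classNumber L, div_ne_zero hy (pow_ne_zero _ hbL), ?_⟩
  rw [e1, mul_pow] at he
  have h2 : ((algebraMap (𝓞 L) L b) ^ p) ^ classNumber L ≠ 0 :=
    pow_ne_zero _ (pow_ne_zero _ hbL)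
  rw [div_pow y, ← pow_mul, mul_comm (classNumber L) p, pow_mul, ← mul_div_assoc, ← he,
    mul_div_assoc, div_self h2, mul_one]

end Ideals

/-- Some automorphism of `K` moves an element of `F`. -/
theorem exists_conj {F K : Type} [Field F] [NumberField F] [Field K] [NumberField K]
    [Algebra F K] (hdeg : Module.finrank ℚ F = 2) (hgal : IsGalois ℚ K) :
    ∃ c : K ≃ₐ[ℚ] K, ∃ x : F, c (algebraMap F K x) ≠ algebraMap F K x := by
  by_contra hcon
  push Not at hcon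
  have h1 : ∀ x : F, ∃ r : ℚ, algebraMap ℚ F r = x := by
    intro x
    have h2 : algebraMap F K x ∈ (⊥ : IntermediateField ℚ K) := by
      rw [IsGalois.mem_bot_iff_fixed]
      intro f
      exact hcon f x
    rw [IntermediateField.mem_bot] at h2
    obtain ⟨r, hr⟩ := h2
    refine ⟨r, ?_⟩
    apply (algebraMap F K).injective
    rw [← hr]
    simp
  have h3 : Module.finrank ℚ F = 1 := by
    have h4 : Function.Bijective (algebraMap ℚ F) :=
      ⟨(algebraMap ℚ F).injective, fun x => h1 x⟩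
    have h5 : (⊥ : Subalgebra ℚ F) = ⊤ := by
      rw [eq_top_iff]
      intro x _
      obtain ⟨r, hr⟩ := h1 x
      rw [Algebra.mem_bot]
      exact ⟨r, hr⟩
    exact (Subalgebra.bot_eq_top_iff_finrank_eq_one).1 h5
  omega

theorem stVal (hAb : StAb) (hLoc : StLoc) (hEmb : StEmb) : StVal := by
  intro p hp F K _ _ _ _ _ ζ j ι hS a ha0 haway τ m y hy0 hτ hm
  obtain ⟨hgal, hcomm⟩ := hAb p F K ζ hS.hζ hS.htop hS.hdeg
  obtain ⟨c, hc⟩ := exists_conj (F := F) (K := K) hS.hdeg hgal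
  have hloc : ∀ x : K, ‖ι (τ x)‖ = ‖ι x‖ := by
    intro x
    obtain ⟨t, ht⟩ := hLoc p F K ζ j ι hS τ
    rw [ht x]
    exact norm_equiv t _
  have hall : ∀ (J : K →+* PadicAlgCl p) (x : K), ‖J (τ x)‖ = ‖J x‖ := by
    intro J x
    rcases hEmb p F K ζ j ι hS c hc J with ⟨t, ht⟩ | ⟨t, ht⟩
    · rw [ht, ht, norm_equiv, norm_equiv]
      exact hloc x
    · have h1 : c (τ x) = τ (c x) := by
        have h2 := hcomm c (τ.restrictScalars ℚ)
        have h3 := congrArg (fun f : K ≃ₐ[ℚ] K => f x) h2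
        exact h3
      rw [ht, ht, norm_equiv, norm_equiv, h1]
      exact hloc (c x)
  have hpow : PowAll p a := by
    intro l hl J
    by_cases hlp : l = p
    · subst hlp
      have h1 : ‖J a‖ = ‖J a‖ ^ m * ‖J y‖ ^ l := by
        have h2 := hall J a
        rw [hτ, map_mul, norm_mul, map_pow, map_pow, norm_pow, norm_pow] at h2
        exact h2.symm
      have hA : ‖J a‖ ≠ 0 := by
        rw [norm_ne_zero_iff, Ne, map_eq_zero]
        exact ha0
      have hY : ‖J y‖ ≠ 0 := by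
        rw [norm_ne_zero_iff, Ne, map_eq_zero]
        exact hy0
      have hcop : IsCoprime ((m : ℤ) - 1) (l : ℤ) := by
        rw [isCoprime_comm, Prime.coprime_iff_not_dvd (Nat.prime_iff_prime_int.1 hl.out)]
        exact hm
      obtain ⟨u, v, huv⟩ := hcop
      refine ⟨y ^ (-u) * a ^ v, ?_⟩
      rw [map_mul, norm_mul, map_zpow₀, map_zpow₀, norm_zpow, norm_zpow]
      set A := ‖J a‖
      set Y := ‖J y‖
      have h3 : A ^ ((m : ℤ) - 1) = Y ^ (-(l : ℤ)) := by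
        rw [zpow_sub₀ hA, zpow_natCast, zpow_one, zpow_neg, zpow_natCast]
        have hYl : Y ^ l ≠ 0 := pow_ne_zero _ hY
        field_simp
        linarith
      calc A = A ^ (u * ((m : ℤ) - 1) + v * l) := by rw [huv, zpow_one]
        _ = (A ^ ((m : ℤ) - 1)) ^ u * (A ^ v) ^ l := by
          rw [zpow_add₀ hA, mul_comm u, zpow_mul, zpow_mul, zpow_natCast]
        _ = (Y ^ (-u) * A ^ v) ^ l := by
          rw [h3, mul_pow, ← zpow_mul, ← zpow_natCast (Y ^ (-u)) l, ← zpow_mul]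
          congr 2
          ring
    · exact haway l hlp J
  exact unit_of_powAll hp.out ha0 hpow

end BKThR
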