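import Pool.Agent.Lib.MP_7c08ba_nt.ThR.Stmts
import Pool.Agent.Lib.MP_7c08ba_nt.ThR.Val
import Pool.Agent.Lib.MP_7c08ba_nt.ThR.Emb
import Pool.Agent.Lib.MP_7c08ba_nt.ThR.Loc

/-!
Theorem R: rigidity of `F` itself.
-/

set_option autoImplicit false

namespace BKThR

open BKGen BKGen.Genus NumberField

namespace Cube

theorem root_of_zpow {E : Type*} [Field E] {p : ℕ} {x y : E} (hx : x ≠ 0) {n : ℤ}
    (hn : IsCoprime n (p : ℤ)) (h : y ^ p = x ^ n) : ∃ z : E, z ^ p = x := by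
  obtain ⟨u, v, huv⟩ := hn
  refine ⟨y ^ u * x ^ v, ?_⟩
  calc (y ^ u * x ^ v) ^ p = (y ^ p) ^ u * x ^ (v * (p : ℤ)) := by
        rw [mul_pow, ← zpow_natCast, ← zpow_natCast, ← zpow_natCast, ← zpow_mul, ← zpow_mul,
          ← zpow_mul, mul_comm u]
    _ = x ^ (u * n + v * (p : ℤ)) := by
        rw [h, ← zpow_mul, zpow_add₀ hx, mul_comm u]
    _ = x := by rw [huv, zpow_one]

theorem isCoprime_of_not_dvd {p : ℕ} (hp : p.Prime) {n : ℤ} (h : ¬ (p : ℤ) ∣ n) :
    IsCoprime n (p : ℤ) :=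
  ((Nat.prime_iff_prime_int.mp hp).coprime_iff_not_dvd.mpr h).symm

/-- `p`-th powers in `ℚ_p` of norm one are `≡ 1` modulo `p ^ 2` when raised to the power
`p - 1`. -/
theorem norm_pow_le {p : ℕ} [Fact p.Prime] {z : ℚ_[p]} (hz : ‖z‖ = 1) :
    ‖(z ^ p) ^ (p - 1) - 1‖ ≤ (p : ℝ) ^ (-2 : ℤ) := by
  have hp : p.Prime := Fact.out
  let u : ℤ_[p] := ⟨z, hz.le⟩
  have hu : IsUnit u := PadicInt.isUnit_iff.mpr hz
  have h1 : (PadicInt.toZModPow 2 u) ^ (p * (p - 1)) = 1 := by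
    have h2 := ZMod.pow_totient (n := p ^ 2) (hu.map (PadicInt.toZModPow 2)).unit
    rw [Nat.totient_prime_pow hp (by norm_num)] at h2
    have h3 := congrArg Units.val h2
    rw [Units.val_pow_eq_pow_val, IsUnit.unit_spec, Units.val_one] at h3
    simpa using h3
  have h2 : u ^ (p * (p - 1)) - 1 ∈ RingHom.ker (PadicInt.toZModPow (p := p) 2) := by
    rw [RingHom.mem_ker, map_sub, map_pow, h1, map_one, sub_self]
  rw [PadicInt.ker_toZModPow, ← PadicInt.norm_le_pow_iff_mem_span_pow] at h2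
  have h3 : ‖(u ^ (p * (p - 1)) - 1 : ℤ_[p])‖ = ‖(z ^ p) ^ (p - 1) - 1‖ := by
    rw [← pow_mul]
    rfl
  rw [← h3]
  exact_mod_cast h2

theorem gold {p : ℕ} [Fact p.Prime] {x : ℚ_[p]} (hx : ‖x‖ = 1)
    (h : (p : ℝ) ^ (-2 : ℤ) < ‖x ^ (p - 1) - 1‖) {n : ℤ} (hn : ¬ (p : ℤ) ∣ n) {y : ℚ_[p]}
    (hy : y ^ p = x ^ n) : False := by
  have hp : p.Prime := Fact.out
  have hx0 : x ≠ 0 := by
    rintro rfl
    simp at hx
  obtain ⟨z, rfl⟩ := root_of_zpow hx0 (isCoprime_of_not_dvd hp hn) hy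
  have hz : ‖z‖ = 1 := by
    rw [norm_pow] at hx
    exact (pow_eq_one_iff_of_nonneg (norm_nonneg _) hp.ne_zero).mp hx
  exact absurd h (not_lt.mpr (norm_pow_le hz))

variable {p : ℕ} [Fact p.Prime] {F : Type} [Field F] [NumberField F] {j : F →+* ℚ_[p]}

/-- no `p`-torsion in the units -/
theorem not_dvd_torsionOrder (hp2 : p ≠ 2) (j : F →+* ℚ_[p]) : ¬ p ∣ Units.torsionOrder F := by
  have hp : p.Prime := Fact.out
  intro hd
  obtain ⟨ζ, hζ⟩ := exists_prime_orderOf_dvd_card' (G := Units.torsion F) p hd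
  set η : F := (((ζ : (𝓞 F)ˣ) : 𝓞 F) : F) with hη
  have h1 : IsPrimitiveRoot η p := by
    have h2 : IsPrimitiveRoot ζ p := by
      rw [← hζ]; exact IsPrimitiveRoot.orderOf ζ
    have h3 : IsPrimitiveRoot (ζ : (𝓞 F)ˣ) p := h2.map_of_injective (f := (Units.torsion F).subtype)
      Subtype.coe_injective
    have h4 : IsPrimitiveRoot (((ζ : (𝓞 F)ˣ) : 𝓞 F)) p := IsPrimitiveRoot.coe_units_iff.mpr h3
    exact h4.map_of_injective (f := algebraMap (𝓞 F) F) RingOfIntegers.coe_injective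
  have h2 : IsPrimitiveRoot (algebraMap ℚ_[p] (PadicAlgCl p) (j η)) p :=
    (h1.map_of_injective j.injective).map_of_injective (algebraMap ℚ_[p] (PadicAlgCl p)).injective
  have h3 := Loc.le_natDegree h2
  rw [minpoly.eq_X_sub_C, Polynomial.natDegree_X_sub_C] at h3
  have := hp.two_le
  omega

/-- an element which is, up to units, a `p`-th power at all places is a `p`-th power -/
theorem root_of_powAll (hp2 : p ≠ 2) (H : Good p F j) {x : F} (hx : x ≠ 0) (h : PowAll p x) :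
    ∃ b : F, b ^ p = x := by
  have hp : p.Prime := Fact.out
  have hcomplex := H.complex
  obtain ⟨ε, b, hb, he⟩ := unit_of_powAll hp hx h
  have h1 := units_pow H.degree ε
  have hε0 : ((ε : 𝓞 F) : F) ≠ 0 := by
    rw [Ne, RingOfIntegers.coe_eq_zero_iff]
    exact ε.ne_zero
  obtain ⟨z, hz⟩ := root_of_zpow (p := p) (x := ((ε : 𝓞 F) : F)) (y := 1)
    (n := (Units.torsionOrder F : ℤ)) hε0
    (isCoprime_of_not_dvd hp (by
      rw [Int.natCast_dvd_natCast]; exact not_dvd_torsionOrder hp2 j)) (by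
    rw [one_pow, zpow_natCast]
    have h2 := congrArg (fun u : (𝓞 F)ˣ => ((u : 𝓞 F) : F)) h1
    simp only [Units.val_pow_eq_pow_val, Units.val_one] at h2
    have h3 : (((ε : 𝓞 F) ^ Units.torsionOrder F : 𝓞 F) : F) =
        ((ε : 𝓞 F) : F) ^ Units.torsionOrder F := map_pow (algebraMap (𝓞 F) F) _ _
    rw [h3] at h2
    rw [h2]
    exact (map_one (algebraMap (𝓞 F) F)).symm)
  refine root_of_zpow (p := p) hx (n := (classNumber F : ℤ)) (y := z * b)
    (isCoprime_of_not_dvd hp (by rw [Int.natCast_dvd_natCast]; exact H.classNumber)) ?_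
  rw [zpow_natCast, he, mul_pow, hz]

end Cube

open Cube

theorem stCube : StCube := by
  intro p _ F _ _ j hp2 H x hx hpa hγ
  have hp : p.Prime := Fact.out
  obtain ⟨γ, hγ⟩ := hγ
  have hdeg := H.degree
  have hquad : Algebra.IsQuadraticExtension ℚ F := ⟨hdeg⟩
  have hgal : IsGalois ℚ F := inferInstance
  obtain ⟨h, β, hh, hβN, hβ1, hβ2⟩ := H.exists_gen
  have hcard : Nat.card Gal(F/ℚ) = 2 := by rw [IsGalois.card_aut_eq_finrank, hdeg]
  obtain ⟨c, hc⟩ : ∃ c : Gal(F/ℚ), c ≠ 1 := by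
    have : Nontrivial Gal(F/ℚ) := by
      rw [← Finite.one_lt_card_iff_nontrivial, hcard]; norm_num
    exact exists_ne 1
  have hall : ∀ g : Gal(F/ℚ), g = 1 ∨ g = c := by
    classical
    intro g
    by_contra hcon
    push Not at hcon
    have h1 : ({1, c, g} : Finset Gal(F/ℚ)).card = 3 := by
      rw [Finset.card_eq_three]
      exact ⟨1, c, g, hc.symm, hcon.1.symm, hcon.2.symm, rfl⟩
    have h2 : ({1, c, g} : Finset Gal(F/ℚ)).card ≤ Nat.card Gal(F/ℚ) := by
      rw [Nat.card_eq_fintype_card]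
      exact Finset.card_le_univ _
    omega
  have hβc : (β : F) * c (β : F) = (p : F) ^ h := by
    have h1 : (algebraMap ℚ F) (Algebra.norm ℚ (β : F)) = ∏ τ : Gal(F/ℚ), τ (β : F) :=
      Algebra.norm_eq_prod_automorphisms ℚ (β : F)
    have h2 : Algebra.norm ℚ (β : F) = (p : ℚ) ^ h := by
      rw [← Algebra.coe_norm_int, hβN]
      push_cast
      rfl
    rw [h2, prod_eq_prod_range Nat.prime_two hcard hc (fun τ : Gal(F/ℚ) => τ (β : F)),
      Finset.prod_range_succ, Finset.prod_range_one] at h1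
    simp only [pow_zero, pow_one, map_pow, map_natCast] at h1
    rw [h1]
    rfl
  have hβ0 : (β : F) ≠ 0 := by
    intro h0
    rw [h0, map_zero, norm_zero] at hβ1
    exact zero_ne_one hβ1
  have hp1 : (1 : ℝ) < p := by exact_mod_cast hp.one_lt
  have hpn : ‖j (p : F)‖ = (p : ℝ)⁻¹ := by
    rw [map_natCast, Padic.norm_p]
  -- the norm of `β` at the other place
  have hβc' : ‖j (c (β : F))‖ = ((p : ℝ)⁻¹) ^ h := by
    have h1 := congrArg (fun y => ‖j y‖) hβc
    simp only [map_mul, norm_mul, hβ1, one_mul, map_pow, norm_pow, hpn] at h1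
    exact h1
  -- away from `p`
  have haway : ∀ (l : ℕ) [Fact l.Prime], l ≠ p → ∀ J : F →+* PadicAlgCl l, ‖J β‖ = 1 := by
    intro l _ hlp J
    have h1 : ‖J β‖ * ‖J (c β)‖ = 1 := by
      rw [← norm_mul, ← map_mul, hβc, map_pow, norm_pow, map_natCast]
      have h4 : ¬ l ∣ p := by
        intro h5
        exact hlp ((Nat.prime_dvd_prime_iff_eq (Fact.out : l.Prime) hp).mp h5)
      rw [norm_natCast_eq_one h4, one_pow]
    have h2 : ‖J β‖ ≤ 1 := norm_int_le (j := J) β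
    have h3 : ‖J (c β)‖ ≤ 1 := by
      have h4 : IsIntegral ℤ (c (β : F)) := β.2.map (c : F →+* F).toIntAlgHom
      exact norm_le_one_of_integral (h4.map J.toIntAlgHom)
    nlinarith [norm_nonneg (J β), norm_nonneg (J (c β))]
  -- the places above `p`
  have hplace : ∀ J : F →+* PadicAlgCl p, (∀ y, ‖J y‖ = ‖j y‖) ∨ (∀ y, ‖J y‖ = ‖j (c y)‖) := by
    intro J
    obtain ⟨g, hg⟩ := EmbAux.exists_aut hgal ((algebraMap ℚ_[p] (PadicAlgCl p)).comp j) J
    have h1 : ∀ y, ‖J y‖ = ‖j (g y)‖ := by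
      intro y
      rw [← hg, RingHom.comp_apply, PadicAlgCl.norm_extends]
    rcases hall g with rfl | rfl
    · exact Or.inl h1
    · exact Or.inr h1
  have hcp : ∀ n : ℤ, c ((p : F) ^ n) = (p : F) ^ n := fun n => by
    rw [map_zpow₀, map_natCast]
  have hpnz : ∀ n : ℤ, ‖j ((p : F) ^ n)‖ = ((p : ℝ)⁻¹) ^ n := fun n => by
    rw [map_zpow₀, norm_zpow, hpn]
  -- `p` does not divide `h`
  have hph : ¬ p ∣ h := by
    rintro ⟨k, rfl⟩
    obtain ⟨b, hb⟩ := root_of_powAll hp2 H hβ0 (x := (β : F)) (by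
      intro l _ J
      by_cases hlp : l = p
      · subst hlp
        rcases hplace J with h1 | h1
        · exact ⟨1, by rw [h1, hβ1, map_one, norm_one, one_pow]⟩
        · refine ⟨(l : F) ^ (k : ℤ), ?_⟩
          rw [h1, h1, hβc', hcp, hpnz, zpow_natCast, ← pow_mul, mul_comm k l]
      · exact ⟨1, by rw [haway l hlp J, map_one, norm_one, one_pow]⟩)
    refine gold hβ1 hβ2 (n := 1) (y := j b) ?_ ?_
    · intro hdvd
      have := Int.le_of_dvd one_pos hdvd
      have := hp.two_le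
      omega
    · rw [zpow_one, ← map_pow, hb]
  have hcx : j (c x) ≠ 0 := by
    rw [Ne, map_eq_zero, map_eq_zero]
    exact hx
  have hγ0 : γ ≠ 0 := by
    rintro rfl
    rw [zero_pow hp.ne_zero] at hγ
    exact hx ((map_eq_zero _).mp hγ.symm)
  set a : ℤ := (j (c x)).valuation with ha
  set v : ℤ := γ.valuation with hv
  have hna : ‖j (c x)‖ = ((p : ℝ)⁻¹) ^ a := by
    rw [Padic.norm_eq_zpow_neg_valuation hcx, inv_zpow', ha]
  have hnv : ‖γ‖ = ((p : ℝ)⁻¹) ^ v := by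
    rw [Padic.norm_eq_zpow_neg_valuation hγ0, inv_zpow', hv]
  have hpi0 : ((p : ℝ)⁻¹) ≠ 0 := inv_ne_zero (by positivity)
  -- `x ^ h / β ^ a` is a `p`-th power
  obtain ⟨b, hb⟩ := root_of_powAll hp2 H (x := x ^ h / (β : F) ^ a)
    (div_ne_zero (pow_ne_zero _ hx) (zpow_ne_zero _ hβ0)) (by
    intro l _ J
    by_cases hlp : l = p
    · subst hlp
      rcases hplace J with h1 | h1
      · refine ⟨(l : F) ^ (v * h), ?_⟩
        rw [h1, h1, hpnz, map_div₀, norm_div, map_pow, norm_pow, map_zpow₀, norm_zpow, hβ1,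
          one_zpow, div_one, ← hγ, norm_pow, hnv, ← zpow_natCast, ← zpow_natCast, ← zpow_natCast,
          ← zpow_mul, ← zpow_mul, ← zpow_mul]
        congr 1
        ring
      · refine ⟨1, ?_⟩
        rw [h1, h1, map_one, map_one, norm_one, one_pow, map_div₀, map_div₀, norm_div, map_pow,
          map_pow, norm_pow, map_zpow₀, map_zpow₀, norm_zpow, hna, hβc', ← zpow_natCast,
          ← zpow_natCast, ← zpow_mul, ← zpow_mul, mul_comm a, div_self]
        exact zpow_ne_zero _ hpi0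
    · obtain ⟨b, hb⟩ := hpa l hlp J
      refine ⟨b ^ h, ?_⟩
      rw [map_div₀, norm_div, map_zpow₀, norm_zpow, haway l hlp J, one_zpow, div_one, map_pow,
        norm_pow, hb, map_pow, norm_pow, ← pow_mul, ← pow_mul, mul_comm])
  have hb2 : x ^ h = b ^ p * (β : F) ^ a := by
    rw [hb, div_mul_cancel₀]
    exact zpow_ne_zero _ hβ0
  have hb0 : b ≠ 0 := by
    rintro rfl
    rw [zero_pow hp.ne_zero, zero_mul] at hb2
    exact pow_ne_zero _ hx hb2
  have hjb : j b ≠ 0 := by rwa [Ne, map_eq_zero]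
  have hpa' : (p : ℤ) ∣ a := by
    by_contra hcon
    refine gold hβ1 hβ2 hcon (y := γ ^ h / j b) ?_
    have h1 := congrArg j hb2
    rw [map_pow, map_mul, map_pow, map_zpow₀, ← hγ] at h1
    rw [div_pow, ← pow_mul, mul_comm h p, pow_mul, h1, mul_div_cancel_left₀]
    exact pow_ne_zero _ hjb
  obtain ⟨k, hk⟩ := hpa'
  refine root_of_zpow (p := p) hx (n := (h : ℤ)) (y := b * (β : F) ^ k)
    (isCoprime_of_not_dvd hp (by rw [Int.natCast_dvd_natCast]; exact hph)) ?_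
  rw [zpow_natCast, hb2, mul_pow, hk, ← zpow_natCast ((β : F) ^ k), ← zpow_mul, mul_comm k]

end BKThR
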