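import Pool.Agent.Lib.MP_7c08ba_nt.ThR.Stmts

/-!
Theorem R, module Desc: descent of `PowAway` from `F(ζ)` to `F`.
-/

set_option autoImplicit false

namespace BKThR

open BKGen NumberField

theorem stDesc : StDesc := by
  intro p hp F K _ _ _ _ _ ζ hζ htop c hc l hl hlp j
  let _ : Algebra F (PadicAlgCl l) := j.toAlgebra
  have _ : FiniteDimensional F K := FiniteDimensional.right ℚ F K
  let J : K →ₐ[F] PadicAlgCl l := IsAlgClosed.lift
  have hJ : ∀ x : F, J (algebraMap F K x) = j x := fun x => J.commutes x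
  obtain ⟨b, hb⟩ := hc l hlp (J : K →+* PadicAlgCl l)
  have hζt : J ζ ∈ tame l := by
    refine ⟨p, fun h => hlp ((Nat.prime_dvd_prime_iff_eq hl.out hp.out).1 h), ?_⟩
    rw [← map_pow, hζ.pow_eq_one, map_one]
  have hmem : ∀ x : K, J x ∈ IntermediateField.adjoin ℚ_[l] (Set.range j ∪ tame l) := by
    intro x
    have hx : x ∈ IntermediateField.adjoin F {ζ} := by
      rw [htop]
      exact IntermediateField.mem_top
    induction hx using IntermediateField.adjoin_induction with
    | mem y hy =>
      rw [Set.mem_singleton_iff] at hy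
      rw [hy]
      exact IntermediateField.subset_adjoin _ _ (Or.inr hζt)
    | algebraMap y =>
      rw [hJ]
      exact IntermediateField.subset_adjoin _ _ (Or.inl ⟨y, rfl⟩)
    | add y z _ _ h1 h2 =>
      rw [map_add]
      exact add_mem h1 h2
    | inv y _ h1 =>
      rw [map_inv₀]
      exact inv_mem h1
    | mul y z _ _ h1 h2 =>
      rw [map_mul]
      exact mul_mem h1 h2
  obtain ⟨y, hy, hby⟩ := norm_adjoin_tame (Set.range j) (hmem b)
  obtain ⟨b', hb'⟩ := norm_comp j (y := y) hy
  refine ⟨b', ?_⟩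
  rw [← hb', ← hby, ← hJ c]
  exact hb

end BKThR
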