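import Pool.Agent.Lib.MP_7c08ba_nt.ThR.Stmts

/-!
If `p` does not divide the class number of `F(ζ_p)` it does not divide the class number of `F`.
-/

set_option autoImplicit false

namespace BKThR

open NumberField

namespace DownAux

theorem isPrincipal_span {R : Type} [CommRing R] (x : R) :
    (Ideal.span {x} : Ideal R).IsPrincipal := ⟨x, rfl⟩

theorem mk0_pow_eq_one {R : Type} [CommRing R] [IsDedekindDomain R]
    (I : nonZeroDivisors (Ideal R)) (n : ℕ) (x : R)
    (h : (I : Ideal R) ^ n = Ideal.span {x}) : ClassGroup.mk0 I ^ n = 1 := by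
  rw [← map_pow]
  refine (ClassGroup.mk0_eq_one_iff (I ^ n).2).mpr ?_
  change ((I : Ideal R) ^ n).IsPrincipal
  rw [h]
  exact isPrincipal_span _

/-- The degree of `F(ζ)` over `F` is less than `p`. -/
theorem finrank_lt (p : ℕ) [hp : Fact p.Prime] (F K : Type) [Field F] [NumberField F] [Field K]
    [NumberField K] [Algebra F K] (ζ : K) (hζ : IsPrimitiveRoot ζ p)
    (htop : IntermediateField.adjoin F {ζ} = ⊤) : Module.finrank F K < p := by
  have h1 : IsIntegral F ζ := Algebra.IsIntegral.isIntegral ζ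
  have h2 : Module.finrank F K = (minpoly F ζ).natDegree := by
    rw [← IntermediateField.adjoin.finrank h1, htop, IntermediateField.finrank_top']
  have h3 : minpoly F ζ ∣ Polynomial.cyclotomic p F := by
    apply minpoly.dvd
    have := hζ.isRoot_cyclotomic hp.out.pos
    rw [Polynomial.aeval_def, Polynomial.eval₂_eq_eval_map, Polynomial.map_cyclotomic]
    exact this
  have h4 := Polynomial.natDegree_le_of_dvd h3 (Polynomial.cyclotomic_ne_zero p F)
  rw [Polynomial.natDegree_cyclotomic, Nat.totient_prime hp.out] at h4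
  have := hp.out.pos
  omega

end DownAux

open DownAux in
/-- `p ∤ h(F(ζ))` implies `p ∤ h(F)`. -/
theorem stDown : StDown := by
  intro p hp F K _ _ _ _ _ ζ hζ htop hK hF
  have hlt := finrank_lt p F K ζ hζ htop
  have hpos : 0 < Module.finrank F K := Module.finrank_pos
  obtain ⟨C, hC⟩ := exists_prime_orderOf_dvd_card (G := ClassGroup (𝓞 F)) p hF
  obtain ⟨I, rfl⟩ := ClassGroup.mk0_surjective C
  have hI : (I : Ideal (𝓞 F)) ≠ ⊥ := nonZeroDivisors.ne_zero I.2
  have hJ0 : (I : Ideal (𝓞 F)).map (algebraMap (𝓞 F) (𝓞 K)) ≠ ⊥ := by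
    intro h
    exact hI ((Ideal.map_eq_bot_iff_of_injective
      (FaithfulSMul.algebraMap_injective (𝓞 F) (𝓞 K))).mp h)
  let J : nonZeroDivisors (Ideal (𝓞 K)) :=
    ⟨(I : Ideal (𝓞 F)).map (algebraMap (𝓞 F) (𝓞 K)), mem_nonZeroDivisors_of_ne_zero hJ0⟩
  -- `J ^ p` is principal
  have h1 : ClassGroup.mk0 J ^ p = 1 := by
    have e1 : ClassGroup.mk0 (I ^ p) = 1 := by
      rw [map_pow, ← hC]
      exact pow_orderOf_eq_one _
    have e2 := (ClassGroup.mk0_eq_one_iff (I ^ p).2).mp e1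
    rw [← map_pow]
    refine (ClassGroup.mk0_eq_one_iff (J ^ p).2).mpr ?_
    change (((I : Ideal (𝓞 F)).map (algebraMap (𝓞 F) (𝓞 K))) ^ p).IsPrincipal
    rw [← Ideal.map_pow]
    have e3 : ((I : Ideal (𝓞 F)) ^ p).IsPrincipal := e2
    obtain ⟨a, ha⟩ := e3
    rw [ha]
    refine ⟨algebraMap (𝓞 F) (𝓞 K) a, ?_⟩
    rw [Ideal.submodule_span_eq, Ideal.submodule_span_eq, Ideal.map_span, Set.image_singleton]
  have h2 : ClassGroup.mk0 J ^ classNumber K = 1 := pow_card_eq_one
  have h3 : ClassGroup.mk0 J = 1 := by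
    have hcop : Nat.Coprime p (classNumber K) := (Nat.Prime.coprime_iff_not_dvd hp.out).mpr hK
    have : ClassGroup.mk0 J ^ Nat.gcd p (classNumber K) = 1 := pow_gcd_eq_one.mpr ⟨h1, h2⟩
    rwa [hcop.gcd_eq_one, pow_one] at this
  have h4 : ((I : Ideal (𝓞 F)).map (algebraMap (𝓞 F) (𝓞 K))).IsPrincipal :=
    (ClassGroup.mk0_eq_one_iff J.2).mp h3
  obtain ⟨x, hx⟩ := h4
  rw [Ideal.submodule_span_eq] at hx
  have h5 := Ideal.relNorm_algebraMap (𝓞 K) (I : Ideal (𝓞 F))
  rw [hx, Ideal.relNorm_singleton] at h5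
  have h6 : ClassGroup.mk0 I ^ Module.finrank (𝓞 F) (𝓞 K) = 1 :=
    mk0_pow_eq_one I _ _ h5.symm
  have h7 : p ∣ Module.finrank (𝓞 F) (𝓞 K) := by
    rw [← hC]
    exact orderOf_dvd_of_pow_eq_one h6
  have h8 : Module.finrank F K = Module.finrank (𝓞 F) (𝓞 K) :=
    IsFractionRing.finrank_eq (𝓞 F) F (𝓞 K) K
  rw [← h8] at h7
  exact absurd (Nat.le_of_dvd hpos h7) (by omega)

end BKThR
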