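import Pool.Agent.Lib.MP_7c08ba_nt.ThR.Stmts

set_option autoImplicit false

/-! Module EIG: eigenvectors in `A / A ^ p`. -/

namespace BKThR

namespace Eig

open Polynomial Finset

theorem prod_zmod (p : ℕ) [hp : Fact p.Prime] :
    ∏ c ∈ range p, (X - C ((c : ℕ) : ZMod p)) = (X ^ p - X : (ZMod p)[X]) := by
  classical
  have h1 : ∏ c ∈ range p, (X - C ((c : ℕ) : ZMod p)) = ∏ c : ZMod p, (X - C c) := by
    refine Finset.prod_bij' (fun c _ => (c : ZMod p)) (fun c _ => c.val) ?_ ?_ ?_ ?_ ?_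
    · intro c _
      exact mem_univ _
    · intro c _
      exact mem_range.2 (ZMod.val_lt c)
    · intro c hc
      exact ZMod.val_cast_of_lt (mem_range.1 hc)
    · intro c _
      exact ZMod.natCast_zmod_val c
    · intro c _
      rfl
  rw [h1]
  have h2 := FiniteField.roots_X_pow_card_sub_X (ZMod p)
  rw [ZMod.card] at h2
  have hmon : (X ^ p - X : (ZMod p)[X]).Monic := by
    apply monic_X_pow_sub
    rw [degree_X]
    exact_mod_cast hp.out.one_lt
  have hdeg : (X ^ p - X : (ZMod p)[X]).natDegree = p :=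
    FiniteField.X_pow_card_sub_X_natDegree_eq (ZMod p) hp.out.one_lt
  have h3 : Multiset.card (X ^ p - X : (ZMod p)[X]).roots =
      (X ^ p - X : (ZMod p)[X]).natDegree := by
    rw [h2, hdeg]
    change Fintype.card (ZMod p) = p
    exact ZMod.card p
  have h4 := prod_multiset_X_sub_C_of_monic_of_roots_card_eq hmon h3
  rw [h2] at h4
  exact h4

theorem exists_G (p : ℕ) [hp : Fact p.Prime] : ∃ G : ℤ[X],
    ∏ c ∈ range p, (X - C ((c : ℕ) : ℤ)) = X ^ p - X + C (p : ℤ) * G := by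
  have h1 : (∏ c ∈ range p, (X - C ((c : ℕ) : ℤ)) - (X ^ p - X)).map (Int.castRingHom (ZMod p)) =
      0 := by
    rw [Polynomial.map_sub, Polynomial.map_prod, Polynomial.map_sub, Polynomial.map_pow, map_X]
    simp only [Polynomial.map_sub, map_X, map_C]
    rw [sub_eq_zero, ← prod_zmod p]
    refine prod_congr rfl fun c _ => ?_
    simp
  have h2 : C (p : ℤ) ∣ (∏ c ∈ range p, (X - C ((c : ℕ) : ℤ)) - (X ^ p - X)) := by
    rw [C_dvd_iff_dvd_coeff]
    intro i
    have h3 := congrArg (fun f => coeff f i) h1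
    simp only [coeff_map, coeff_zero] at h3
    exact (ZMod.intCast_zmod_eq_zero_iff_dvd _ p).1 h3
  obtain ⟨G, hG⟩ := h2
  exact ⟨G, by rw [← hG]; ring⟩

theorem mul_apply' {B : Type} [AddCommGroup B] (f g : AddMonoid.End B) (x : B) :
    (f * g) x = f (g x) := rfl

theorem sub_apply' {B : Type} [AddCommGroup B] (f g : AddMonoid.End B) (x : B) :
    (f - g) x = f x - g x := rfl

theorem key {B : Type} [AddCommGroup B] (Δ : AddMonoid.End B) (p : ℕ) (H : AddSubgroup B)
    (hH : ∀ x ∈ H, Δ x ∈ H) : ∀ (n : ℕ) (v : B), v ∈ H → (¬ ∃ y : B, p • y = v) →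
    (∃ y : B, p • y = (aeval Δ (∏ c ∈ range n, (X - C ((c : ℕ) : ℤ)))) v) →
    ∃ b ∈ H, (¬ ∃ y : B, p • y = b) ∧ ∃ (m : ℕ) (y : B), Δ b = m • b + p • y := by
  intro n
  induction n with
  | zero =>
    intro v _ h1 h2
    rw [range_zero, prod_empty, map_one] at h2
    exact absurd h2 h1
  | succ n ih =>
    intro v hv h1 h2
    by_cases h3 : ∃ y : B, p • y = Δ v - n • v
    · obtain ⟨y, hy⟩ := h3
      exact ⟨v, hv, h1, n, y, by rw [hy]; abel⟩
    · apply ih (Δ v - n • v) (H.sub_mem (hH v hv) (H.nsmul_mem hv n)) h3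
      obtain ⟨y, hy⟩ := h2
      refine ⟨y, ?_⟩
      rw [hy, prod_range_succ, map_mul, mul_apply']
      congr 1
      rw [map_sub, aeval_X, aeval_C, sub_apply']
      congr 1
      simp

end Eig

open Polynomial Finset in
theorem stEig : StEig := by
  intro A _ p hp δ hδ H hH hpow a ha hna
  have : Fact p.Prime := ⟨hp⟩
  let Δ : AddMonoid.End (Additive A) := MonoidHom.toAdditive δ
  let H' : AddSubgroup (Additive A) := Subgroup.toAddSubgroup H
  have hΔ : Δ ^ (p - 1) = 1 := by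
    ext x
    have h1 := hδ (Additive.toMul x)
    rw [AddMonoid.End.coe_pow]
    exact h1
  obtain ⟨G, hG⟩ := Eig.exists_G p
  have h2 : Δ ^ p = Δ := by
    have h3 : p = (p - 1) + 1 := by
      have := hp.pos
      omega
    rw [h3, pow_succ, hΔ, one_mul]
  obtain ⟨b, hb, hnb, m, y, hm⟩ := Eig.key Δ p H' (fun x hx => hH _ hx) p (Additive.ofMul a) ha
    (by
      rintro ⟨y, hy⟩
      exact hna ⟨Additive.toMul y, hy⟩)
    (by
      refine ⟨(aeval Δ G) (Additive.ofMul a), ?_⟩
      rw [hG, map_add, map_sub, map_pow, aeval_X, h2, sub_self, zero_add, map_mul, aeval_C,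
        Eig.mul_apply']
      simp)
  refine ⟨Additive.toMul b, hb, ?_, m, Additive.toMul y, hm⟩
  rintro ⟨y, hy⟩
  exact hnb ⟨Additive.ofMul y, hy⟩

end BKThR

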