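import Pool.Agent.Lib.MP_7c08ba_nt.ThR.Stmts

/-!
Theorem R: Hilbert 94 for Kummer extensions generated by units (`StH94`).
-/

set_option autoImplicit false
set_option linter.unusedSectionVars false

namespace BKThR

open BKGen BKGen.Genus NumberField Polynomial
open scoped Pointwise

/-- The index of the `p`-th powers only depends on the group. -/
theorem index_pow_congr {A B : Type*} [CommGroup A] [CommGroup B] (e : A ≃* B) (p : ℕ) :
    (powMonoidHom p : B →* B).range.index = (powMonoidHom p : A →* A).range.index := by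
  have h : (powMonoidHom p : B →* B).range = ((powMonoidHom p : A →* A).range).map (e : A →* B) := by
    ext x
    constructor
    · rintro ⟨y, rfl⟩
      refine ⟨(e.symm y) ^ p, ⟨e.symm y, rfl⟩, ?_⟩
      change e ((e.symm y) ^ p) = y ^ p
      rw [map_pow, MulEquiv.apply_symm_apply]
    · rintro ⟨y, ⟨z, rfl⟩, rfl⟩
      refine ⟨e z, ?_⟩
      change (e z) ^ p = e (z ^ p)
      rw [map_pow]
  rw [h, Subgroup.index_map_equiv]

/-- The rank of the units of a totally complex field. -/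
theorem two_mul_rank (K : Type*) [Field K] [NumberField K] [IsTotallyComplex K] :
    2 * (Units.rank K + 1) = Module.finrank ℚ K := by
  classical
  have h1 := IsTotallyComplex.nrRealPlaces_eq_zero (K := K)
  have h2 := IsTotallyComplex.finrank (K := K)
  have h3 := InfinitePlace.card_eq_nrRealPlaces_add_nrComplexPlaces (K := K)
  have h4 : 0 < Fintype.card (InfinitePlace K) := Fintype.card_pos
  rw [Units.rank, h2, h3, h1]
  rw [h3, h1] at h4
  omega

section Galois

variable {K M : Type} [Field K] [NumberField K] [Field M] [NumberField M] [Algebra K M]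
  [IsGalois K M]

theorem iter_val (σ : M ≃ₐ[K] M) (i : ℕ) (u : (𝓞 M)ˣ) :
    (((⇑(unitHom σ))^[i] u : (𝓞 M)ˣ) : 𝓞 M) = σ ^ i • (u : 𝓞 M) := by
  induction i with
  | zero => rw [Function.iterate_zero, id, pow_zero, one_smul]
  | succ i ih => rw [Function.iterate_succ_apply', unitHom_val, ih, pow_succ', mul_smul]

/-- The units of `K` as units of `M`. -/
noncomputable def extHom (K M : Type) [Field K] [NumberField K] [Field M] [NumberField M]
    [Algebra K M] : (𝓞 K)ˣ →* (𝓞 M)ˣ :=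
  Units.map (algebraMap (𝓞 K) (𝓞 M)).toMonoidHom

theorem extHom_val (u : (𝓞 K)ˣ) : (extHom K M u : 𝓞 M) = algebraMap (𝓞 K) (𝓞 M) (u : 𝓞 K) := rfl

theorem extHom_coe (u : (𝓞 K)ˣ) :
    (((extHom K M u : (𝓞 M)ˣ) : 𝓞 M) : M) = algebraMap K M ((u : 𝓞 K) : K) := rfl

theorem extHom_injective : Function.Injective (extHom K M) := by
  intro u v h
  have h1 : algebraMap K M ((u : 𝓞 K) : K) = algebraMap K M ((v : 𝓞 K) : K) := by
    rw [← extHom_coe, ← extHom_coe, h]
  exact Units.ext (RingOfIntegers.ext ((algebraMap K M).injective h1))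

theorem mem_range_extHom {p : ℕ} (hp : p.Prime) (hcard : Nat.card (M ≃ₐ[K] M) = p)
    {σ : M ≃ₐ[K] M} (hσ : σ ≠ 1) (x : (𝓞 M)ˣ) :
    x ∈ (extHom K M).range ↔ unitHom σ x = x := by
  constructor
  · rintro ⟨u, rfl⟩
    apply Units.ext
    rw [unitHom_val]
    apply RingOfIntegers.ext
    rw [coe_smul_int, extHom_coe, AlgEquiv.commutes]
  · intro h
    have hfix : ∀ y : (𝓞 M)ˣ, unitHom σ y = y → ∀ g : M ≃ₐ[K] M, g • (y : 𝓞 M) = y := by
      intro y hy g
      obtain ⟨i, -, rfl⟩ := exists_pow hp hcard hσ g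
      rw [← iter_val]
      have h1 : Function.IsFixedPt (⇑(unitHom σ)) y := hy
      rw [(h1.iterate i)]
    have hinv : unitHom σ x⁻¹ = x⁻¹ := by rw [map_inv, h]
    obtain ⟨r, hr⟩ := exists_of_inv (R := 𝓞 K) (hfix x h)
    obtain ⟨r', hr'⟩ := exists_of_inv (R := 𝓞 K) (hfix x⁻¹ hinv)
    have h1 : r * r' = 1 := by
      apply algebraMap_inj (R := 𝓞 K) (S := 𝓞 M)
      rw [map_mul, hr, hr', Units.mul_inv, map_one]
    exact ⟨⟨r, r', h1, by rw [mul_comm]; exact h1⟩, Units.ext hr⟩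

end Galois

/-- The extension `M = K(α)`, `α ^ p = ε`. -/
theorem dvd_class_of_root (h1 : StUnr) (h2 : StCard) (h3 : StHerb) (h4 : StAmb)
    (p : ℕ) [Fact p.Prime] (K M : Type) [Field K] [NumberField K] [Field M] [NumberField M]
    [Algebra K M] (ζ : K) (hp2 : p ≠ 2) (hK : IsTotallyComplex K) (hζ : IsPrimitiveRoot ζ p)
    (ε : (𝓞 K)ˣ) (hnb : ¬ ∃ b : K, b ^ p = ((ε : 𝓞 K) : K))
    (hloc : ∀ J : K →+* PadicAlgCl p, PowAt p J ((ε : 𝓞 K) : K))
    (α : M) (hα : α ^ p = algebraMap K M ((ε : 𝓞 K) : K))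
    (htop : IntermediateField.adjoin K {α} = ⊤) : p ∣ classNumber K := by
  have hp : p.Prime := Fact.out
  obtain ⟨hgal, hcard, hunr⟩ := h1 p K M ζ hζ ε hnb hloc α hα htop
  have := hgal
  obtain ⟨σ, hσ⟩ : ∃ σ : M ≃ₐ[K] M, σ ≠ 1 := by
    have : Finite (M ≃ₐ[K] M) := Nat.finite_of_card_ne_zero (by rw [hcard]; exact hp.ne_zero)
    have : Nontrivial (M ≃ₐ[K] M) := by
      rw [← Finite.one_lt_card_iff_nontrivial, hcard]
      exact hp.one_lt
    exact exists_ne 1
  have : IsTotallyComplex M := isTotallyComplex_of_algebra K M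
  -- the ranks
  have hrank : Units.rank M + 1 = p * (Units.rank K + 1) := by
    have e1 := two_mul_rank K
    have e2 := two_mul_rank M
    have e3 := Module.finrank_mul_finrank ℚ K M
    rw [← IsGalois.card_aut_eq_finrank K M, hcard] at e3
    rw [← e2, ← e1] at e3
    have e4 : 2 * (Units.rank M + 1) = 2 * (p * (Units.rank K + 1)) := by
      rw [← e3]; ring
    exact Nat.eq_of_mul_eq_mul_left two_pos e4
  -- the unit `α`
  have hint : IsIntegral ℤ α := by
    apply IsIntegral.of_pow hp.pos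
    rw [hα]
    exact ((ε : 𝓞 K).isIntegral_coe).algebraMap
  obtain ⟨a, ha⟩ : ∃ a : 𝓞 M, (a : M) = α := ⟨⟨α, hint⟩, rfl⟩
  have hapow : a ^ p = (extHom K M ε : 𝓞 M) := by
    apply RingOfIntegers.ext
    rw [extHom_coe, ← hα, ← ha]
    exact map_pow (algebraMap (𝓞 M) M) a p
  obtain ⟨u, hu⟩ : ∃ u : (𝓞 M)ˣ, (u : 𝓞 M) = a := by
    have hau : IsUnit a := by
      rw [← isUnit_pow_iff hp.ne_zero, hapow]
      exact Units.isUnit _
    exact hau
  have hup : u ^ p = extHom K M ε := by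
    apply Units.ext
    rw [Units.val_pow_eq_pow_val, hu, hapow]
  -- the Galois action
  have hmem := mem_range_extHom (K := K) (M := M) hp hcard hσ
  have hiter : ∀ x : (𝓞 M)ˣ, (⇑(unitHom σ))^[p] x = x := by
    intro x
    apply Units.ext
    rw [iter_val, pow_card_eq hp hcard hσ, one_smul]
  obtain ⟨x, hx1, hx2⟩ := h3 (𝓞 M)ˣ p hp hp2 (unitHom σ) hiter (Units.rank K + 1)
    (extHom K M).range hmem
    (by
      obtain ⟨hζ'⟩ : Nonempty (IsPrimitiveRoot (algebraMap K M ζ) p) :=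
        ⟨hζ.map_of_injective (algebraMap K M).injective⟩
      rw [h2 p M (algebraMap K M ζ) hζ', hrank])
    (by
      rw [index_pow_congr (MonoidHom.ofInjective (extHom_injective (K := K) (M := M))) p,
        h2 p K ζ hζ])
    u
    (by rw [hup, ← hmem]; exact ⟨ε, rfl⟩)
    (by
      rintro ⟨b, ⟨e, rfl⟩, hb⟩
      rw [hup, ← map_pow] at hb
      have hb' := extHom_injective hb
      apply hnb
      refine ⟨((e : 𝓞 K) : K), ?_⟩
      rw [← hb']
      simp)
  refine h4 p K M σ hp hcard hσ hunr x ?_ ?_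
  · rw [prod_eq_prod_range hp hcard hσ (fun g : M ≃ₐ[K] M => g • (x : 𝓞 M))]
    have e1 := congrArg (fun y : (𝓞 M)ˣ => (y : 𝓞 M)) hx1
    simp only [Units.coe_prod, Units.val_one, iter_val] at e1
    exact e1
  · intro y hy
    apply hx2 y
    apply Units.ext
    rw [unitHom_val, hy, Units.val_mul]

theorem stH94 (h1 : StUnr) (h2 : StCard) (h3 : StHerb) (h4 : StAmb) : StH94 := by
  intro p hpF K _ _ ζ hp2 hK hζ ε hnb hloc
  have hp : p.Prime := hpF.out
  classical
  have hirr : Irreducible (X ^ p - C ((ε : 𝓞 K) : K)) :=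
    X_pow_sub_C_irreducible_of_prime hp fun b hb => hnb ⟨b, hb⟩
  have : Fact (Irreducible (X ^ p - C ((ε : 𝓞 K) : K))) := ⟨hirr⟩
  have hmonic : (X ^ p - C ((ε : 𝓞 K) : K)).Monic := monic_X_pow_sub_C _ hp.ne_zero
  have hfin : Module.Finite K (AdjoinRoot (X ^ p - C ((ε : 𝓞 K) : K))) :=
    hmonic.finite_adjoinRoot
  have hnf : NumberField (AdjoinRoot (X ^ p - C ((ε : 𝓞 K) : K))) :=
    NumberField.of_module_finite K _
  refine dvd_class_of_root h1 h2 h3 h4 p K (AdjoinRoot (X ^ p - C ((ε : 𝓞 K) : K))) ζ hp2 hK hζ ε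
    hnb hloc (AdjoinRoot.root _) ?_ ?_
  · have h := AdjoinRoot.eval₂_root (X ^ p - C ((ε : 𝓞 K) : K))
    rw [eval₂_sub, eval₂_pow, eval₂_X, eval₂_C, sub_eq_zero] at h
    exact h
  · exact IntermediateField.adjoin_eq_top_of_algebra _ _ AdjoinRoot.adjoinRoot_eq_top

end BKThR
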