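import Pool.Agent.Lib.MP_7c08ba_nt.ThR.Stmts

/-!
Module Herb: an element of norm one which is not a quotient (pure algebra).
-/

set_option autoImplicit false

namespace BKThR

namespace HerbAux

open Subgroup

/-- `(X - 1) ^ (p - 1) = 1 + X + ... + X ^ (p - 1)` modulo `p`. -/
theorem poly_id (p : ℕ) [Fact p.Prime] :
    ((Polynomial.X : Polynomial (ZMod p)) - 1) ^ (p - 1) =
      ∑ i ∈ Finset.range p, Polynomial.X ^ i := by
  have hp : p.Prime := Fact.out
  have h0 : (Polynomial.X - 1 : Polynomial (ZMod p)) ≠ 0 := by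
    have := Polynomial.X_sub_C_ne_zero (1 : ZMod p)
    simpa using this
  apply mul_right_cancel₀ h0
  rw [← pow_succ, Nat.sub_add_cancel hp.one_le, sub_pow_char, one_pow, geom_sum_mul]

theorem end_id {p : ℕ} [Fact p.Prime] {W : Type} [AddCommGroup W] [Module (ZMod p) W]
    (s : Module.End (ZMod p) W) : (s - 1) ^ (p - 1) = ∑ i ∈ Finset.range p, s ^ i := by
  have h := congrArg (Polynomial.aeval s) (poly_id p)
  simpa using h

variable {E : Type} [CommGroup E]

/-- `σ y / y`. -/
def dd (σ : E →* E) : E →* E := σ / MonoidHom.id E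

theorem dd_apply (σ : E →* E) (y : E) : dd σ y = σ y / y := rfl

/-- The norm. -/
def nn (p : ℕ) (σ : E →* E) : E →* E where
  toFun y := ∏ i ∈ Finset.range p, (⇑σ)^[i] y
  map_one' := by
    apply Finset.prod_eq_one
    intro i _
    exact iterate_map_one σ i
  map_mul' := by
    intro a b
    rw [← Finset.prod_mul_distrib]
    apply Finset.prod_congr rfl
    intro i _
    exact iterate_map_mul σ i a b

theorem nn_apply (p : ℕ) (σ : E →* E) (y : E) :
    nn p σ y = ∏ i ∈ Finset.range p, (⇑σ)^[i] y := rfl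

/-- The subgroup of `p`-th powers. -/
abbrev PP (E : Type) [CommGroup E] (p : ℕ) : Subgroup E := (powMonoidHom p : E →* E).range

theorem mem_PP {p : ℕ} {x : E} : x ∈ PP E p ↔ ∃ z : E, z ^ p = x := Iff.rfl

theorem le_comap (p : ℕ) (f : E →* E) : PP E p ≤ (PP E p).comap f := by
  rintro x ⟨z, rfl⟩
  exact ⟨f z, by simp⟩

omit [CommGroup E] in
theorem iter_lin {p : ℕ} {W : Type} [AddCommGroup W] [Module (ZMod p) W]
    (s : Module.End (ZMod p) W) (m : E → W) (f : E → E) (h : ∀ y, s (m y) = m (f y)) (n : ℕ) :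
    ∀ y, (s ^ n) (m y) = m (f^[n] y) := by
  induction n with
  | zero => intro y; rfl
  | succ k ih =>
    intro y
    rw [pow_succ, Function.iterate_succ_apply, ← ih, ← h]
    rfl

theorem key_aux {p : ℕ} [Fact p.Prime] {W : Type} [AddCommGroup W] [Module (ZMod p) W]
    (s : Module.End (ZMod p) W) (m : Additive E →+ W) (σ : E →* E)
    (h : ∀ y : E, s (m (Additive.ofMul y)) = m (Additive.ofMul (σ y))) (y : E) :
    m (Additive.ofMul ((⇑(dd σ))^[p - 1] y)) = m (Additive.ofMul (nn p σ y)) := by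
  have h1 := iter_lin s (fun y => m (Additive.ofMul y)) σ h
  have h2 := iter_lin (s - 1) (fun y => m (Additive.ofMul y)) (dd σ) (by
    intro y
    rw [LinearMap.sub_apply, h, Module.End.one_apply, ← map_sub]
    rfl)
  have h3 := h2 (p - 1) y
  rw [end_id, LinearMap.sum_apply, Finset.sum_congr rfl fun i _ => h1 i y, ← map_sum] at h3
  rw [← h3, nn_apply]
  exact congrArg m (ofMul_prod _ _).symm

theorem key (p : ℕ) [Fact p.Prime] (σ : E →* E) (y : E) :
    ∃ z : E, (⇑(dd σ))^[p - 1] y = nn p σ y * z ^ p := by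
  have hW : ∀ x : Additive (E ⧸ PP E p), p • x = 0 := by
    intro x
    obtain ⟨y, hy⟩ := QuotientGroup.mk_surjective (Additive.toMul x)
    have hx : x = Additive.ofMul (y : E ⧸ PP E p) := by rw [hy]; rfl
    rw [hx, ← ofMul_pow, ← QuotientGroup.mk_pow]
    have : ((y ^ p : E) : E ⧸ PP E p) = 1 := (QuotientGroup.eq_one_iff _).2 ⟨y, rfl⟩
    rw [this]
    rfl
  let _ : Module (ZMod p) (Additive (E ⧸ PP E p)) := AddCommGroup.zmodModule hW
  let s0 : (E ⧸ PP E p) →* (E ⧸ PP E p) := QuotientGroup.map (PP E p) (PP E p) σ (le_comap p σ)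
  have h1 := key_aux (p := p) ((MonoidHom.toAdditive s0).toZModLinearMap p)
    (MonoidHom.toAdditive (QuotientGroup.mk' (PP E p))) σ (fun _ => rfl) y
  have h2 : (((⇑(dd σ))^[p - 1] y : E) : E ⧸ PP E p) = ((nn p σ y : E) : E ⧸ PP E p) :=
    Additive.ofMul.injective h1
  rw [eq_comm, QuotientGroup.eq] at h2
  obtain ⟨z, hz⟩ := h2
  refine ⟨z, ?_⟩
  have hz' : z ^ p = (nn p σ y)⁻¹ * (⇑(dd σ))^[p - 1] y := hz
  rw [hz', mul_inv_cancel_left]

/-- One step of the filtration. -/
theorem card_step {V : Type} [CommGroup V] [Finite V] (d : V →* V) (H : Subgroup V) :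
    Nat.card H ≤ d.range.index * Nat.card (H.map d) := by
  have h1 : d.ker.relIndex H = Nat.card (H.map d) := relIndex_ker H d
  have h2 : d.range.index = Nat.card d.ker := index_range
  rw [h2, ← h1]
  have h3 : (d.ker.subgroupOf H).index * Nat.card (d.ker.subgroupOf H) = Nat.card H :=
    index_mul_card _
  have h4 : Nat.card (d.ker.subgroupOf H) ≤ Nat.card d.ker := by
    apply Nat.card_le_card_of_injective
      (fun x : d.ker.subgroupOf H => (⟨((x : H) : V), mem_subgroupOf.1 x.2⟩ : d.ker))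
    intro x y hxy
    have := congrArg Subtype.val hxy
    exact Subtype.ext (Subtype.ext this)
  rw [← h3, mul_comm]
  exact Nat.mul_le_mul_right _ h4

theorem card_iter {V : Type} [CommGroup V] [Finite V] (d : V →* V) (n : ℕ) :
    Nat.card V ≤ d.range.index ^ n * Nat.card ((Subgroup.map d)^[n] ⊤ : Subgroup V) := by
  induction n with
  | zero => simp
  | succ k ih =>
    rw [Function.iterate_succ_apply', pow_succ, mul_assoc]
    exact ih.trans (Nat.mul_le_mul_left _ (card_step d _))

theorem mem_iter {V : Type} [CommGroup V] (d : V →* V) (n : ℕ) (x : V)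
    (h : x ∈ ((Subgroup.map d)^[n] ⊤ : Subgroup V)) : ∃ y, (⇑d)^[n] y = x := by
  induction n generalizing x with
  | zero => exact ⟨x, rfl⟩
  | succ k ih =>
    rw [Function.iterate_succ_apply', Subgroup.mem_map] at h
    obtain ⟨z, hz, rfl⟩ := h
    obtain ⟨y, rfl⟩ := ih z hz
    exact ⟨y, Function.iterate_succ_apply' _ _ _⟩

/-- Images of a pair of subgroups. -/
theorem relIndex_map_dvd {G G' : Type} [CommGroup G] [CommGroup G'] (f : G →* G')
    (H K : Subgroup G) (h : H ≤ K) : (H.map f).relIndex (K.map f) ∣ H.relIndex K := by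
  rw [relIndex_map_map]
  have h1 : K ⊔ f.ker = K ⊔ (H ⊔ f.ker) := by
    rw [← sup_assoc, sup_eq_left.2 h]
  rw [h1, relIndex_sup_right]
  exact relIndex_dvd_of_le_left K le_sup_left

end HerbAux

open HerbAux Subgroup in
theorem stHerb : StHerb := by
  intro E _ p hp _ σ hσ r I hI hE hIr α hα hαI
  have : Fact p.Prime := ⟨hp⟩
  by_contra hcon
  push Not at hcon
  -- the kernel of the norm
  have hker : ∀ x, nn p σ x = 1 → ∃ y, dd σ y = x := by
    intro x hx
    obtain ⟨y, hy⟩ := hcon x hx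
    exact ⟨y, by rw [dd_apply, hy, mul_div_cancel_right]⟩
  -- the norm is invariant
  have hnI : ∀ x, nn p σ x ∈ I := by
    intro x
    rw [hI, nn_apply, map_prod]
    have h1 : ∀ i, σ ((⇑σ)^[i] x) = (⇑σ)^[i + 1] x := fun i =>
      (Function.iterate_succ_apply' _ _ _).symm
    rw [Finset.prod_congr rfl fun i _ => h1 i]
    have h2 := Finset.prod_range_succ' (fun i => (⇑σ)^[i] x) p
    have h3 := Finset.prod_range_succ (fun i => (⇑σ)^[i] x) p
    rw [h2] at h3
    simp only [hσ x, Function.iterate_zero, id] at h3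
    exact mul_right_cancel h3
  have hnpow : ∀ x ∈ I, nn p σ x = x ^ p := by
    intro x hx
    have h1 : ∀ i, (⇑σ)^[i] x = x := fun i => Function.iterate_fixed ((hI x).1 hx) i
    rw [nn_apply, Finset.prod_congr rfl fun i _ => h1 i, Finset.prod_const, Finset.card_range]
  -- subgroups
  set Nr : Subgroup E := (nn p σ).range with hNr
  set Ip : Subgroup E := I.map (powMonoidHom p : E →* E) with hIp
  set H : Subgroup E := Nr.map (powMonoidHom p : E →* E) with hH
  have hNrI : Nr ≤ I := by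
    rintro _ ⟨x, rfl⟩
    exact hnI x
  have hIpNr : Ip ≤ Nr := by
    rintro _ ⟨x, hx, rfl⟩
    exact ⟨x, hnpow x hx⟩
  have hHIp : H ≤ Ip := Subgroup.map_mono hNrI
  have hpr : 0 < p ^ r := pow_pos hp.pos r
  -- `[I : I^p]`
  have hsub : Ip.subgroupOf I = (powMonoidHom p : I →* I).range := by
    ext x
    rw [mem_subgroupOf]
    constructor
    · rintro ⟨z, hz, hzx⟩
      exact ⟨⟨z, hz⟩, Subtype.ext hzx⟩
    · rintro ⟨z, rfl⟩
      exact ⟨z, z.2, rfl⟩
  have hIpI : Ip.relIndex I = p ^ r := by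
    rw [relIndex, hsub, hIr]
  -- `[NE : (NE)^p] ≤ p^r`
  have hNrI0 : Nr.relIndex I ≠ 0 := by
    intro h0
    have := relIndex_dvd_of_le_left I hIpNr
    rw [h0, hIpI] at this
    exact hpr.ne' (zero_dvd_iff.1 this)
  have hstep : H.relIndex Nr ≤ p ^ r ∧ H.relIndex Nr ≠ 0 := by
    have h1 : H.relIndex Nr * Nr.relIndex I = H.relIndex I :=
      relIndex_mul_relIndex H Nr I (hHIp.trans hIpNr) hNrI
    have h2 : H.relIndex Ip * Ip.relIndex I = H.relIndex I :=
      relIndex_mul_relIndex H Ip I hHIp (hIpNr.trans hNrI)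
    have h3 : H.relIndex Ip ∣ Nr.relIndex I := relIndex_map_dvd _ _ _ hNrI
    have h4 : H.relIndex Ip ≠ 0 := fun h0 => hNrI0 (zero_dvd_iff.1 (h0 ▸ h3))
    have h5 : H.relIndex Ip ≤ Nr.relIndex I := Nat.le_of_dvd (Nat.pos_of_ne_zero hNrI0) h3
    rw [hIpI, ← h1] at h2
    constructor
    · have h6 : H.relIndex Nr * Nr.relIndex I ≤ p ^ r * Nr.relIndex I := by
        rw [← h2, mul_comm]
        exact Nat.mul_le_mul_left _ h5
      exact Nat.le_of_mul_le_mul_right h6 (Nat.pos_of_ne_zero hNrI0)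
    · intro h0
      rw [h0, zero_mul] at h2
      exact (mul_ne_zero h4 hpr.ne') h2
  -- the quotient
  have hP0 : (PP E p).index ≠ 0 := by
    rw [hE]
    exact (pow_pos hp.pos _).ne'
  have : Finite (E ⧸ PP E p) := index_ne_zero_iff_finite.1 hP0
  let d : (E ⧸ PP E p) →* (E ⧸ PP E p) :=
    QuotientGroup.map (PP E p) (PP E p) (dd σ) (le_comap p (dd σ))
  have hd : ∀ (n : ℕ) (y : E), (⇑d)^[n] (y : E ⧸ PP E p) =
      (((⇑(dd σ))^[n] y : E) : E ⧸ PP E p) := by
    intro n
    induction n with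
    | zero => intro y; rfl
    | succ k ih =>
      intro y
      rw [Function.iterate_succ_apply, Function.iterate_succ_apply, ← ih]
      rfl
  have hcardV : Nat.card (E ⧸ PP E p) = p ^ (p * r) := by
    rw [← hE]
    exact (index_eq_card _).symm
  -- index of the range of `d`
  have hdr : d.range.index ≤ p ^ r := by
    have h1 : (d.range.comap (QuotientGroup.mk' (PP E p))).index = d.range.index :=
      index_comap_of_surjective _ (QuotientGroup.mk'_surjective _)
    have h2 : H.comap (nn p σ) ≤ d.range.comap (QuotientGroup.mk' (PP E p)) := by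
      rintro x hx
      rw [mem_comap] at hx
      obtain ⟨_, ⟨y, rfl⟩, hy⟩ := hx
      have hy' : (nn p σ y) ^ p = nn p σ x := hy
      have h3 : nn p σ (x / y ^ p) = 1 := by
        rw [map_div, map_pow, hy', div_self']
      obtain ⟨z, hz⟩ := hker _ h3
      rw [mem_comap]
      refine ⟨(z : E ⧸ PP E p), ?_⟩
      have h4 : d (z : E ⧸ PP E p) = ((dd σ z : E) : E ⧸ PP E p) := rfl
      rw [h4, hz]
      change ((x / y ^ p : E) : E ⧸ PP E p) = ((x : E) : E ⧸ PP E p)
      rw [QuotientGroup.eq]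
      exact ⟨y, by simp [div_eq_mul_inv]⟩
    have h5 : (H.comap (nn p σ)).index = H.relIndex Nr := index_comap _ _
    have h6 := index_dvd_of_le h2
    rw [h5, h1] at h6
    exact (Nat.le_of_dvd (Nat.pos_of_ne_zero hstep.2) h6).trans hstep.1
  -- the last piece
  have hlast : Nat.card ((Subgroup.map d)^[p - 1] ⊤ : Subgroup (E ⧸ PP E p)) < p ^ r := by
    have h1 : ((Subgroup.map d)^[p - 1] ⊤ : Subgroup (E ⧸ PP E p)) ≤
        I.map (QuotientGroup.mk' (PP E p)) := by
      intro x hx
      obtain ⟨w, rfl⟩ := mem_iter d (p - 1) x hx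
      obtain ⟨y, rfl⟩ := QuotientGroup.mk_surjective w
      obtain ⟨z, hz⟩ := key p σ y
      rw [hd, hz]
      refine ⟨nn p σ y, hnI y, ?_⟩
      change ((nn p σ y : E) : E ⧸ PP E p) = ((nn p σ y * z ^ p : E) : E ⧸ PP E p)
      rw [QuotientGroup.eq]
      exact ⟨z, by simp⟩
    have h2 : Nat.card (I.map (QuotientGroup.mk' (PP E p))) = (PP E p).relIndex I := by
      rw [← relIndex_ker, QuotientGroup.ker_mk']
    have h3 : (powMonoidHom p : I →* I).range < (PP E p).subgroupOf I := by
      rw [← hsub]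
      apply lt_of_le_of_ne
      · intro x hx
        rw [mem_subgroupOf] at hx ⊢
        obtain ⟨z, _, hz⟩ := hx
        exact ⟨z, hz⟩
      · intro heq
        have h4 : (⟨α ^ p, (hI _).2 hα⟩ : I) ∈ (PP E p).subgroupOf I := by
          rw [mem_subgroupOf]
          exact ⟨α, rfl⟩
        rw [← heq, mem_subgroupOf] at h4
        obtain ⟨z, hz, hz2⟩ := h4
        exact hαI ⟨z, hz, hz2⟩
    have : (powMonoidHom p : I →* I).range.FiniteIndex := ⟨by rw [hIr]; exact hpr.ne'⟩
    have h5 := index_strictAnti h3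
    rw [hIr] at h5
    refine lt_of_le_of_lt ?_ h5
    have h6 : (PP E p).relIndex I = ((PP E p).subgroupOf I).index := rfl
    rw [← h6, ← h2]
    exact Nat.card_le_card_of_injective _ (Subgroup.inclusion_injective h1)
  have h1 := card_iter d (p - 1)
  rw [hcardV] at h1
  have h2 : d.range.index ^ (p - 1) * Nat.card ((Subgroup.map d)^[p - 1] ⊤ :
      Subgroup (E ⧸ PP E p)) < (p ^ r) ^ (p - 1) * p ^ r := by
    refine lt_of_le_of_lt (Nat.mul_le_mul_right _ (Nat.pow_le_pow_left hdr _)) ?_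
    exact Nat.mul_lt_mul_of_pos_left hlast (pow_pos hpr _)
  have h3 : (p ^ r) ^ (p - 1) * p ^ r = p ^ (p * r) := by
    rw [← pow_succ, Nat.sub_add_cancel hp.one_le, ← pow_mul, mul_comm]
  omega

end BKThR
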