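import Pool.Agent.Lib.MP_7c08ba_nt.ThR.Stmts
import Pool.Agent.Lib.MP_7c08ba_nt.Odd.Stmts

/-!
From Theorem R to the hypotheses `BKOdd.OddHyp` of the theorems on Selmer groups at odd `p`.
-/

set_option autoImplicit false

namespace BKThR

open BKGen BKGen.Genus NumberField

/-- rigidity is invariant under isomorphisms -/
theorem rigid_equiv {p : ℕ} [Fact p.Prime] {K K' : Type} [Field K] [Field K'] (e : K ≃+* K')
    (ι : K' →+* PadicAlgCl p) (h : Rigid p K (ι.comp (e : K →+* K'))) : Rigid p K' ι := by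
  intro a ha haw hat
  obtain ⟨b, hb⟩ := h (e.symm a) (by rwa [Ne, map_eq_zero]) (by
    intro l _ hlp J
    obtain ⟨b, hb⟩ := haw l hlp (J.comp (e.symm : K' →+* K))
    exact ⟨e.symm b, hb⟩) (by
    obtain ⟨x, hx, hxp⟩ := hat
    refine ⟨x, ?_, by rw [hxp]; simp⟩
    have h1 : Set.range (ι.comp (e : K →+* K')) = Set.range ι := by
      ext y
      constructor
      · rintro ⟨z, rfl⟩; exact ⟨e z, rfl⟩
      · rintro ⟨z, rfl⟩; exact ⟨e.symm z, by simp⟩
    rw [comp, h1]
    exact hx)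
  exact ⟨e b, by rw [← map_pow, hb, e.apply_symm_apply]⟩

/-- `K = F(ζ)` is isomorphic to the subfield `F(ζ)` of the algebraic closure -/
theorem exists_iso {p : ℕ} [Fact p.Prime] {F K : Type} [Field F] [NumberField F] [Field K]
    [NumberField K] [Algebra F K] {ζ₀ : K} (hζ₀ : IsPrimitiveRoot ζ₀ p)
    (htop : IntermediateField.adjoin F {ζ₀} = ⊤) {ζ : AlgebraicClosure F}
    (hζ : IsPrimitiveRoot ζ p) :
    ∃ e : K ≃+* BKOdd.Kz ζ, ∀ x : F, e (algebraMap F K x) = algebraMap F (BKOdd.Kz ζ) x := by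
  have hp : p.Prime := Fact.out
  have hne : NeZero p := ⟨hp.ne_zero⟩
  have hfd : FiniteDimensional F K := Module.Finite.of_restrictScalars_finite ℚ F K
  let f : K →ₐ[F] AlgebraicClosure F := IsAlgClosed.lift
  have hf : IsPrimitiveRoot (f ζ₀) p := hζ₀.map_of_injective f.toRingHom.injective
  have hrange : f.fieldRange = BKOdd.Kz ζ := by
    rw [AlgHom.fieldRange_eq_map, ← htop, IntermediateField.adjoin_map, Set.image_singleton,
      BKOdd.Kz]
    apply le_antisymm
    · rw [IntermediateField.adjoin_simple_le_iff]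
      obtain ⟨i, -, hi⟩ := hζ.eq_pow_of_pow_eq_one hf.pow_eq_one
      have h1 : (f : K → AlgebraicClosure F) ζ₀ = ζ ^ i := hi.symm
      rw [h1]
      exact pow_mem (IntermediateField.mem_adjoin_simple_self F ζ) i
    · rw [IntermediateField.adjoin_simple_le_iff]
      obtain ⟨i, -, hi⟩ := hf.eq_pow_of_pow_eq_one hζ.pow_eq_one
      rw [← hi]
      exact pow_mem (IntermediateField.mem_adjoin_simple_self F (f ζ₀)) i
  let g : K →+* BKOdd.Kz ζ := (f : K →+* AlgebraicClosure F).codRestrict (BKOdd.Kz ζ).toSubfield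
    (fun x => by
      have h1 : f x ∈ f.fieldRange := ⟨x, rfl⟩
      rw [hrange] at h1
      exact h1)
  have hgval : ∀ x : K, ((g x : BKOdd.Kz ζ) : AlgebraicClosure F) = f x := fun x => rfl
  refine ⟨RingEquiv.ofBijective g ⟨g.injective, ?_⟩, ?_⟩
  · intro y
    have h1 : (y : AlgebraicClosure F) ∈ f.fieldRange := by
      rw [hrange]; exact y.2
    obtain ⟨x, hx⟩ := h1
    exact ⟨x, Subtype.ext hx⟩
  · intro x
    apply Subtype.ext
    change f (algebraMap F K x) = _
    rw [f.commutes]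
    rfl

/-- The hypotheses of the theorems on Selmer groups at odd `p`, from Theorem R: `F` is imaginary
quadratic, `ι` lies over `j : F → ℚ_p`, `p` does not divide the class number of `F(μ_p)` and a
generator of a power of the other prime above `p` is not a `(p - 1)`-th root of unity modulo
`p ^ 2`. -/
theorem oddHyp (hR : StR) {p : ℕ} [Fact p.Prime] (hp2 : p ≠ 2) {F K : Type} [Field F]
    [NumberField F] [Field K] [NumberField K] [Algebra F K] (hreal : IsTotallyComplex F)
    (hdeg : Module.finrank ℚ F = 2) {ζ₀ : K} (hζ₀ : IsPrimitiveRoot ζ₀ p)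
    (htop : IntermediateField.adjoin F {ζ₀} = ⊤) (hcl : ¬ p ∣ classNumber K)
    {ζ : AlgebraicClosure F} (hζ : IsPrimitiveRoot ζ p) (ι : AlgebraicClosure F →+* PadicAlgCl p)
    (j : F →+* ℚ_[p])
    (hι : ∀ x : F, ι (algebraMap F _ x) = algebraMap ℚ_[p] (PadicAlgCl p) (j x))
    (hgold : ∃ (h : ℕ) (β : 𝓞 F), h ≠ 0 ∧ Algebra.norm ℤ β = (p : ℤ) ^ h ∧ ‖j β‖ = 1 ∧
      (p : ℝ) ^ (-2 : ℤ) < ‖(j β) ^ (p - 1) - 1‖) :
    BKOdd.OddHyp p F ζ ι := by
  refine ⟨hp2, hdeg, ?_, hζ, ?_, ?_⟩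
  · constructor
    intro f
    obtain ⟨v⟩ : Nonempty (InfinitePlace F) := inferInstance
    have h1 : ComplexEmbedding.IsReal ((Complex.ofRealHom).comp f) := by
      rw [ComplexEmbedding.isReal_iff]
      ext x
      simp
    have h2 : InfinitePlace.IsReal (InfinitePlace.mk ((Complex.ofRealHom).comp f)) :=
      ⟨_, h1, rfl⟩
    exact (InfinitePlace.not_isReal_iff_isComplex.mpr (hreal.isComplex _)) h2
  · intro a
    rw [hι]
    exact (⊥ : IntermediateField ℚ_[p] (PadicAlgCl p)).algebraMap_mem _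
  · obtain ⟨e, he⟩ := exists_iso hζ₀ htop hζ
    apply rigid_equiv e
    refine hR p F K ζ₀ j _ ⟨hp2, hreal, hdeg, hζ₀, htop, ?_⟩ hcl hgold
    intro x
    rw [← hι, RingHom.comp_apply, RingHom.comp_apply, RingEquiv.coe_toRingHom, he]
    rfl

end BKThR
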