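import Pool.Agent.Lib.MP_7c08ba_nt.ThR.Stmts

/-!
No primitive `p ^ 2`-th root of unity in `F(ζ)`.
-/

set_option autoImplicit false

namespace BKThR

open NumberField

namespace Not

theorem finrank_le (p : ℕ) [Fact p.Prime] (F K : Type) [Field F] [NumberField F] [Field K]
    [NumberField K] [Algebra F K] (ζ : K) (hζ : IsPrimitiveRoot ζ p)
    (htop : IntermediateField.adjoin F {ζ} = ⊤) : Module.finrank F K ≤ p - 1 := by
  have hp : p.Prime := Fact.out
  have hint : IsIntegral F ζ := ⟨Polynomial.X ^ p - 1,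
    Polynomial.monic_X_pow_sub_C 1 hp.ne_zero, by simp [hζ.pow_eq_one]⟩
  have h1 : Module.finrank F (IntermediateField.adjoin F {ζ}) = (minpoly F ζ).natDegree :=
    IntermediateField.adjoin.finrank hint
  have h2 : Module.finrank F (IntermediateField.adjoin F {ζ}) = Module.finrank F K := by
    rw [htop]
    exact IntermediateField.finrank_top'
  rw [← h2, h1, ← Nat.totient_prime hp, ← Polynomial.natDegree_cyclotomic p F]
  apply Polynomial.natDegree_le_of_dvd _ (Polynomial.cyclotomic_ne_zero p F)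
  apply minpoly.dvd
  have := hζ.isRoot_cyclotomic hp.pos
  rw [Polynomial.IsRoot.def, ← Polynomial.map_cyclotomic p (algebraMap F K)] at this
  rwa [Polynomial.eval_map_algebraMap] at this

end Not

theorem stNot : StNot := by
  intro p _ F K _ _ _ _ _ ζ hp2 hζ htop hF s hs
  obtain ⟨u, hu⟩ := hs
  by_contra hps
  have hp : p.Prime := Fact.out
  have h1 : u ^ p ^ (1 + 1) = 1 := by
    rw [pow_succ, pow_one, pow_mul, hu, ← pow_mul, mul_comm, pow_mul, hζ.pow_eq_one, one_pow]
  have h2 : ¬ u ^ p ^ 1 = 1 := by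
    rw [pow_one, hu, hζ.pow_eq_one_iff_dvd]
    exact hps
  have h3 : orderOf u = p ^ (1 + 1) := orderOf_eq_prime_pow h2 h1
  have h4 : IsPrimitiveRoot u (p ^ (1 + 1)) := h3 ▸ IsPrimitiveRoot.orderOf u
  have h5 : Nat.totient (p ^ (1 + 1)) ≤ (minpoly ℤ u).natDegree := h4.totient_le_degree_minpoly
  have hintZ : IsIntegral ℤ u := h4.isIntegral (pow_pos hp.pos _)
  have h6 : (minpoly ℤ u).natDegree = (minpoly ℚ u).natDegree := by
    rw [minpoly.isIntegrallyClosed_eq_field_fractions' ℚ hintZ]
    exact ((minpoly.monic hintZ).natDegree_map _).symm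
  have h7 : (minpoly ℚ u).natDegree ≤ Module.finrank ℚ K := minpoly.natDegree_le u
  have h8 : Module.finrank ℚ F * Module.finrank F K = Module.finrank ℚ K :=
    Module.finrank_mul_finrank ℚ F K
  have h9 := Not.finrank_le p F K ζ hζ htop
  rw [Nat.totient_prime_pow_succ hp, pow_one] at h5
  rw [hF] at h8
  have h10 : p * (p - 1) ≤ 2 * (p - 1) := by omega
  have h11 : p ≤ 2 := Nat.le_of_mul_le_mul_right h10 (Nat.sub_pos_of_lt hp.one_lt)
  exact hp2 (le_antisymm h11 hp.two_le)

end BKThR
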