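import Pool.Agent.Lib.MP_7c08ba_nt.ThR.Stmts
import Pool.Agent.Lib.MP_7c08ba_nt.Gen.Layer

/-!
Theorem R, component `i = 1`: the subfield of degree `p` of `K(a^{1/p})/F`.
-/

set_option autoImplicit false
set_option linter.unusedSectionVars false

namespace BKThR

open BKGen BKGen.Genus NumberField

section Setup

variable {p : ℕ} [Fact p.Prime] {F K Ω : Type} [Field F] [Field K] [Field Ω] [Algebra F K]
  [Algebra K Ω] [Algebra F Ω] [IsScalarTower F K Ω] [Normal F K]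

/-- automorphisms which fix `K` and `α` -/
def fixK (F K : Type) {Ω : Type} [Field F] [Field K] [Field Ω] [Algebra F K]
    [Algebra K Ω] [Algebra F Ω] [IsScalarTower F K Ω] [Normal F K] (α : Ω) :
    Subgroup (Ω ≃ₐ[F] Ω) where
  carrier := {σ | AlgEquiv.restrictNormalHom K σ = 1 ∧ σ α = α}
  one_mem' := ⟨map_one _, rfl⟩
  mul_mem' := by
    rintro a b ⟨ha, ha'⟩ ⟨hb, hb'⟩
    exact ⟨by rw [map_mul, ha, hb, one_mul], by rw [AlgEquiv.mul_apply, hb', ha']⟩
  inv_mem' := by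
    rintro a ⟨ha, ha'⟩
    refine ⟨by rw [map_inv, ha, inv_one], ?_⟩
    have h1 := congrArg (a⁻¹ : Ω ≃ₐ[F] Ω) ha'
    rw [← AlgEquiv.mul_apply, inv_mul_cancel, AlgEquiv.one_apply] at h1
    exact h1.symm

theorem restrict_apply (σ : Ω ≃ₐ[F] Ω) (x : K) :
    algebraMap K Ω (AlgEquiv.restrictNormalHom K σ x) = σ (algebraMap K Ω x) :=
  AlgEquiv.restrictNormal_commutes σ K x

theorem fix_of_restrict {σ : Ω ≃ₐ[F] Ω} (h : AlgEquiv.restrictNormalHom K σ = 1) (x : K) :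
    σ (algebraMap K Ω x) = algebraMap K Ω x := by
  rw [← restrict_apply, h, AlgEquiv.one_apply]

variable {ζ a : K} {α : Ω}

/-- the roots of unity of `Ω` are in `K` -/
theorem root_mem (hζ : IsPrimitiveRoot ζ p) {ω : Ω} (h : ω ^ p = 1) :
    ∃ i : ℕ, ω = algebraMap K Ω (ζ ^ i) := by
  have hp : p.Prime := Fact.out
  have h2 : IsPrimitiveRoot (algebraMap K Ω ζ) p := hζ.map_of_injective (algebraMap K Ω).injective
  have : NeZero p := ⟨hp.ne_zero⟩
  obtain ⟨i, -, hi⟩ := h2.eq_pow_of_pow_eq_one h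
  exact ⟨i, by rw [map_pow, hi]⟩

/-- the action of `σ` on `α` when `σ` fixes `K` -/
theorem exists_root (hζ : IsPrimitiveRoot ζ p) (ha : a ≠ 0) (hα : α ^ p = algebraMap K Ω a)
    {σ : Ω ≃ₐ[F] Ω} (h : σ (algebraMap K Ω a) = algebraMap K Ω a) :
    ∃ i : ℕ, σ α = algebraMap K Ω (ζ ^ i) * α := by
  have hp : p.Prime := Fact.out
  have hα0 : α ≠ 0 := by
    rintro rfl
    rw [zero_pow hp.ne_zero] at hα
    exact ha ((map_eq_zero _).mp hα.symm)
  obtain ⟨i, hi⟩ := root_mem (Ω := Ω) hζ (ω := σ α / α) (by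
    rw [div_pow, ← map_pow, hα, h, div_self]
    rwa [Ne, map_eq_zero])
  exact ⟨i, by rw [← hi, div_mul_cancel₀ _ hα0]⟩

/-- the group `Gal(Ω/K)` is central modulo `fixK` -/
theorem conj_apply (hζ : IsPrimitiveRoot ζ p) (ha : a ≠ 0) (hα : α ^ p = algebraMap K Ω a)
    (hτ : ∀ τ : K ≃ₐ[F] K, ∃ (m : ℕ) (y : K), y ≠ 0 ∧ τ ζ = ζ ^ m ∧ τ a = a ^ m * y ^ p)
    (σ τ : Ω ≃ₐ[F] Ω) (hσ : AlgEquiv.restrictNormalHom K σ = 1) :
    (τ * σ * τ⁻¹) α = σ α := by
  have hp : p.Prime := Fact.out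
  have hα0 : α ≠ 0 := by
    rintro rfl
    rw [zero_pow hp.ne_zero] at hα
    exact ha ((map_eq_zero _).mp hα.symm)
  obtain ⟨i, hi⟩ := exists_root (K := K) hζ ha hα (fix_of_restrict hσ a)
  obtain ⟨m, y, hy, h1, h2⟩ := hτ (AlgEquiv.restrictNormalHom K τ⁻¹)
  have hy0 : algebraMap K Ω y ≠ 0 := by rwa [Ne, map_eq_zero]
  -- `τ⁻¹ α` is `ζ ^ s α ^ m y`
  obtain ⟨s, hs⟩ := root_mem (Ω := Ω) hζ (ω := τ⁻¹ α / (α ^ m * algebraMap K Ω y)) (by
    rw [div_pow, ← map_pow, hα, mul_pow, ← pow_mul, mul_comm m p, pow_mul, hα, ← map_pow,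
      ← map_pow, ← map_mul, ← h2, restrict_apply, div_self]
    rw [Ne, map_eq_zero, map_eq_zero]
    exact ha)
  have h3 : τ⁻¹ α = algebraMap K Ω (ζ ^ s) * (α ^ m * algebraMap K Ω y) := by
    rw [← hs, div_mul_cancel₀]
    exact mul_ne_zero (pow_ne_zero _ hα0) hy0
  have h4 : σ (τ⁻¹ α) = algebraMap K Ω ((ζ ^ i) ^ m) * τ⁻¹ α := by
    rw [h3, map_mul, map_mul, map_pow σ, hi, fix_of_restrict hσ, fix_of_restrict hσ, mul_pow,
      map_pow (algebraMap K Ω) (ζ ^ i)]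
    ring
  have h5 : algebraMap K Ω ((ζ ^ i) ^ m) = τ⁻¹ (algebraMap K Ω (ζ ^ i)) := by
    rw [← restrict_apply, map_pow (AlgEquiv.restrictNormalHom K τ⁻¹), h1, ← pow_mul, ← pow_mul,
      mul_comm]
  change τ (σ (τ⁻¹ α)) = σ α
  rw [h4, h5, map_mul, ← AlgEquiv.mul_apply, ← AlgEquiv.mul_apply, mul_inv_cancel,
    AlgEquiv.one_apply, AlgEquiv.one_apply, hi]

theorem fixK_normal (hζ : IsPrimitiveRoot ζ p) (ha : a ≠ 0) (hα : α ^ p = algebraMap K Ω a)
    (hτ : ∀ τ : K ≃ₐ[F] K, ∃ (m : ℕ) (y : K), y ≠ 0 ∧ τ ζ = ζ ^ m ∧ τ a = a ^ m * y ^ p) :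
    (fixK F K α).Normal := by
  refine ⟨fun n hn g => ⟨?_, ?_⟩⟩
  · rw [map_mul, map_mul, hn.1, mul_one, map_inv, mul_inv_cancel]
  · rw [conj_apply hζ ha hα hτ n g hn.1, hn.2]

/-- the quotient is abelian -/
theorem quot_comm (hζ : IsPrimitiveRoot ζ p) (ha : a ≠ 0) (hα : α ^ p = algebraMap K Ω a)
    (hτ : ∀ τ : K ≃ₐ[F] K, ∃ (m : ℕ) (y : K), y ≠ 0 ∧ τ ζ = ζ ^ m ∧ τ a = a ^ m * y ^ p)
    (hcyc : IsCyclic (K ≃ₐ[F] K)) [(fixK F K α).Normal] (x y : (Ω ≃ₐ[F] Ω) ⧸ fixK F K α) :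
    x * y = y * x := by
  let f : (Ω ≃ₐ[F] Ω) ⧸ fixK F K α →* (K ≃ₐ[F] K) :=
    QuotientGroup.lift (fixK F K α) (AlgEquiv.restrictNormalHom K) fun σ hσ => hσ.1
  refine (MonoidHom.isMulCommutative_of_isCyclic_of_ker_le_center f ?_).is_comm.comm x y
  intro x hx
  obtain ⟨σ, rfl⟩ := QuotientGroup.mk_surjective x
  have hσ : AlgEquiv.restrictNormalHom K σ = 1 := hx
  rw [Subgroup.mem_center_iff]
  intro g
  obtain ⟨τ, rfl⟩ := QuotientGroup.mk_surjective g
  rw [← QuotientGroup.mk_mul, ← QuotientGroup.mk_mul, QuotientGroup.eq]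
  -- `(τ σ)⁻¹ (σ τ)` fixes `K` and `α`
  refine ⟨by simp [hσ], ?_⟩
  have h1 := conj_apply hζ ha hα hτ σ⁻¹ τ⁻¹ (by rw [map_inv, hσ, inv_one])
  have h2 : ((τ * σ)⁻¹ * (σ * τ)) α = σ⁻¹ ((τ⁻¹ * σ * τ) α) := by
    simp only [mul_inv_rev, AlgEquiv.mul_apply]
  rw [h2]
  have h3 := conj_apply hζ ha hα hτ σ τ⁻¹ hσ
  rw [inv_inv] at h3
  rw [h3, ← AlgEquiv.mul_apply, inv_mul_cancel, AlgEquiv.one_apply]

variable (hζ : IsPrimitiveRoot ζ p) (ha : a ≠ 0) (hα : α ^ p = algebraMap K Ω a)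
  (hτ : ∀ τ : K ≃ₐ[F] K, ∃ (m : ℕ) (y : K), y ≠ 0 ∧ τ ζ = ζ ^ m ∧ τ a = a ^ m * y ^ p)
  (hcyc : IsCyclic (K ≃ₐ[F] K)) (hexp : ∀ τ : K ≃ₐ[F] K, τ ^ (p - 1) = 1)

include hζ ha hα hτ hcyc hexp in
/-- the homomorphism `τ ↦ τ ^ (p - 1) α / α` -/
theorem exists_hom : ∃ f : (Ω ≃ₐ[F] Ω) →* rootsOfUnity p Ω,
    ∀ τ : Ω ≃ₐ[F] Ω, (τ ^ (p - 1)) α = ((f τ : Ωˣ) : Ω) * α := by
  have hp : p.Prime := Fact.out
  have hα0 : α ≠ 0 := by
    rintro rfl
    rw [zero_pow hp.ne_zero] at hα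
    exact ha ((map_eq_zero _).mp hα.symm)
  have hnorm := fixK_normal hζ ha hα hτ
  have hr : ∀ τ : Ω ≃ₐ[F] Ω, AlgEquiv.restrictNormalHom K (τ ^ (p - 1)) = 1 := by
    intro τ
    rw [map_pow, hexp]
  have hne : ∀ τ : Ω ≃ₐ[F] Ω, τ α ≠ 0 := fun τ h => hα0 ((map_eq_zero τ).mp h)
  let g : (Ω ≃ₐ[F] Ω) → rootsOfUnity p Ω := fun τ =>
    ⟨Units.mk0 ((τ ^ (p - 1)) α / α) (div_ne_zero (hne _) hα0), by
      rw [mem_rootsOfUnity, Units.ext_iff, Units.val_pow_eq_pow_val, Units.val_mk0, Units.val_one,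
        div_pow, ← map_pow, hα, fix_of_restrict (hr τ), div_self]
      rwa [Ne, map_eq_zero]⟩
  have hg : ∀ τ : Ω ≃ₐ[F] Ω, (τ ^ (p - 1)) α = ((g τ : Ωˣ) : Ω) * α := by
    intro τ
    change _ = (τ ^ (p - 1)) α / α * α
    rw [div_mul_cancel₀ _ hα0]
  have hmul : ∀ σ τ : Ω ≃ₐ[F] Ω, g (σ * τ) = g σ * g τ := by
    intro σ τ
    apply Subtype.ext
    apply Units.ext
    rw [Subgroup.coe_mul, Units.val_mul]
    apply mul_right_cancel₀ hα0
    rw [← hg (σ * τ)]
    -- in the quotient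
    have h1 : ((σ * τ) ^ (p - 1) : Ω ≃ₐ[F] Ω) = σ ^ (p - 1) * τ ^ (p - 1) *
        ((σ ^ (p - 1) * τ ^ (p - 1))⁻¹ * (σ * τ) ^ (p - 1)) := by group
    have h2 : (σ ^ (p - 1) * τ ^ (p - 1))⁻¹ * (σ * τ) ^ (p - 1) ∈ fixK F K α := by
      rw [← QuotientGroup.eq, QuotientGroup.mk_mul, QuotientGroup.mk_pow, QuotientGroup.mk_pow,
        QuotientGroup.mk_pow, QuotientGroup.mk_mul]
      have hc : Commute (σ : (Ω ≃ₐ[F] Ω) ⧸ fixK F K α) τ := quot_comm hζ ha hα hτ hcyc _ _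
      exact (hc.mul_pow _).symm
    obtain ⟨s, hs⟩ := root_mem (Ω := Ω) hζ (ω := ((g τ : Ωˣ) : Ω)) (by
      have := (g τ).2
      rw [mem_rootsOfUnity] at this
      rw [← Units.val_pow_eq_pow_val, this, Units.val_one])
    rw [h1, AlgEquiv.mul_apply, h2.2, AlgEquiv.mul_apply, hg τ, map_mul, hg σ, hs,
      fix_of_restrict (hr σ)]
    ring
  exact ⟨MonoidHom.mk' g hmul, hg⟩

end Setup

theorem stOne (hG : StGal) : StOne := by
  intro p _ F K _ _ _ _ _ ζ j ι S hgood a ha0 haw hat hτ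
  have hp : p.Prime := Fact.out
  have hζ := S.hζ
  obtain ⟨hgal, hexp, δ, hδ⟩ := hG p F K ζ hζ S.htop
  have hcyc : IsCyclic (K ≃ₐ[F] K) := ⟨δ, fun τ => by
    obtain ⟨k, hk⟩ := hδ τ
    exact ⟨k, by simpa using hk⟩⟩
  by_contra hnot
  let Ω := AlgebraicClosure K
  have hchar : CharZero Ω := charZero_of_injective_algebraMap (algebraMap K Ω).injective
  have halgK : Algebra.IsAlgebraic K Ω := inferInstance
  have halg : Algebra.IsAlgebraic F Ω := Algebra.IsAlgebraic.trans F K Ω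
  have hnormal : Normal F Ω := by
    rw [normal_iff]
    intro x
    exact ⟨(halg.isAlgebraic x).isIntegral, IsAlgClosed.splits _⟩
  have hgalΩ : IsGalois F Ω := ⟨⟩
  have hgalK : IsGalois K Ω := ⟨⟩
  obtain ⟨J, hJ⟩ := exists_extension (K := K) (Ω := Ω) p ι
  obtain ⟨α, hα⟩ := IsAlgClosed.exists_pow_nat_eq (algebraMap K Ω a) hp.pos
  have hα0 : α ≠ 0 := by
    rintro rfl
    rw [zero_pow hp.ne_zero] at hα
    exact ha0 ((map_eq_zero _).mp hα.symm)
  obtain ⟨f, hf⟩ := exists_hom (F := F) (Ω := Ω) hζ ha0 hα hτ hcyc hexp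
  -- an automorphism of `Ω / K` which moves `α`
  obtain ⟨σ₀, hσ₀⟩ : ∃ σ : Ω ≃ₐ[K] Ω, σ α ≠ α := by
    by_contra hcon
    push Not at hcon
    have h1 : α ∈ Set.range (algebraMap K Ω) :=
      (InfiniteGalois.mem_range_algebraMap_iff_fixed α).mpr hcon
    obtain ⟨b, hb⟩ := h1
    apply hnot
    refine ⟨b, (algebraMap K Ω).injective ?_⟩
    rw [map_pow, hb, hα]
  have hcard : Nat.card (rootsOfUnity p Ω) = p := by
    have h2 : IsPrimitiveRoot (algebraMap K Ω ζ) p :=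
      hζ.map_of_injective (algebraMap K Ω).injective
    have : NeZero p := ⟨hp.ne_zero⟩
    exact h2.card_rootsOfUnity
  have hrange : f.range = ⊤ := by
    have : Fact (Nat.card (rootsOfUnity p Ω)).Prime := ⟨by rw [hcard]; exact hp⟩
    refine (Subgroup.eq_bot_or_eq_top_of_prime_card f.range).resolve_left ?_
    intro hbot
    have h1 : f ((σ₀ : Ω ≃ₐ[K] Ω).restrictScalars F) = 1 := by
      have : f (σ₀.restrictScalars F) ∈ f.range := ⟨_, rfl⟩
      rwa [hbot, Subgroup.mem_bot] at this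
    have h2 := hf (σ₀.restrictScalars F)
    rw [h1, OneMemClass.coe_one, Units.val_one, one_mul] at h2
    -- `σ₀ ^ p` fixes `α`
    obtain ⟨i, hi⟩ := exists_root (F := F) (Ω := Ω) hζ ha0 hα (σ := σ₀.restrictScalars F)
      (σ₀.commutes a)
    have h3 : ∀ k : ℕ, ((σ₀.restrictScalars F) ^ k) α = (algebraMap K Ω (ζ ^ i)) ^ k * α := by
      intro k
      induction k with
      | zero => simp
      | succ k ih =>
        rw [pow_succ', AlgEquiv.mul_apply, ih, map_mul, hi, map_pow]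
        have h4 : (σ₀.restrictScalars F) (algebraMap K Ω (ζ ^ i)) = algebraMap K Ω (ζ ^ i) :=
          σ₀.commutes _
        rw [h4]
        ring
    have h4 : ((σ₀.restrictScalars F) ^ p) α = α := by
      rw [h3, ← map_pow, ← pow_mul, mul_comm i p, pow_mul, hζ.pow_eq_one, one_pow, map_one,
        one_mul]
    have h5 : (σ₀.restrictScalars F) α = α := by
      have h6 : (σ₀.restrictScalars F) ^ p = σ₀.restrictScalars F *
          (σ₀.restrictScalars F) ^ (p - 1) := by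
        rw [← pow_succ', Nat.sub_add_cancel hp.one_le]
      rw [h6, AlgEquiv.mul_apply, h2] at h4
      exact h4
    exact hσ₀ h5
  refine no_index_p_genus' (p := p) (F := F) (Ω := Ω) S.hp2 hgood J ?_ f.ker inferInstance ?_ ?_
    ?_ ?_
  · intro x
    rw [IsScalarTower.algebraMap_apply F K Ω, ← RingHom.comp_apply, hJ, S.hι]
  · rw [Subgroup.index_ker, hrange, Subgroup.card_top, hcard]
  · -- open
    have hint : IsIntegral F α := Algebra.IsIntegral.isIntegral α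
    refine Subgroup.isOpen_mono (H₁ := MulAction.stabilizer (Ω ≃ₐ[F] Ω) α) ?_
      (stabilizer_isOpen_of_isIntegral (K := F) α)
    intro τ hτ'
    have h1 : τ α = α := hτ'
    have h2 : ∀ k : ℕ, (τ ^ k) α = α := by
      intro k
      induction k with
      | zero => rfl
      | succ k ih => rw [pow_succ', AlgEquiv.mul_apply, ih, h1]
    have h3 := hf τ
    rw [h2] at h3
    rw [MonoidHom.mem_ker]
    apply Subtype.ext
    apply Units.ext
    apply mul_right_cancel₀ hα0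
    rw [← h3]
    simp
  · intro l _ hlp i σ hσ
    -- `σ` fixes `ζ`
    have h1 : σ (algebraMap K Ω ζ) = algebraMap K Ω ζ := by
      by_contra hne
      have hz : (algebraMap K Ω ζ) ^ p = 1 := by rw [← map_pow, hζ.pow_eq_one, map_one]
      have h2 := hσ (algebraMap K Ω ζ) (by
        rw [norm_root hp.ne_zero (by rw [← map_pow, hz, map_one])])
      have h4 : ¬ l ∣ p := by
        intro h5
        exact hlp ((Nat.prime_dvd_prime_iff_eq (Fact.out : l.Prime) hp).mp h5)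
      rw [map_sub, norm_root_sub h4 (by rw [← map_pow, ← map_pow, hz, map_one, map_one])
        (by rw [← map_pow, hz, map_one]) (fun h => hne (i.injective h))] at h2
      exact lt_irrefl _ h2
    have h2 : ∀ x : K, σ (algebraMap K Ω x) = algebraMap K Ω x := by
      intro x
      have hx : x ∈ IntermediateField.adjoin F {ζ} := by rw [S.htop]; trivial
      induction hx using IntermediateField.adjoin_induction with
      | mem y hy =>
        rw [Set.mem_singleton_iff] at hy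
        rw [hy, h1]
      | algebraMap y =>
        rw [← IsScalarTower.algebraMap_apply]
        exact σ.commutes y
      | add y z _ _ hy hz => rw [map_add, map_add, hy, hz]
      | inv y _ hy => rw [map_inv₀, map_inv₀, hy]
      | mul y z _ _ hy hz => rw [map_mul, map_mul, hy, hz]
    obtain ⟨b, hb⟩ := haw l hlp (i.comp (algebraMap K Ω))
    have h3 : σ α = α := by
      refine inert_fix (p := p) (K := F) hlp i hσ (IsScalarTower.toAlgHom F K Ω).fieldRange ?_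
        (α := α) (b := algebraMap K Ω b) ?_ ⟨b, rfl⟩ ?_
      · rintro _ ⟨y, rfl⟩
        exact h2 y
      · rw [hα]
        exact ⟨a, rfl⟩
      · rw [RingHom.comp_apply, RingHom.comp_apply, ← hα, map_pow, norm_pow] at hb
        exact (pow_left_inj₀ (norm_nonneg _) (norm_nonneg _) hp.ne_zero).mp hb
    have h4 : ∀ k : ℕ, (σ ^ k) α = α := by
      intro k
      induction k with
      | zero => rfl
      | succ k ih => rw [pow_succ', AlgEquiv.mul_apply, ih, h3]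
    have h5 := hf σ
    rw [h4] at h5
    rw [MonoidHom.mem_ker]
    apply Subtype.ext
    apply Units.ext
    apply mul_right_cancel₀ hα0
    rw [← h5]
    simp
  · rintro σ ⟨τ, hτσ⟩
    -- `J α` is in the completion of `K`
    have h1 : J α ∈ comp p ι := by
      obtain ⟨β, hβ, hβp⟩ := hat
      have hβ0 : β ≠ 0 := by
        rintro rfl
        rw [zero_pow hp.ne_zero] at hβp
        exact ha0 ((map_eq_zero _).mp hβp.symm)
      have hJα : (J α / β) ^ p = 1 := by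
        rw [div_pow, ← map_pow, hα, hβp, ← RingHom.comp_apply, hJ, div_self]
        rwa [Ne, map_eq_zero]
      have h2 : IsPrimitiveRoot (ι ζ) p := hζ.map_of_injective ι.injective
      have : NeZero p := ⟨hp.ne_zero⟩
      obtain ⟨s, -, hs⟩ := h2.eq_pow_of_pow_eq_one hJα
      have h3 : J α = (ι ζ) ^ s * β := by
        rw [hs, div_mul_cancel₀ _ hβ0]
      rw [h3]
      exact mul_mem (pow_mem (mem_comp ι ζ) s) hβ
    have hpow : ∀ (k : ℕ) (x : Ω), J ((σ ^ k) x) = (τ ^ k) (J x) := by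
      intro k
      induction k with
      | zero => intro x; rfl
      | succ k ih =>
        intro x
        rw [pow_succ', pow_succ', AlgEquiv.mul_apply, AlgEquiv.mul_apply, hτσ, ih]
    have h2 : ∀ x : K, (σ ^ (p - 1)) (algebraMap K Ω x) = algebraMap K Ω x := by
      intro x
      exact fix_of_restrict (by rw [map_pow, hexp]) x
    -- the elements fixed by `τ ^ (p - 1)`
    have h3 : ∀ y ∈ comp p ι, (τ ^ (p - 1)) y = y := by
      intro y hy
      rw [comp] at hy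
      induction hy using IntermediateField.adjoin_induction with
      | mem y hy =>
        obtain ⟨x, rfl⟩ := hy
        have h4 : ι x = J (algebraMap K Ω x) := by rw [← hJ]; rfl
        rw [h4, ← hpow, h2]
      | algebraMap y =>
        exact ((τ ^ (p - 1)).restrictScalars ℚ_[p]).commutes y
      | add y z _ _ hy hz => rw [map_add, hy, hz]
      | inv y _ hy => rw [map_inv₀, hy]
      | mul y z _ _ hy hz => rw [map_mul, hy, hz]
    have h4 : (σ ^ (p - 1)) α = α := by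
      apply J.injective
      rw [hpow, h3 _ h1]
    have h5 := hf σ
    rw [h4] at h5
    rw [MonoidHom.mem_ker]
    apply Subtype.ext
    apply Units.ext
    apply mul_right_cancel₀ hα0
    rw [← h5]
    simp

end BKThR
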