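import Pool.Agent.Lib.MP_7c08ba_nt.ThR.Stmts
import Pool.Agent.Lib.MP_7c08ba_nt.Gen.Local

/-!
Theorem R: assembly.
-/

set_option autoImplicit false

namespace BKThR

open BKGen BKGen.Genus NumberField

namespace RAux

variable {p : ℕ} [Fact p.Prime] {K : Type} [Field K]

theorem powAway_mul {a b : K} (ha : PowAway p a) (hb : PowAway p b) : PowAway p (a * b) := by
  intro l _ hlp J
  obtain ⟨x, hx⟩ := ha l hlp J
  obtain ⟨y, hy⟩ := hb l hlp J
  exact ⟨x * y, by rw [map_mul, norm_mul, hx, hy, map_mul, norm_mul, mul_pow]⟩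

theorem powAway_inv {a : K} (ha : PowAway p a) : PowAway p a⁻¹ := by
  intro l _ hlp J
  obtain ⟨x, hx⟩ := ha l hlp J
  exact ⟨x⁻¹, by rw [map_inv₀, norm_inv, hx, map_inv₀, norm_inv, inv_pow]⟩

theorem powAway_pow (a : K) : PowAway p (a ^ p) := by
  intro l _ hlp J
  exact ⟨a, by rw [map_pow, norm_pow]⟩

theorem powAway_map (δ : K →+* K) (hδ : Function.Surjective δ) {a : K} (ha : PowAway p a) :
    PowAway p (δ a) := by
  intro l _ hlp J
  obtain ⟨x, hx⟩ := ha l hlp (J.comp δ)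
  exact ⟨δ x, hx⟩

variable {ι : K →+* PadicAlgCl p}

theorem powAt_mul {a b : K} (ha : PowAt p ι a) (hb : PowAt p ι b) : PowAt p ι (a * b) := by
  obtain ⟨x, hx, hx'⟩ := ha
  obtain ⟨y, hy, hy'⟩ := hb
  exact ⟨x * y, mul_mem hx hy, by rw [mul_pow, hx', hy', map_mul]⟩

theorem powAt_inv {a : K} (ha : PowAt p ι a) : PowAt p ι a⁻¹ := by
  obtain ⟨x, hx, hx'⟩ := ha
  exact ⟨x⁻¹, inv_mem hx, by rw [inv_pow, hx', map_inv₀]⟩

theorem powAt_pow (a : K) : PowAt p ι (a ^ p) := ⟨ι a, mem_comp ι a, by rw [map_pow]⟩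

theorem powAt_pow_of {a : K} (ha : PowAt p ι a) (n : ℕ) : PowAt p ι (a ^ n) := by
  obtain ⟨x, hx, hx'⟩ := ha
  exact ⟨x ^ n, pow_mem hx n, by rw [← pow_mul, mul_comm, pow_mul, hx', map_pow]⟩

/-- the completion is stable under `τ` -/
theorem powAt_map (δ : K →+* K) (τ : PadicAlgCl p ≃ₐ[ℚ_[p]] PadicAlgCl p)
    (h : ∀ x, ι (δ x) = τ (ι x)) {a : K} (ha : PowAt p ι a) : PowAt p ι (δ a) := by
  obtain ⟨x, hx, hx'⟩ := ha
  refine ⟨τ x, ?_, by rw [← map_pow, hx', h]⟩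
  clear hx'
  rw [comp] at hx
  induction hx using IntermediateField.adjoin_induction with
  | mem y hy =>
    obtain ⟨z, rfl⟩ := hy
    rw [← h]
    exact mem_comp ι _
  | algebraMap y =>
    rw [τ.commutes]
    exact (comp p ι).algebraMap_mem y
  | add y z _ _ hy hz => rw [map_add]; exact add_mem hy hz
  | inv y _ hy => rw [map_inv₀]; exact inv_mem hy
  | mul y z _ _ hy hz => rw [map_mul]; exact mul_mem hy hz

end RAux

open RAux

theorem stR (hG : StGal) (hL : StLoc) (hE : StEig) (h0 : StZero) (h1 : StOne) (hV : StVal)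
    (hC : StConj) (hH : StH94) (hD : StDown) : StR := by
  intro p _ F K _ _ _ _ _ ζ j ι S hcl hgold
  have hp : p.Prime := Fact.out
  have hgood : Good p F j := ⟨S.hreal, S.hdeg, hD p F K ζ S.hζ S.htop hcl, hgold⟩
  obtain ⟨hgal, hexp, δ, hδ⟩ := hG p F K ζ S.hζ S.htop
  intro a ha haw hat
  by_contra hnot
  -- the subgroup of the candidates
  let D : Kˣ →* Kˣ := Units.map (δ : K →* K)
  have hDval : ∀ x : Kˣ, ((D x : Kˣ) : K) = δ x := fun x => rfl
  have hDiter : ∀ (k : ℕ) (x : Kˣ), (((⇑D)^[k] x : Kˣ) : K) = (δ ^ k) (x : K) := by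
    intro k
    induction k with
    | zero => intro x; rfl
    | succ k ih =>
      intro x
      rw [Function.iterate_succ_apply', hDval, ih, pow_succ', AlgEquiv.mul_apply]
  obtain ⟨t, ht⟩ := hL p F K ζ j ι S δ
  let H : Subgroup Kˣ :=
    { carrier := {x | PowAway p (x : K) ∧ PowAt p ι (x : K)}
      one_mem' := ⟨by simpa using powAway_pow (p := p) (1 : K), by
        simpa using powAt_pow (ι := ι) (1 : K)⟩
      mul_mem' := fun {x y} hx hy => ⟨by
        rw [Units.val_mul]; exact powAway_mul hx.1 hy.1, by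
        rw [Units.val_mul]; exact powAt_mul hx.2 hy.2⟩
      inv_mem' := fun {x} hx => ⟨by
        rw [Units.val_inv_eq_inv_val]; exact powAway_inv hx.1, by
        rw [Units.val_inv_eq_inv_val]; exact powAt_inv hx.2⟩ }
  have hmem : ∀ x : Kˣ, x ∈ H ↔ PowAway p (x : K) ∧ PowAt p ι (x : K) := fun x => Iff.rfl
  obtain ⟨b, hbH, hbnot, m, y, hby⟩ := hE Kˣ p hp D (by
      intro x
      apply Units.ext
      rw [hDiter, hexp, AlgEquiv.one_apply]) H (by
      intro x hx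
      rw [hmem] at hx ⊢
      rw [hDval]
      exact ⟨powAway_map (δ : K →+* K) δ.surjective hx.1, powAt_map (δ : K →+* K) t ht hx.2⟩) (by
      intro x
      rw [hmem, Units.val_pow_eq_pow_val]
      exact ⟨powAway_pow _, powAt_pow _⟩) (Units.mk0 a ha) ⟨haw, hat⟩ (by
      rintro ⟨y, hy⟩
      exact hnot ⟨y, by rw [← Units.val_pow_eq_pow_val, hy, Units.val_mk0]⟩)
  rw [hmem] at hbH
  obtain ⟨hbw, hbt⟩ := hbH
  have hb0 : (b : K) ≠ 0 := b.ne_zero
  have hy0 : (y : K) ≠ 0 := y.ne_zero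
  have hb1 : δ (b : K) = (b : K) ^ m * (y : K) ^ p := by
    rw [← hDval, hby, Units.val_mul, Units.val_pow_eq_pow_val, Units.val_pow_eq_pow_val]
  have hb2 : ¬ ∃ z : K, z ^ p = (b : K) := by
    rintro ⟨z, hz⟩
    have hz0 : z ≠ 0 := by
      rintro rfl
      rw [zero_pow hp.ne_zero] at hz
      exact hb0 hz.symm
    exact hbnot ⟨Units.mk0 z hz0, Units.ext (by
      rw [Units.val_pow_eq_pow_val, Units.val_mk0, hz])⟩
  -- the action on `ζ`
  have : NeZero p := ⟨hp.ne_zero⟩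
  obtain ⟨g, -, hg⟩ := S.hζ.eq_pow_of_pow_eq_one (ξ := δ ζ) (by
    rw [← map_pow, S.hζ.pow_eq_one, map_one])
  have hgk : ∀ k : ℕ, (δ ^ k) ζ = ζ ^ (g ^ k) := by
    intro k
    induction k with
    | zero => rw [pow_zero, pow_zero, pow_one]; rfl
    | succ k ih => rw [pow_succ, AlgEquiv.mul_apply, ← hg, map_pow, ih, ← pow_mul, ← pow_succ]
  have hbk : ∀ k : ℕ, ∃ z : K, z ≠ 0 ∧ (δ ^ k) (b : K) = (b : K) ^ (m ^ k) * z ^ p := by
    intro k
    induction k with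
    | zero => exact ⟨1, one_ne_zero, by simp⟩
    | succ k ih =>
      obtain ⟨z, hz, h⟩ := ih
      refine ⟨z ^ m * (δ ^ k) (y : K), mul_ne_zero (pow_ne_zero _ hz) ?_, ?_⟩
      · rw [Ne, map_eq_zero]; exact hy0
      · rw [pow_succ, AlgEquiv.mul_apply, hb1, map_mul, map_pow, map_pow, h, mul_pow, ← pow_mul,
          ← pow_succ, mul_pow]
        ring
  -- congruent exponents
  have hcong : ∀ u v : ℕ, (p : ℤ) ∣ (u : ℤ) - v → ∃ z : K, z ≠ 0 ∧
      (b : K) ^ u = (b : K) ^ v * z ^ p := by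
    rintro u v ⟨k, hk⟩
    refine ⟨(b : K) ^ k, zpow_ne_zero _ hb0, ?_⟩
    rw [← zpow_natCast, ← zpow_natCast, ← zpow_natCast ((b : K) ^ k), ← zpow_mul,
      ← zpow_add₀ hb0]
    congr 1
    linarith
  by_cases hm1 : (p : ℤ) ∣ (m : ℤ) - 1
  · -- component `0`
    apply hb2
    refine h0 p F K ζ j ι S hgood (b : K) hb0 hbw hbt ?_
    intro τ
    obtain ⟨k, rfl⟩ := hδ τ
    obtain ⟨z, hz, h⟩ := hbk k
    obtain ⟨w, hw, h'⟩ := hcong (m ^ k) 1 (by
      push_cast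
      have := (sub_dvd_pow_sub_pow (m : ℤ) 1 k)
      rw [one_pow] at this
      exact hm1.trans this)
    exact ⟨w * z, mul_ne_zero hw hz, by rw [h, h', pow_one, mul_pow]; ring⟩
  by_cases hmg : (p : ℤ) ∣ (m : ℤ) - g
  · -- component `1`
    apply hb2
    refine h1 p F K ζ j ι S hgood (b : K) hb0 hbw hbt ?_
    intro τ
    obtain ⟨k, rfl⟩ := hδ τ
    obtain ⟨z, hz, h⟩ := hbk k
    obtain ⟨w, hw, h'⟩ := hcong (m ^ k) (g ^ k) (by
      push_cast
      exact hmg.trans (sub_dvd_pow_sub_pow (m : ℤ) g k))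
    exact ⟨g ^ k, w * z, mul_ne_zero hw hz, hgk k, by rw [h, h', mul_pow]; ring⟩
  -- the other components
  obtain ⟨ε, c, hc, hεc⟩ := hV p F K ζ j ι S (b : K) hb0 hbw δ m y hy0 hb1 hm1
  have hε0 : ((ε : 𝓞 K) : K) ≠ 0 := by
    rw [Ne, RingOfIntegers.coe_eq_zero_iff]
    exact ε.ne_zero
  have hε : ((ε : 𝓞 K) : K) = (b : K) ^ classNumber K * (c⁻¹) ^ p := by
    rw [hεc, mul_assoc, ← mul_pow, mul_inv_cancel₀ hc, one_pow, mul_one]
  apply hcl
  refine hH p K ζ S.hp2 ?_ S.hζ ε ?_ ?_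
  · have := S.hreal
    exact isTotallyComplex_of_algebra F K
  · rintro ⟨z, hz⟩
    -- `b ^ h` is a `p`-th power
    have h2 : (z * c) ^ p = (b : K) ^ classNumber K := by
      rw [mul_pow, hz, hεc]
    obtain ⟨u, v, huv⟩ := (Nat.isCoprime_iff_coprime (m := classNumber K) (n := p)).mpr
      (((Nat.Prime.coprime_iff_not_dvd hp).mpr hcl).symm)
    apply hb2
    refine ⟨(z * c) ^ u * (b : K) ^ v, ?_⟩
    calc ((z * c) ^ u * (b : K) ^ v) ^ p = ((z * c) ^ p) ^ u * (b : K) ^ (v * (p : ℤ)) := by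
          rw [mul_pow, ← zpow_natCast, ← zpow_natCast, ← zpow_natCast, ← zpow_mul, ← zpow_mul,
            ← zpow_mul, mul_comm u]
      _ = (b : K) ^ (u * (classNumber K : ℤ) + v * (p : ℤ)) := by
          rw [h2, ← zpow_natCast, ← zpow_mul, zpow_add₀ hb0, mul_comm u]
      _ = b := by rw [huv, zpow_one]
  · refine hC p F K ζ j ι S ε ?_ δ m g (y ^ classNumber K * (c ^ m) * (δ c)⁻¹) ?_ ?_ ?_ ?_
    · rw [hε]
      exact powAt_mul (powAt_pow_of hbt _) (powAt_pow _)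
    · refine mul_ne_zero (mul_ne_zero (pow_ne_zero _ hy0) (pow_ne_zero _ hc)) (inv_ne_zero ?_)
      rw [Ne, map_eq_zero]; exact hc
    · exact hg.symm
    · rw [hε, map_mul, map_pow, map_pow, map_inv₀, hb1]
      have h3 : ((b : K) ^ classNumber K * c⁻¹ ^ p) ^ m *
          (↑y ^ classNumber K * c ^ m * (δ c)⁻¹) ^ p =
          (((b : K) ^ m) * (y : K) ^ p) ^ classNumber K * (δ c)⁻¹ ^ p *
          ((c⁻¹ * c) ^ (p * m)) := by
        rw [mul_pow, mul_pow, mul_pow, mul_pow, mul_pow, ← pow_mul, ← pow_mul, ← pow_mul, ← pow_mul,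
          ← pow_mul, ← pow_mul, mul_comm m (classNumber K), mul_comm p (classNumber K),
          mul_comm m p]
        ring
      rw [h3, inv_mul_cancel₀ hc, one_pow, mul_one]
    · exact hmg

end BKThR
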