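import Pool.Agent.Lib.MP_7c08ba_nt.ThR.Stmts

/-!
Kummer extensions generated by units which are locally `p`-th powers above `p` are unramified.
-/

set_option autoImplicit false

open Polynomial

namespace BKThR

open BKGen BKGen.Genus NumberField

namespace Unr

/-- the extension generated by a `p`-th root is a splitting field -/
theorem isSplittingField {p : ℕ} [hp : Fact p.Prime] {K M : Type} [Field K] [Field M] [Algebra K M]
    {ζ : K} (hζ : IsPrimitiveRoot ζ p) {a : K} {α : M} (hα : α ^ p = algebraMap K M a)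
    (hadj : IntermediateField.adjoin K {α} = ⊤) : IsSplittingField K M (X ^ p - C a) := by
  have hp0 : 0 < p := hp.out.pos
  constructor
  · rw [Polynomial.map_sub, Polynomial.map_pow, Polynomial.map_C, Polynomial.map_X]
    exact X_pow_sub_C_splits_of_isPrimitiveRoot
      (hζ.map_of_injective (algebraMap K M).injective) hα
  · have halg : IsAlgebraic K α := by
      refine ⟨X ^ p - C a, X_pow_sub_C_ne_zero hp0 a, ?_⟩
      rw [map_sub, map_pow, aeval_X, aeval_C, hα, sub_self]
    rw [eq_top_iff, ← IntermediateField.top_toSubalgebra, ← hadj,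
      IntermediateField.adjoin_simple_toSubalgebra_of_isAlgebraic halg]
    apply Algebra.adjoin_mono
    rw [Set.singleton_subset_iff, mem_rootSet_of_ne (X_pow_sub_C_ne_zero hp0 a),
      aeval_def, eval₂_sub, eval₂_X_pow, eval₂_C, sub_eq_zero]
    exact hα

/-- If `η ^ p = 1`, `η ≠ 1` and `η - 1` lies in an ideal, then `p` lies in it. -/
theorem prime_mem {R : Type} [CommRing R] [IsDomain R] {p : ℕ} {η : R} (hη : η ^ p = 1)
    (hη1 : η ≠ 1) {q : Ideal R} (h : η - 1 ∈ q) : (p : R) ∈ q := by
  have h1 : ∑ k ∈ Finset.range p, η ^ k = 0 := by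
    have h2 := geom_sum_mul η p
    rw [hη, sub_self, mul_eq_zero, sub_eq_zero] at h2
    exact h2.resolve_right hη1
  have h2 : ∑ k ∈ Finset.range p, (η ^ k - 1) ∈ q := by
    refine Ideal.sum_mem _ fun k _ => ?_
    have h3 : η - 1 ∣ η ^ k - 1 := by
      have := sub_dvd_pow_sub_pow η 1 k
      rwa [one_pow] at this
    exact Ideal.mem_of_dvd _ h3 h
  rw [Finset.sum_sub_distrib, h1, Finset.sum_const, Finset.card_range, nsmul_eq_mul, mul_one,
    zero_sub, neg_mem_iff] at h2
  exact h2

/-- All values of the place `j` lie in the completion of `K`. -/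
theorem mem_comp {p : ℕ} [hp : Fact p.Prime] {K M : Type} [Field K] [Field M] [Algebra K M]
    {ζ : K} (hζ : IsPrimitiveRoot ζ p) {a : K} (ha : a ≠ 0) {α : M}
    (hα : α ^ p = algebraMap K M a) (hadj : IntermediateField.adjoin K {α} = ⊤)
    (j : M →+* PadicAlgCl p) (h : PowAt p (j.comp (algebraMap K M)) a) (x : M) :
    j x ∈ comp p (j.comp (algebraMap K M)) := by
  obtain ⟨β, hβ, hβa⟩ := h
  have hK : ∀ y : K, j (algebraMap K M y) ∈ comp p (j.comp (algebraMap K M)) := fun y =>
    IntermediateField.subset_adjoin ℚ_[p] _ ⟨y, rfl⟩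
  have hja : j (algebraMap K M a) ≠ 0 := by
    rw [Ne, map_eq_zero, map_eq_zero]
    exact ha
  have hβ0 : β ≠ 0 := by
    rintro rfl
    rw [zero_pow hp.out.ne_zero, RingHom.comp_apply] at hβa
    exact hja hβa.symm
  have h1 : (j α / β) ^ p = 1 := by
    rw [div_pow, ← map_pow, hα, hβa, RingHom.comp_apply, div_self hja]
  have h2 : IsPrimitiveRoot (j (algebraMap K M ζ)) p :=
    (hζ.map_of_injective (algebraMap K M).injective).map_of_injective j.injective
  have : NeZero p := ⟨hp.out.ne_zero⟩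
  obtain ⟨i, -, hi⟩ := h2.eq_pow_of_pow_eq_one h1
  have h3 : j α ∈ comp p (j.comp (algebraMap K M)) := by
    have h4 : j α = (j (algebraMap K M ζ)) ^ i * β := by
      rw [hi, div_mul_cancel₀ _ hβ0]
    rw [h4]
    exact mul_mem (pow_mem (hK ζ) i) hβ
  let E : IntermediateField K M :=
    ((comp p (j.comp (algebraMap K M))).toSubfield.comap j).toIntermediateField fun y => hK y
  have h5 : IntermediateField.adjoin K {α} ≤ E := by
    rw [IntermediateField.adjoin_le_iff, Set.singleton_subset_iff]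
    exact h3
  rw [hadj] at h5
  exact h5 (IntermediateField.mem_top (x := x))

theorem exists_place_nf {p : ℕ} [Fact p.Prime] {M : Type} [Field M] [NumberField M]
    (q : Ideal (𝓞 M)) [q.IsPrime] (hpq : (p : 𝓞 M) ∈ q) :
    ∃ j : M →+* PadicAlgCl p, primeOf j = q := by
  have halg : Algebra.IsAlgebraic ℚ (AlgebraicClosure M) :=
    Algebra.IsAlgebraic.trans ℚ M (AlgebraicClosure M)
  obtain ⟨J, hJ⟩ := exists_place_of_prime (Ω := AlgebraicClosure M) q hpq
  exact ⟨_, hJ⟩

end Unr

open Unr in
theorem stUnr : StUnr := by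
  intro p hpF K M _ _ _ _ _ ζ hζ ε hne hloc α hα hadj
  have hp : p.Prime := hpF.out
  have hirr : Irreducible (X ^ p - C ((ε : 𝓞 K) : K)) :=
    X_pow_sub_C_irreducible_of_prime hp fun b hb => hne ⟨b, hb⟩
  have hsp := isSplittingField hζ hα hadj
  have hprim : (primitiveRoots p K).Nonempty := ⟨ζ, (mem_primitiveRoots hp.pos).2 hζ⟩
  have hgal : IsGalois K M := isGalois_of_isSplittingField_X_pow_sub_C hprim hirr M
  have hfin : FiniteDimensional K M :=
    Polynomial.IsSplittingField.finiteDimensional M (X ^ p - C ((ε : 𝓞 K) : K))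
  have hcard : Nat.card (M ≃ₐ[K] M) = p := by
    rw [IsGalois.card_aut_eq_finrank]
    exact finrank_of_isSplittingField_X_pow_sub_C hprim hirr M
  have hε0 : ((ε : 𝓞 K) : K) ≠ 0 := by
    intro h
    exact ε.ne_zero (RingOfIntegers.ext h)
  refine ⟨hgal, hcard, fun q hq hq0 => ?_⟩
  by_cases hpq : (p : 𝓞 M) ∈ q
  · -- above `p`
    obtain ⟨j, hj⟩ := exists_place_nf q hpq
    rw [← hj]
    apply ramificationIdx_of_norm
    intro x
    obtain ⟨b, hb⟩ := norm_comp _ (mem_comp hζ hε0 hα hadj j (hloc _) x)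
    exact ⟨b, hb⟩
  · -- away from `p`
    have hαint : IsIntegral ℤ α := by
      refine IsIntegral.of_pow hp.pos ?_
      rw [hα]
      exact (ε : 𝓞 K).2.algebraMap
    let αo : 𝓞 M := ⟨α, hαint⟩
    let εM : (𝓞 M)ˣ := Units.map (algebraMap (𝓞 K) (𝓞 M)).toMonoidHom ε
    have hαo : αo ^ p = (εM : 𝓞 M) := by
      apply RingOfIntegers.ext
      exact (map_pow (algebraMap (𝓞 M) M) αo p).trans hα
    have hunit : IsUnit αo := by
      have h1 : IsUnit (αo ^ p) := by rw [hαo]; exact εM.isUnit
      exact (isUnit_pow_iff hp.ne_zero).1 h1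
    obtain ⟨w, hw⟩ := hunit
    have hnt : Nontrivial (M ≃ₐ[K] M) := by
      apply Finite.one_lt_card_iff_nontrivial.1
      rw [hcard]
      exact hp.one_lt
    obtain ⟨σ, hσ⟩ := exists_ne (1 : M ≃ₐ[K] M)
    refine ramificationIdx_eq_one hp hcard (σ := σ) hq hq0 ⟨αo, fun hmem => hpq ?_⟩
    have hσα : σ α ≠ α := by
      intro h
      apply hσ
      let E : IntermediateField K M := IntermediateField.fixedField (Subgroup.zpowers σ)
      have h5 : IntermediateField.adjoin K {α} ≤ E := by
        rw [IntermediateField.adjoin_le_iff, Set.singleton_subset_iff]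
        change α ∈ IntermediateField.fixedField (Subgroup.zpowers σ)
        rw [IntermediateField.mem_fixedField_iff]
        intro f hf
        have h6 : Subgroup.zpowers σ ≤ MulAction.stabilizer (M ≃ₐ[K] M) α := by
          rw [Subgroup.zpowers_le]
          exact h
        exact h6 hf
      rw [hadj] at h5
      ext x
      have h6 := h5 (IntermediateField.mem_top (x := x))
      change x ∈ IntermediateField.fixedField (Subgroup.zpowers σ) at h6
      rw [IntermediateField.mem_fixedField_iff] at h6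
      exact h6 σ (Subgroup.mem_zpowers σ)
    have hη : (σ • αo * ((w⁻¹ : (𝓞 M)ˣ) : 𝓞 M)) ^ p = 1 := by
      rw [mul_pow]
      have h1 : (σ • αo) ^ p = αo ^ p := by
        rw [← smul_pow', hαo]
        apply RingOfIntegers.ext
        change σ (algebraMap K M ((ε : 𝓞 K) : K)) = algebraMap K M ((ε : 𝓞 K) : K)
        exact σ.commutes _
      rw [h1, ← mul_pow, ← hw, Units.mul_inv, one_pow]
    have hη1 : σ • αo * ((w⁻¹ : (𝓞 M)ˣ) : 𝓞 M) ≠ 1 := by
      intro h
      have h1 : σ • αo = αo := by
        have h2 := congrArg (· * (w : 𝓞 M)) h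
        simp only [mul_assoc, Units.inv_mul, mul_one, one_mul] at h2
        rw [h2, hw]
      exact hσα (congrArg (fun z : 𝓞 M => (z : M)) h1)
    refine prime_mem hη hη1 ?_
    have h3 : σ • αo * ((w⁻¹ : (𝓞 M)ˣ) : 𝓞 M) - 1 = (σ • αo - αo) * ((w⁻¹ : (𝓞 M)ˣ) : 𝓞 M) := by
      rw [sub_mul]
      congr 1
      rw [← hw, Units.mul_inv]
    rw [h3]
    exact q.mul_mem_right _ hmem

end BKThR
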