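import Pool.Agent.Lib.MP_7c08ba_nt.ThR.Ab
import Pool.Agent.Lib.MP_7c08ba_nt.ThR.Amb
import Pool.Agent.Lib.MP_7c08ba_nt.ThR.Card
import Pool.Agent.Lib.MP_7c08ba_nt.ThR.Conj
import Pool.Agent.Lib.MP_7c08ba_nt.ThR.Cube
import Pool.Agent.Lib.MP_7c08ba_nt.ThR.Desc
import Pool.Agent.Lib.MP_7c08ba_nt.ThR.Down
import Pool.Agent.Lib.MP_7c08ba_nt.ThR.Eig
import Pool.Agent.Lib.MP_7c08ba_nt.ThR.Emb
import Pool.Agent.Lib.MP_7c08ba_nt.ThR.Gal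
import Pool.Agent.Lib.MP_7c08ba_nt.ThR.H94
import Pool.Agent.Lib.MP_7c08ba_nt.ThR.Herb
import Pool.Agent.Lib.MP_7c08ba_nt.ThR.Link
import Pool.Agent.Lib.MP_7c08ba_nt.ThR.Loc
import Pool.Agent.Lib.MP_7c08ba_nt.ThR.Not
import Pool.Agent.Lib.MP_7c08ba_nt.ThR.One
import Pool.Agent.Lib.MP_7c08ba_nt.ThR.R
import Pool.Agent.Lib.MP_7c08ba_nt.ThR.Unr
import Pool.Agent.Lib.MP_7c08ba_nt.ThR.Val
import Pool.Agent.Lib.MP_7c08ba_nt.ThR.Zero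

/-!
Theorem R.
-/

set_option autoImplicit false

namespace BKThR

open BKGen BKGen.Genus NumberField

theorem hEmb : StEmb := stEmb stGal stAb stLoc

theorem hH94 : StH94 := stH94 stUnr stCard stHerb stAmb

/-- **Theorem R.** -/
theorem thmR : StR :=
  stR stGal stLoc stEig (stZero stGal stCube stDesc) (stOne stGal) (stVal stAb stLoc hEmb)
    (stConj stAb stNot hEmb) hH94 stDown

/-- Theorem R as the hypothesis `BKOdd.OddHyp` of the theorems on Selmer groups at odd `p`. -/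
theorem oddHypR {p : ℕ} [Fact p.Prime] (hp2 : p ≠ 2) {F K : Type} [Field F]
    [NumberField F] [Field K] [NumberField K] [Algebra F K] (hreal : IsTotallyComplex F)
    (hdeg : Module.finrank ℚ F = 2) {ζ₀ : K} (hζ₀ : IsPrimitiveRoot ζ₀ p)
    (htop : IntermediateField.adjoin F {ζ₀} = ⊤) (hcl : ¬ p ∣ classNumber K)
    {ζ : AlgebraicClosure F} (hζ : IsPrimitiveRoot ζ p) (ι : AlgebraicClosure F →+* PadicAlgCl p)
    (j : F →+* ℚ_[p])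
    (hι : ∀ x : F, ι (algebraMap F _ x) = algebraMap ℚ_[p] (PadicAlgCl p) (j x))
    (hgold : ∃ (h : ℕ) (β : 𝓞 F), h ≠ 0 ∧ Algebra.norm ℤ β = (p : ℤ) ^ h ∧ ‖j β‖ = 1 ∧
      (p : ℝ) ^ (-2 : ℤ) < ‖(j β) ^ (p - 1) - 1‖) :
    BKOdd.OddHyp p F ζ ι :=
  oddHyp thmR hp2 hreal hdeg hζ₀ htop hcl hζ ι j hι hgold

end BKThR
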