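import Pool.Agent.Lib.MP_7c08ba_nt.ThR.Stmts

/-!
`K = F(ζ)`, `F` quadratic over `ℚ`: `K/ℚ` is abelian.
-/

set_option autoImplicit false

namespace BKThR

open BKGen BKGen.Genus NumberField IntermediateField

/-- If `F/k` is normal and `K = F(ζ)` with a root of unity `ζ` then `K/k` is normal. -/
lemma normal_adjoin_root (k F K : Type) [Field k] [Field F] [Field K] [Algebra k F] [Algebra F K]
    [Algebra k K] [IsScalarTower k F K] [Algebra.IsIntegral k K] [Normal k F] {p : ℕ} [NeZero p]
    {ζ : K} (hζ : IsPrimitiveRoot ζ p) (htop : IntermediateField.adjoin F {ζ} = ⊤) :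
    Normal k K := by
  let E1 : IntermediateField k K := (IsScalarTower.toAlgHom k F K).fieldRange
  let E2 : IntermediateField k K := IntermediateField.adjoin k {ζ}
  have n1 : Normal k E1 :=
    Normal.of_algEquiv (AlgEquiv.ofInjectiveField (IsScalarTower.toAlgHom k F K))
  have n2' : IsCyclotomicExtension {p} k E2 :=
    hζ.intermediateField_adjoin_isCyclotomicExtension k
  have n2 : Normal k E2 := (IsCyclotomicExtension.isGalois {p} k E2).to_normal
  have hsup : E1 ⊔ E2 = ⊤ := by
    rw [eq_top_iff]
    intro x _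
    have hx : x ∈ IntermediateField.adjoin F {ζ} := by rw [htop]; trivial
    induction hx using IntermediateField.adjoin_induction with
    | mem y hy =>
      rw [Set.mem_singleton_iff] at hy
      subst hy
      exact (le_sup_right : E2 ≤ E1 ⊔ E2) (IntermediateField.mem_adjoin_simple_self k y)
    | algebraMap y => exact (le_sup_left : E1 ≤ E1 ⊔ E2) ⟨y, rfl⟩
    | add y z _ _ hy hz => exact add_mem (hy trivial) (hz trivial)
    | inv y _ hy => exact inv_mem (hy trivial)
    | mul y z _ _ hy hz => exact mul_mem (hy trivial) (hz trivial)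
  have h1 : Normal k (E1 ⊔ E2 : IntermediateField k K) := IntermediateField.normal_sup k K E1 E2
  rw [hsup] at h1
  exact Normal.of_algEquiv (IntermediateField.topEquiv (F := k) (E := K))

theorem stAb : StAb := by
  intro p _ F K _ _ _ _ _ ζ hζ htop hdeg
  have hp0 : NeZero p := ⟨(Fact.out : p.Prime).ne_zero⟩
  have hquad : Algebra.IsQuadraticExtension ℚ F :=
    { finrank_eq_two' := hdeg }
  have hnF : Normal ℚ F := inferInstance
  have hnK : Normal ℚ K := normal_adjoin_root ℚ F K hζ htop
  refine ⟨⟨⟩, ?_⟩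
  intro f g
  have hcomm : ∀ a b : F ≃ₐ[ℚ] F, a * b = b * a := by
    have h1 : IsMulCommutative (F ≃ₐ[ℚ] F) := inferInstance
    exact fun a b => h1.is_comm.comm a b
  have hpow : ∀ h : K ≃ₐ[ℚ] K, ∃ m : ℕ, h ζ = ζ ^ m := by
    intro h
    have h1 : (h ζ) ^ p = 1 := by rw [← map_pow, hζ.pow_eq_one, map_one]
    obtain ⟨m, _, hm⟩ := hζ.eq_pow_of_pow_eq_one h1
    exact ⟨m, hm.symm⟩
  ext x
  change f (g x) = g (f x)
  have hx : x ∈ IntermediateField.adjoin F {ζ} := by rw [htop]; trivial
  induction hx using IntermediateField.adjoin_induction with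
  | mem y hy =>
    rw [Set.mem_singleton_iff] at hy
    subst hy
    obtain ⟨m, hm⟩ := hpow f
    obtain ⟨n, hn⟩ := hpow g
    rw [hn, hm, map_pow, map_pow, hm, hn, ← pow_mul, ← pow_mul, mul_comm]
  | algebraMap y =>
    have h1 := fun z => AlgEquiv.restrictNormal_commutes f F z
    have h2 := fun z => AlgEquiv.restrictNormal_commutes g F z
    rw [← h2 y, ← h1, ← h1 y, ← h2]
    have h3 := DFunLike.congr_fun (hcomm (f.restrictNormal F) (g.restrictNormal F)) y
    exact congrArg (algebraMap F K) h3
  | add y z _ _ hy hz => rw [map_add, map_add, map_add, map_add, hy, hz]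
  | inv y _ hy => rw [map_inv₀, map_inv₀, map_inv₀, map_inv₀, hy]
  | mul y z _ _ hy hz => rw [map_mul, map_mul, map_mul, map_mul, hy, hz]

end BKThR
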