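import Pool.Agent.Lib.MP_7c08ba_nt.ThR.Stmts

/-!
Theorem R, module Gal: the Galois group of `F(ζ)/F`.
-/

set_option autoImplicit false

namespace BKThR

open NumberField

/-- `F(ζ)` is a cyclotomic extension of `F`. -/
theorem isCyclotomic_of_top {p : ℕ} [NeZero p] {F K : Type} [Field F] [Field K] [Algebra F K]
    {ζ : K} (hζ : IsPrimitiveRoot ζ p) (htop : IntermediateField.adjoin F {ζ} = ⊤) :
    IsCyclotomicExtension {p} F K := by
  rw [IsCyclotomicExtension.iff_singleton]
  refine ⟨⟨ζ, hζ⟩, fun x => ?_⟩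
  have hint : IsIntegral F ζ := (hζ.isIntegral (NeZero.pos p)).tower_top
  have h1 : Algebra.adjoin F {ζ} = ⊤ := by
    rw [← IntermediateField.adjoin_simple_toSubalgebra_of_isAlgebraic hint.isAlgebraic, htop]
    rfl
  have h2 : Algebra.adjoin F {ζ} ≤ Algebra.adjoin F {b : K | b ^ p = 1} := by
    apply Algebra.adjoin_mono
    intro y hy
    rw [Set.mem_singleton_iff] at hy
    rw [hy, Set.mem_ofPred_eq]
    exact hζ.pow_eq_one
  apply h2
  rw [h1]
  exact Algebra.mem_top

theorem stGal : StGal := by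
  intro p hp F K _ _ _ _ _ ζ hζ htop
  have : NeZero p := ⟨hp.out.ne_zero⟩
  have := isCyclotomic_of_top hζ htop
  have hinj : Function.Injective (hζ.autToPow F) := hζ.autToPow_injective F
  refine ⟨IsCyclotomicExtension.isGalois {p} F K, fun τ => ?_, ?_⟩
  · apply hinj
    rw [map_pow, map_one]
    exact ZMod.units_pow_card_sub_one_eq_one p _
  · have : IsCyclic (K ≃ₐ[F] K) := isCyclic_of_injective (hζ.autToPow F) hinj
    have : Finite (K ≃ₐ[F] K) := Finite.of_injective _ hinj
    obtain ⟨δ, hδ⟩ := IsCyclic.exists_generator (α := K ≃ₐ[F] K)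
    refine ⟨δ, fun τ => ?_⟩
    obtain ⟨k, hk⟩ := Subgroup.mem_zpowers_iff.1 (hδ τ)
    have h3 : τ ∈ Submonoid.powers δ := by
      rw [mem_powers_iff_mem_zpowers]
      exact hδ τ
    obtain ⟨m, hm⟩ := h3
    exact ⟨m, hm⟩

end BKThR
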