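import Pool.Agent.Lib.MP_7c08ba_nt.ThR.Stmts
import Pool.Agent.Lib.MP_7c08ba_nt.Cyc.ClassTwentyOne
import Pool.Agent.Lib.MP_7c08ba_nt.Cyc.HypAux

/-!
An example of Theorem R: `p = 7`, `F = ℚ(√-3)`, `K = ℚ(ζ_21)`.
-/

set_option autoImplicit false

namespace BKThR

open BKGen NumberField

section Seven

/-- An embedding with values in `ℚ_p`. -/
theorem exists_descend {p : ℕ} [Fact p.Prime] {F : Type*} [Field F] (i : F →+* PadicAlgCl p)
    (h : ∀ x, i x ∈ (⊥ : IntermediateField ℚ_[p] (PadicAlgCl p))) :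
    ∃ j : F →+* ℚ_[p], ∀ x, i x = algebraMap ℚ_[p] (PadicAlgCl p) (j x) := by
  have h' : ∀ x, ∃ y : ℚ_[p], algebraMap ℚ_[p] (PadicAlgCl p) y = i x := by
    intro x
    exact IntermediateField.mem_bot.1 (h x)
  choose f hf using h'
  have hinj := (algebraMap ℚ_[p] (PadicAlgCl p)).injective
  refine ⟨{ toFun := f
            map_one' := hinj (by rw [hf, map_one, map_one])
            map_mul' := fun x y => hinj (by rw [hf, map_mul, map_mul, hf, hf])
            map_zero' := hinj (by rw [hf, map_zero, map_zero])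
            map_add' := fun x y => hinj (by rw [hf, map_add, map_add, hf, hf]) }, ?_⟩
  intro x
  exact (hf x).symm

theorem norm_int_seven [Fact (Nat.Prime 7)] (k : ℤ) (h : ¬ (7 : ℤ) ∣ k) :
    ‖(k : ℚ_[7])‖ = 1 := by
  apply le_antisymm (Padic.norm_int_le_one k)
  by_contra hcon
  rw [not_le] at hcon
  exact h (by simpa using Padic.norm_intCast_lt_one_iff.1 hcon)

/-- The arithmetic in `ℚ_7`. -/
theorem gold_seven [Fact (Nat.Prime 7)] (u : ℚ_[7]) (h1 : u ^ 2 + u + 1 = 0) (h2 : ‖u - 2‖ < 1) :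
    ‖3 + u‖ = 1 ∧ ((7 : ℕ) : ℝ) ^ (-2 : ℤ) < ‖(3 + u) ^ (7 - 1) - 1‖ := by
  have h5 : ‖((5 : ℤ) : ℚ_[7])‖ = 1 := norm_int_seven _ (by norm_num)
  have h29 : ‖((-29 : ℤ) : ℚ_[7])‖ = 1 := norm_int_seven _ (by norm_num)
  have h36 : ‖((36 : ℤ) : ℚ_[7])‖ = 1 := norm_int_seven _ (by norm_num)
  have h13 : ‖((13 : ℤ) : ℚ_[7])‖ = 1 := norm_int_seven _ (by norm_num)
  have h10 : ‖((10 : ℤ) : ℚ_[7])‖ = 1 := norm_int_seven _ (by norm_num)
  have h7 : ‖((7 : ℕ) : ℚ_[7])‖ = ((7 : ℕ) : ℝ)⁻¹ := Padic.norm_p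
  constructor
  · have e : 3 + u = ((5 : ℤ) : ℚ_[7]) + (u - 2) := by push_cast; ring
    rw [e, IsUltrametricDist.norm_add_eq_max_of_norm_ne_norm (by rw [h5]; exact h2.ne'), h5]
    exact max_eq_left h2.le
  · have e1 : (3 + u) ^ (7 - 1) - 1 = ((36 : ℤ) : ℚ_[7]) * (1 + 10 * u) := by
      push_cast
      have e2 : (3 + u) ^ 2 = 8 + 5 * u := by linear_combination h1
      have e3 : (3 + u) ^ 3 = 19 + 18 * u := by
        calc (3 + u) ^ 3 = (3 + u) ^ 2 * (3 + u) := by ring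
          _ = (8 + 5 * u) * (3 + u) := by rw [e2]
          _ = 19 + 18 * u := by linear_combination 5 * h1
      calc (3 + u) ^ (7 - 1) - 1 = ((3 + u) ^ 3) ^ 2 - 1 := by ring
        _ = (19 + 18 * u) ^ 2 - 1 := by rw [e3]
        _ = 36 * (1 + 10 * u) := by linear_combination 324 * h1
    have e2 : (1 + 10 * u) * (((-29 : ℤ) : ℚ_[7]) + ((10 : ℤ) : ℚ_[7]) * (-(u - 2)))
        = ((13 : ℤ) : ℚ_[7]) * ((7 : ℕ) : ℚ_[7]) := by
      push_cast
      linear_combination (-100) * h1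
    have e3 : ‖((-29 : ℤ) : ℚ_[7]) + ((10 : ℤ) : ℚ_[7]) * (-(u - 2))‖ = 1 := by
      have e4 : ‖((10 : ℤ) : ℚ_[7]) * (-(u - 2))‖ < 1 := by
        rw [norm_mul, h10, one_mul, norm_neg]
        exact h2
      rw [IsUltrametricDist.norm_add_eq_max_of_norm_ne_norm (by rw [h29]; exact e4.ne'), h29]
      exact max_eq_left e4.le
    have e4 := congrArg norm e2
    rw [norm_mul, norm_mul, e3, mul_one, h13, one_mul, h7] at e4
    rw [e1, norm_mul, h36, one_mul, e4]
    norm_num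

theorem eqn_three {F : Type} [Field F] {w : F} (hw : IsPrimitiveRoot w 3) : w ^ 2 + w + 1 = 0 := by
  have h1 : (w - 1) * (w ^ 2 + w + 1) = 0 := by
    have := hw.pow_eq_one
    linear_combination this
  rcases mul_eq_zero.1 h1 with h2 | h2
  · exact absurd (sub_eq_zero.1 h2) (hw.ne_one (by norm_num))
  · exact h2

variable {F : Type} [Field F] [NumberField F] [IsCyclotomicExtension {3} ℚ F]

/-- The norm of `3 + w`. -/
theorem norm_three_add {w : F} (hw : IsPrimitiveRoot w 3) (b : 𝓞 F) (hb : (b : F) = 3 + w) :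
    Algebra.norm ℤ b = ((7 : ℕ) : ℤ) ^ 1 := by
  have hdeg : Module.finrank ℚ F = 2 := by
    rw [IsCyclotomicExtension.Rat.finrank 3 F]
    decide
  have hgal : IsGalois ℚ F := IsCyclotomicExtension.isGalois {3} ℚ F
  have hcard : Nat.card Gal(F/ℚ) = 2 := by rw [IsGalois.card_aut_eq_finrank, hdeg]
  obtain ⟨c, hc⟩ : ∃ c : Gal(F/ℚ), c ≠ 1 := by
    have : Nontrivial Gal(F/ℚ) := by
      rw [← Finite.one_lt_card_iff_nontrivial, hcard]; norm_num
    exact exists_ne 1
  have hw1 := eqn_three hw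
  have hcw : c w ^ 2 + c w + 1 = 0 := by
    have := congrArg c hw1
    rw [map_add, map_add, map_pow, map_one, map_zero] at this
    exact this
  have hcw' : c w = -1 - w := by
    have h1 : (c w - w) * (c w + 1 + w) = 0 := by linear_combination hcw - hw1
    rcases mul_eq_zero.1 h1 with h2 | h2
    · exfalso
      apply hc
      apply AlgEquiv.coe_toAlgHom_injective
      apply (hw.powerBasis ℚ).algHom_ext
      rw [IsPrimitiveRoot.powerBasis_gen]
      exact sub_eq_zero.1 h2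
    · linear_combination h2
  have h1 : (algebraMap ℚ F) (Algebra.norm ℚ (b : F)) = ∏ τ : Gal(F/ℚ), τ (b : F) :=
    Algebra.norm_eq_prod_automorphisms ℚ (b : F)
  rw [BKGen.Genus.prod_eq_prod_range Nat.prime_two hcard hc (fun τ : Gal(F/ℚ) => τ (b : F)),
    Finset.prod_range_succ, Finset.prod_range_one] at h1
  have h2 : (algebraMap ℚ F) (Algebra.norm ℚ (b : F)) = (algebraMap ℚ F) 7 := by
    rw [h1, pow_zero, pow_one]
    change (b : F) * c (b : F) = _
    rw [hb, map_add, hcw', map_ofNat, map_ofNat]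
    linear_combination (-1) * hw1
  have h3 : Algebra.norm ℚ (b : F) = 7 := (algebraMap ℚ F).injective h2
  have h4 : ((Algebra.norm ℤ b : ℤ) : ℚ) = ((7 : ℤ) : ℚ) := by
    rw [Algebra.coe_norm_int, h3]
    norm_num
  have h5 : Algebra.norm ℤ b = 7 := by exact_mod_cast h4
  rw [h5]
  norm_num

/-- Gold's condition for `F = ℚ(√-3)` and `p = 7`. -/
theorem exists_gen_seven [Fact (Nat.Prime 7)] (j : F →+* ℚ_[7]) :
    ∃ (h : ℕ) (β : 𝓞 F), h ≠ 0 ∧ Algebra.norm ℤ β = ((7 : ℕ) : ℤ) ^ h ∧ ‖j β‖ = 1 ∧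
      ((7 : ℕ) : ℝ) ^ (-2 : ℤ) < ‖(j β) ^ (7 - 1) - 1‖ := by
  have key : ∀ w : F, IsPrimitiveRoot w 3 → ‖j w - 2‖ < 1 →
      ∃ (h : ℕ) (β : 𝓞 F), h ≠ 0 ∧ Algebra.norm ℤ β = ((7 : ℕ) : ℤ) ^ h ∧ ‖j β‖ = 1 ∧
      ((7 : ℕ) : ℝ) ^ (-2 : ℤ) < ‖(j β) ^ (7 - 1) - 1‖ := by
    intro w hw hn
    have hint : IsIntegral ℤ (3 + w) := by
      apply IsIntegral.add _ (hw.isIntegral (by norm_num))
      have : IsIntegral ℤ ((3 : ℤ) : F) := isIntegral_algebraMap (A := F) (x := (3 : ℤ))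
      simpa using this
    obtain ⟨g1, g2⟩ := gold_seven (j w) (by
      have := congrArg j (eqn_three hw)
      rw [map_add, map_add, map_pow, map_one, map_zero] at this
      exact this) hn
    refine ⟨1, ⟨3 + w, hint⟩, one_ne_zero, norm_three_add hw _ rfl, ?_, ?_⟩
    · change ‖j (3 + w)‖ = 1
      rw [map_add, map_ofNat]
      exact g1
    · change _ < ‖(j (3 + w)) ^ (7 - 1) - 1‖
      rw [map_add, map_ofNat]
      exact g2
  have hw : IsPrimitiveRoot (IsCyclotomicExtension.zeta 3 ℚ F) 3 :=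
    IsCyclotomicExtension.zeta_spec 3 ℚ F
  set w := IsCyclotomicExtension.zeta 3 ℚ F with hwdef
  have hw1 := eqn_three hw
  have hj : (j w) ^ 2 + j w + 1 = 0 := by
    have := congrArg j hw1
    rw [map_add, map_add, map_pow, map_one, map_zero] at this
    exact this
  by_cases hn : ‖j w - 2‖ < 1
  · exact key w hw hn
  · have hw2 : IsPrimitiveRoot (w ^ 2) 3 := hw.pow_of_coprime 2 (by norm_num)
    apply key (w ^ 2) hw2
    have h1 : (j w - 2) * (j w + 3) = -((7 : ℕ) : ℚ_[7]) := by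
      push_cast
      linear_combination hj
    have h2 : ‖j w - 2‖ * ‖j w + 3‖ = ((7 : ℕ) : ℝ)⁻¹ := by
      rw [← norm_mul, h1, norm_neg]
      exact Padic.norm_p
    have h3 : j (w ^ 2) - 2 = -(j w + 3) := by
      rw [map_pow]
      linear_combination hj
    rw [h3, norm_neg]
    rw [not_lt] at hn
    by_contra hcon
    rw [not_lt] at hcon
    have h4 : (1 : ℝ) ≤ ‖j w - 2‖ * ‖j w + 3‖ := one_le_mul_of_one_le_of_one_le hn hcon
    rw [h2] at h4
    norm_num at h4

end Seven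

section Inst

variable {K : Type} [Field K] [NumberField K] [IsCyclotomicExtension {21} ℚ K]

/-- Theorem R gives the rigidity of `ℚ(ζ_21)` at every place above `7`. -/
theorem rigidSeven (hR : StR) [Fact (Nat.Prime 7)] (ι : K →+* PadicAlgCl 7) : Rigid 7 K ι := by
  have hζ : IsPrimitiveRoot (IsCyclotomicExtension.zeta 21 ℚ K) 21 :=
    IsCyclotomicExtension.zeta_spec 21 ℚ K
  set ζ := IsCyclotomicExtension.zeta 21 ℚ K with hζdef
  have hw : IsPrimitiveRoot (ζ ^ 7) 3 := hζ.pow (by norm_num) (by norm_num)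
  have hz : IsPrimitiveRoot (ζ ^ 3) 7 := hζ.pow (by norm_num) (by norm_num)
  let F : IntermediateField ℚ K := IntermediateField.adjoin ℚ {ζ ^ 7}
  have hcyc : IsCyclotomicExtension {3} ℚ F :=
    hw.intermediateField_adjoin_isCyclotomicExtension (K := ℚ)
  have hwF : ζ ^ 7 ∈ F := IntermediateField.mem_adjoin_simple_self ℚ _
  have hwprim : IsPrimitiveRoot (⟨ζ ^ 7, hwF⟩ : F) 3 := by
    apply IsPrimitiveRoot.of_map_of_injective (f := algebraMap F K)
    · exact hw
    · exact (algebraMap F K).injective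
  -- the embedding of `F` into `ℚ_7`
  have hmem : ∀ x : F, (ι.comp (algebraMap F K)) x ∈
      (⊥ : IntermediateField ℚ_[7] (PadicAlgCl 7)) := by
    apply BKGen.Cyc.mem_of_root hwprim
    apply BKGen.Cyc.mem_of_quadratic 1 1
    · exact BKGen.Cyc.hensel_quadratic 1 1 2 (by norm_num) (by norm_num)
    · have := congrArg (ι.comp (algebraMap F K)) (eqn_three hwprim)
      rw [map_add, map_add, map_pow, map_one, map_zero] at this
      push_cast
      linear_combination this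
  obtain ⟨j, hj⟩ := exists_descend (ι.comp (algebraMap F K)) hmem
  refine hR 7 F K (ζ ^ 3) j ι ⟨by norm_num, ?_, ?_, hz, ?_, fun x => hj x⟩ ?_ (exists_gen_seven j)
  · exact IsCyclotomicExtension.Rat.isTotallyComplex (n := 3) F (by norm_num)
  · rw [IsCyclotomicExtension.Rat.finrank 3 F]
    decide
  · rw [eq_top_iff]
    intro x _
    have htop : Algebra.adjoin ℚ {ζ} = ⊤ :=
      IsCyclotomicExtension.adjoin_primitive_root_eq_top hζ
    have hx : x ∈ Algebra.adjoin ℚ {ζ} := by rw [htop]; trivial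
    have h1 : ζ ^ 7 ∈ IntermediateField.adjoin F {ζ ^ 3} :=
      (IntermediateField.adjoin F {ζ ^ 3}).algebraMap_mem (⟨ζ ^ 7, hwF⟩ : F)
    have h2 : ζ ^ 3 ∈ IntermediateField.adjoin F {ζ ^ 3} :=
      IntermediateField.mem_adjoin_simple_self F _
    have h3 : ζ ∈ IntermediateField.adjoin F {ζ ^ 3} := by
      have h4 : ζ = ζ ^ 7 * ((ζ ^ 3) ^ 2)⁻¹ := by
        have h0 : ζ ≠ 0 := hζ.ne_zero (by norm_num)
        field_simp
      have h5 := mul_mem h1 (inv_mem (pow_mem h2 2))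
      rwa [← h4] at h5
    refine Algebra.adjoin_induction (p := fun x _ => x ∈ IntermediateField.adjoin F {ζ ^ 3})
      ?_ ?_ ?_ ?_ hx
    · intro y hy
      rwa [Set.mem_singleton_iff.mp hy]
    · intro r
      have : algebraMap ℚ K r = algebraMap F K (algebraMap ℚ F r) := rfl
      rw [this]
      exact (IntermediateField.adjoin F {ζ ^ 3}).algebraMap_mem _
    · rintro u v - - hu hv
      exact add_mem hu hv
    · rintro u v - - hu hv
      exact mul_mem hu hv
  · have h1 : classNumber K = 1 := by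
      rw [classNumber_eq_one_iff]
      exact BKGen.Cyc.isPrincipalIdealRing_twentyOne K
    rw [h1]
    norm_num

end Inst

end BKThR
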