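import Pool.Agent.Lib.MP_7c08ba_nt.Gen.Genus

/-!
Theorem R: rigidity of `K = F(μ_p)` for an imaginary quadratic field `F` in which the odd prime `p`
splits, when `p` does not divide the class number of `K` and Gold's condition holds. Statements of
the modules.
-/

set_option autoImplicit false

namespace BKThR

open BKGen BKGen.Genus NumberField

/-- `K = F(ζ)` with `ζ` a primitive `p`-th root of unity, `p` odd, `F` imaginary quadratic,
`j : F → ℚ_p`, and `ι : K → ℚ̄_p` over `j`. -/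
structure Setting (p : ℕ) [Fact p.Prime] (F K : Type) [Field F] [NumberField F] [Field K]
    [NumberField K] [Algebra F K] (ζ : K) (j : F →+* ℚ_[p]) (ι : K →+* PadicAlgCl p) : Prop where
  hp2 : p ≠ 2
  hreal : IsTotallyComplex F
  hdeg : Module.finrank ℚ F = 2
  hζ : IsPrimitiveRoot ζ p
  htop : IntermediateField.adjoin F {ζ} = ⊤
  hι : ∀ x : F, ι (algebraMap F K x) = algebraMap ℚ_[p] (PadicAlgCl p) (j x)

/-! ### Galois theory -/

/-- `K/F` is Galois with cyclic group of exponent dividing `p - 1`. -/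
def StGal : Prop :=
  ∀ (p : ℕ) [Fact p.Prime] (F K : Type) [Field F] [NumberField F] [Field K] [NumberField K]
    [Algebra F K] (ζ : K), IsPrimitiveRoot ζ p → IntermediateField.adjoin F {ζ} = ⊤ →
    IsGalois F K ∧ (∀ τ : K ≃ₐ[F] K, τ ^ (p - 1) = 1) ∧
      ∃ δ : K ≃ₐ[F] K, ∀ τ : K ≃ₐ[F] K, ∃ k : ℕ, δ ^ k = τ

/-- `K/ℚ` is abelian (`F` quadratic, `K = F(ζ)`). -/
def StAb : Prop :=
  ∀ (p : ℕ) [Fact p.Prime] (F K : Type) [Field F] [NumberField F] [Field K] [NumberField K]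
    [Algebra F K] (ζ : K), IsPrimitiveRoot ζ p → IntermediateField.adjoin F {ζ} = ⊤ →
    Module.finrank ℚ F = 2 → IsGalois ℚ K ∧ ∀ f g : K ≃ₐ[ℚ] K, f * g = g * f

/-- `ζ ^ s` is a `p`-th power in `K` only if `p ∣ s` (degrees: `φ(p²) ∤ 2 (p - 1)`). -/
def StNot : Prop :=
  ∀ (p : ℕ) [Fact p.Prime] (F K : Type) [Field F] [NumberField F] [Field K] [NumberField K]
    [Algebra F K] (ζ : K), p ≠ 2 → IsPrimitiveRoot ζ p → IntermediateField.adjoin F {ζ} = ⊤ →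
    Module.finrank ℚ F = 2 → ∀ s : ℕ, (∃ u : K, u ^ p = ζ ^ s) → p ∣ s

/-- Automorphisms of `K/F` are induced by automorphisms of `ℚ̄_p/ℚ_p`
(the cyclotomic polynomial is irreducible over `ℚ_p`; `Gen/LocalCyc.lean` may help). -/
def StLoc : Prop :=
  ∀ (p : ℕ) [Fact p.Prime] (F K : Type) [Field F] [NumberField F] [Field K] [NumberField K]
    [Algebra F K] (ζ : K) (j : F →+* ℚ_[p]) (ι : K →+* PadicAlgCl p), Setting p F K ζ j ι →
    ∀ δ : K ≃ₐ[F] K, ∃ τ : PadicAlgCl p ≃ₐ[ℚ_[p]] PadicAlgCl p, ∀ x : K, ι (δ x) = τ (ι x)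

/-- The embeddings of `K` into `ℚ̄_p`: two classes (from `StGal`, `StAb`, `StLoc`). -/
def StEmb : Prop :=
  ∀ (p : ℕ) [Fact p.Prime] (F K : Type) [Field F] [NumberField F] [Field K] [NumberField K]
    [Algebra F K] (ζ : K) (j : F →+* ℚ_[p]) (ι : K →+* PadicAlgCl p), Setting p F K ζ j ι →
    ∀ c : K ≃ₐ[ℚ] K, (∃ x : F, c (algebraMap F K x) ≠ algebraMap F K x) →
    ∀ J : K →+* PadicAlgCl p,
      (∃ τ : PadicAlgCl p ≃ₐ[ℚ_[p]] PadicAlgCl p, ∀ x : K, J x = τ (ι x)) ∨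
      (∃ τ : PadicAlgCl p ≃ₐ[ℚ_[p]] PadicAlgCl p, ∀ x : K, J x = τ (ι (c x)))

/-! ### Eigenvectors -/

/-- An endomorphism `δ` with `δ ^ (p - 1) = 1` has an eigenvector in every stable subgroup of
`A/A^p` which is not trivial. -/
def StEig : Prop :=
  ∀ (A : Type) [CommGroup A] (p : ℕ), p.Prime → ∀ δ : A →* A, (∀ x, (⇑δ)^[p - 1] x = x) →
    ∀ H : Subgroup A, (∀ x ∈ H, δ x ∈ H) → (∀ x : A, x ^ p ∈ H) →
    ∀ a ∈ H, (¬ ∃ y : A, y ^ p = a) →
      ∃ b ∈ H, (¬ ∃ y : A, y ^ p = b) ∧ ∃ (m : ℕ) (y : A), δ b = b ^ m * y ^ p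

/-! ### The components `i = 0` and `i = 1` -/

/-- An element of `F` which is a `p`-th power away from `p` and at `j` is a `p`-th power. -/
def StCube : Prop :=
  ∀ (p : ℕ) [Fact p.Prime] (F : Type) [Field F] [NumberField F] (j : F →+* ℚ_[p]), p ≠ 2 →
    Good p F j → ∀ c : F, c ≠ 0 → PowAway p c → (∃ γ : ℚ_[p], γ ^ p = j c) → ∃ b : F, b ^ p = c

/-- Descent of `PowAway` (`K/F` is unramified away from `p`; use `BKGen.norm_adjoin_tame` and
`BKGen.norm_comp`). -/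
def StDesc : Prop :=
  ∀ (p : ℕ) [Fact p.Prime] (F K : Type) [Field F] [NumberField F] [Field K] [NumberField K]
    [Algebra F K] (ζ : K), IsPrimitiveRoot ζ p → IntermediateField.adjoin F {ζ} = ⊤ →
    ∀ c : F, PowAway p (algebraMap F K c) → PowAway p c

/-- Component `i = 0` (norm to `F`; from `StGal`, `StCube`, `StDesc`). -/
def StZero : Prop :=
  ∀ (p : ℕ) [Fact p.Prime] (F K : Type) [Field F] [NumberField F] [Field K] [NumberField K]
    [Algebra F K] (ζ : K) (j : F →+* ℚ_[p]) (ι : K →+* PadicAlgCl p), Setting p F K ζ j ι →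
    Good p F j → ∀ a : K, a ≠ 0 → PowAway p a → PowAt p ι a →
    (∀ τ : K ≃ₐ[F] K, ∃ y : K, y ≠ 0 ∧ τ a = a * y ^ p) → ∃ b : K, b ^ p = a

/-- Component `i = 1`: the subfield of degree `p` of `K(a^{1/p})/F` (from `StGal` and
`BKGen.Genus.no_index_p_genus`). -/
def StOne : Prop :=
  ∀ (p : ℕ) [Fact p.Prime] (F K : Type) [Field F] [NumberField F] [Field K] [NumberField K]
    [Algebra F K] (ζ : K) (j : F →+* ℚ_[p]) (ι : K →+* PadicAlgCl p), Setting p F K ζ j ι →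
    Good p F j → ∀ a : K, a ≠ 0 → PowAway p a → PowAt p ι a →
    (∀ τ : K ≃ₐ[F] K, ∃ (m : ℕ) (y : K), y ≠ 0 ∧ τ ζ = ζ ^ m ∧ τ a = a ^ m * y ^ p) →
    ∃ b : K, b ^ p = a

/-! ### The other components -/

/-- Reduction to units (from `StAb`, `StLoc`, `StEmb`): for an eigenvector with eigenvalue
`m ≢ 1`. -/
def StVal : Prop :=
  ∀ (p : ℕ) [Fact p.Prime] (F K : Type) [Field F] [NumberField F] [Field K] [NumberField K]
    [Algebra F K] (ζ : K) (j : F →+* ℚ_[p]) (ι : K →+* PadicAlgCl p), Setting p F K ζ j ι →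
    ∀ a : K, a ≠ 0 → PowAway p a →
    ∀ (τ : K ≃ₐ[F] K) (m : ℕ) (y : K), y ≠ 0 → τ a = a ^ m * y ^ p → ¬ (p : ℤ) ∣ (m : ℤ) - 1 →
    ∃ (ε : (𝓞 K)ˣ) (b : K), b ≠ 0 ∧ a ^ classNumber K = ((ε : 𝓞 K) : K) * b ^ p

/-- Complex conjugation (from `StAb`, `StNot`, `StEmb`; Mathlib: `IsCMField`,
`unitsMulComplexConjInv`): a unit which is an eigenvector with eigenvalue `m ≢ g`, `τ ζ = ζ ^ g`, and
which is a `p`-th power at `ι`, is a `p`-th power at all places above `p`. -/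
def StConj : Prop :=
  ∀ (p : ℕ) [Fact p.Prime] (F K : Type) [Field F] [NumberField F] [Field K] [NumberField K]
    [Algebra F K] (ζ : K) (j : F →+* ℚ_[p]) (ι : K →+* PadicAlgCl p), Setting p F K ζ j ι →
    ∀ ε : (𝓞 K)ˣ, PowAt p ι ((ε : 𝓞 K) : K) →
    ∀ (τ : K ≃ₐ[F] K) (m g : ℕ) (y : K), y ≠ 0 → τ ζ = ζ ^ g →
    τ ((ε : 𝓞 K) : K) = ((ε : 𝓞 K) : K) ^ m * y ^ p → ¬ (p : ℤ) ∣ (m : ℤ) - g →
    ∀ J : K →+* PadicAlgCl p, PowAt p J ((ε : 𝓞 K) : K)

/-! ### Unramified Kummer extensions generated by units (Hilbert 94) -/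

/-- The extension generated by a `p`-th root of a unit which is locally a `p`-th power at all places
above `p` is cyclic of degree `p` and unramified (use `BKGen.Genus.ramificationIdx_eq_one` away from
`p` and `BKGen.Genus.ramificationIdx_of_norm` at `p`). -/
def StUnr : Prop :=
  ∀ (p : ℕ) [Fact p.Prime] (K M : Type) [Field K] [NumberField K] [Field M] [NumberField M]
    [Algebra K M] (ζ : K), IsPrimitiveRoot ζ p → ∀ (ε : (𝓞 K)ˣ),
    (¬ ∃ b : K, b ^ p = ((ε : 𝓞 K) : K)) → (∀ J : K →+* PadicAlgCl p, PowAt p J ((ε : 𝓞 K) : K)) →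
    ∀ α : M, α ^ p = algebraMap K M ((ε : 𝓞 K) : K) → IntermediateField.adjoin K {α} = ⊤ →
    IsGalois K M ∧ Nat.card (M ≃ₐ[K] M) = p ∧
      ∀ q : Ideal (𝓞 M), q.IsPrime → q ≠ ⊥ → q.ramificationIdx (𝓞 K) = 1

/-- Units modulo `p`-th powers (`Gen/SUnits.lean`: `index_pR` or `card_sunits`). -/
def StCard : Prop :=
  ∀ (p : ℕ) [Fact p.Prime] (K : Type) [Field K] [NumberField K] (ζ : K), IsPrimitiveRoot ζ p →
    (powMonoidHom p : (𝓞 K)ˣ →* (𝓞 K)ˣ).range.index = p ^ (Units.rank K + 1)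

/-- Pure group theory: `E` with `σ ^ p = 1`, `|E/E^p| = p^{pr}`, at most `p^r` classes of invariants
modulo `p`-th powers of invariants, and an invariant `α ^ p` which is not a `p`-th power of an
invariant. Then some element of norm one is not of the form `σ y / y`. -/
def StHerb : Prop :=
  ∀ (E : Type) [CommGroup E] (p : ℕ), p.Prime → p ≠ 2 → ∀ σ : E →* E, (∀ x, (⇑σ)^[p] x = x) →
    ∀ (r : ℕ) (I : Subgroup E), (∀ x, x ∈ I ↔ σ x = x) →
    (powMonoidHom p : E →* E).range.index = p ^ (p * r) →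
    (powMonoidHom p : I →* I).range.index = p ^ r →
    ∀ α : E, σ (α ^ p) = α ^ p → (¬ ∃ b ∈ I, b ^ p = α ^ p) →
    ∃ x : E, ∏ i ∈ Finset.range p, (⇑σ)^[i] x = 1 ∧ ∀ y : E, σ y ≠ x * y

/-- Ideals: an unramified cyclic extension of degree `p` with a unit of norm one which is not a
quotient: `p` divides the class number (`Gen/GenusIdeal.lean`, `Gen/GenusStep.lean`,
`BKGen.Genus.h90`). -/
def StAmb : Prop :=
  ∀ (p : ℕ) (K M : Type) [Field K] [NumberField K] [Field M] [NumberField M] [Algebra K M]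
    [IsGalois K M] (σ : M ≃ₐ[K] M), p.Prime → Nat.card (M ≃ₐ[K] M) = p → σ ≠ 1 →
    (∀ q : Ideal (𝓞 M), q.IsPrime → q ≠ ⊥ → q.ramificationIdx (𝓞 K) = 1) →
    ∀ x : (𝓞 M)ˣ, ∏ g : M ≃ₐ[K] M, g • (x : 𝓞 M) = 1 →
    (∀ u : (𝓞 M)ˣ, σ • (u : 𝓞 M) ≠ (x : 𝓞 M) * u) → p ∣ classNumber K

/-- HILBERT 94 for Kummer extensions generated by units (from `StUnr`, `StCard`, `StHerb`,
`StAmb`). -/
def StH94 : Prop :=
  ∀ (p : ℕ) [Fact p.Prime] (K : Type) [Field K] [NumberField K] (ζ : K), p ≠ 2 →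
    IsTotallyComplex K → IsPrimitiveRoot ζ p → ∀ ε : (𝓞 K)ˣ,
    (¬ ∃ b : K, b ^ p = ((ε : 𝓞 K) : K)) → (∀ J : K →+* PadicAlgCl p, PowAt p J ((ε : 𝓞 K) : K)) →
    p ∣ classNumber K

/-! ### Theorem R -/

/-- `p ∤ h(F(ζ))` implies `p ∤ h(F)` (the degree is prime to `p`). -/
def StDown : Prop :=
  ∀ (p : ℕ) [Fact p.Prime] (F K : Type) [Field F] [NumberField F] [Field K] [NumberField K]
    [Algebra F K] (ζ : K), IsPrimitiveRoot ζ p → IntermediateField.adjoin F {ζ} = ⊤ →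
    ¬ p ∣ classNumber K → ¬ p ∣ classNumber F

/-- Theorem R. -/
def StR : Prop :=
  ∀ (p : ℕ) [Fact p.Prime] (F K : Type) [Field F] [NumberField F] [Field K] [NumberField K]
    [Algebra F K] (ζ : K) (j : F →+* ℚ_[p]) (ι : K →+* PadicAlgCl p), Setting p F K ζ j ι →
    ¬ p ∣ classNumber K →
    (∃ (h : ℕ) (β : 𝓞 F), h ≠ 0 ∧ Algebra.norm ℤ β = (p : ℤ) ^ h ∧ ‖j β‖ = 1 ∧
      (p : ℝ) ^ (-2 : ℤ) < ‖(j β) ^ (p - 1) - 1‖) →
    Rigid p K ι

end BKThR
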