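import Pool.Agent.Lib.MP_7c08ba_nt.ThR.Stmts

/-!
Theorem R, module Zero: the component `i = 0` (norm to `F`).
-/

set_option autoImplicit false

namespace BKThR

open BKGen BKGen.Genus NumberField

namespace ZeroAux

/-- Bezout: if `x ^ d` is a `p`-th power and `d` is prime to `p`, then `x` is a `p`-th power. -/
theorem exists_pow_of_coprime {L : Type*} [Field L] {x y : L} (hx : x ≠ 0) {d p : ℕ}
    (hp : p ≠ 0) (hd : Nat.Coprime d p) (h : x ^ d = y ^ p) : ∃ z : L, z ^ p = x := by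
  have hy : y ≠ 0 := by
    intro hy
    rw [hy, zero_pow hp] at h
    exact pow_ne_zero d hx h
  have hb := Nat.gcd_eq_gcd_ab d p
  rw [Nat.Coprime] at hd
  rw [hd] at hb
  refine ⟨y ^ (Nat.gcdA d p) * x ^ (Nat.gcdB d p), ?_⟩
  have h1 : (y ^ (Nat.gcdA d p)) ^ p = x ^ ((d : ℤ) * Nat.gcdA d p) := by
    rw [← zpow_natCast, ← zpow_mul, mul_comm, zpow_mul, zpow_natCast, ← h, ← zpow_natCast,
      ← zpow_mul]
  have h2 : (x ^ (Nat.gcdB d p)) ^ p = x ^ ((p : ℤ) * Nat.gcdB d p) := by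
    rw [← zpow_natCast, ← zpow_mul, mul_comm]
  rw [mul_pow, h1, h2, ← zpow_add₀ hx, ← hb]
  norm_num

section

variable {p : ℕ} [Fact p.Prime] {F K : Type} [Field F] [Field K] [Algebra F K] {ζ : K}
  {j : F →+* ℚ_[p]} {ι : K →+* PadicAlgCl p}

/-- The completion is generated by `ι ζ`. -/
theorem comp_le_adjoin (htop : IntermediateField.adjoin F {ζ} = ⊤)
    (hι : ∀ x : F, ι (algebraMap F K x) = algebraMap ℚ_[p] (PadicAlgCl p) (j x)) :
    comp p ι ≤ IntermediateField.adjoin ℚ_[p] {ι ζ} := by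
  unfold comp
  rw [IntermediateField.adjoin_le_iff]
  rintro _ ⟨x, rfl⟩
  have hx : x ∈ IntermediateField.adjoin F {ζ} := by
    rw [htop]
    exact IntermediateField.mem_top
  induction hx using IntermediateField.adjoin_induction with
  | mem y hy =>
    rw [Set.mem_singleton_iff] at hy
    rw [hy]
    exact IntermediateField.mem_adjoin_simple_self _ _
  | algebraMap y =>
    rw [hι]
    exact IntermediateField.algebraMap_mem _ _
  | add y z _ _ hy hz =>
    rw [map_add]
    exact add_mem hy hz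
  | inv y _ hy =>
    rw [map_inv₀]
    exact inv_mem hy
  | mul y z _ _ hy hz =>
    rw [map_mul]
    exact mul_mem hy hz

theorem finrank_le (hζ : IsPrimitiveRoot ζ p) :
    FiniteDimensional ℚ_[p] (IntermediateField.adjoin ℚ_[p] {ι ζ}) ∧
      Module.finrank ℚ_[p] (IntermediateField.adjoin ℚ_[p] {ι ζ}) ≤ p - 1 := by
  have hp : p.Prime := Fact.out
  have hζ' : IsPrimitiveRoot (ι ζ) p := hζ.map_of_injective ι.injective
  have hint : IsIntegral ℚ_[p] (ι ζ) := (hζ'.isIntegral hp.pos).tower_top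
  refine ⟨IntermediateField.adjoin.finiteDimensional hint, ?_⟩
  rw [IntermediateField.adjoin.finrank hint]
  have hroot : Polynomial.aeval (ι ζ) (Polynomial.cyclotomic p ℚ_[p]) = 0 := by
    have h := hζ'.isRoot_cyclotomic hp.pos
    rw [Polynomial.IsRoot.def, ← Polynomial.map_cyclotomic p (algebraMap ℚ_[p] (PadicAlgCl p)),
      Polynomial.eval_map_algebraMap] at h
    exact h
  have h1 := Polynomial.natDegree_le_of_dvd (minpoly.dvd ℚ_[p] (ι ζ) hroot)
    (Polynomial.cyclotomic_ne_zero p _)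
  rwa [Polynomial.natDegree_cyclotomic, Nat.totient_prime hp] at h1

/-- An element of `ℚ_p` which is a `p`-th power in the completion is a `p`-th power. -/
theorem exists_pow_local (hζ : IsPrimitiveRoot ζ p)
    (htop : IntermediateField.adjoin F {ζ} = ⊤)
    (hι : ∀ x : F, ι (algebraMap F K x) = algebraMap ℚ_[p] (PadicAlgCl p) (j x))
    {θ : PadicAlgCl p} (hθ : θ ∈ comp p ι) {γ : ℚ_[p]} (hγ : γ ≠ 0)
    (h : θ ^ p = algebraMap ℚ_[p] (PadicAlgCl p) γ) : ∃ δ : ℚ_[p], δ ^ p = γ := by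
  have hp : p.Prime := Fact.out
  obtain ⟨hfd, hle⟩ := finrank_le (ι := ι) hζ
  set E := IntermediateField.adjoin ℚ_[p] {ι ζ} with hE
  have hθ' : θ ∈ E := comp_le_adjoin htop hι hθ
  have h1 : (⟨θ, hθ'⟩ : E) ^ p = algebraMap ℚ_[p] E γ := by
    apply Subtype.ext
    exact h
  have h2 := congrArg (Algebra.norm ℚ_[p]) h1
  rw [map_pow, Algebra.norm_algebraMap] at h2
  have hpos : 0 < Module.finrank ℚ_[p] E := Module.finrank_pos
  refine exists_pow_of_coprime hγ hp.ne_zero ?_ h2.symm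
  rw [Nat.coprime_comm, hp.coprime_iff_not_dvd]
  intro hdvd
  have h3 := Nat.le_of_dvd hpos hdvd
  have h4 := hp.pos
  omega

end

end ZeroAux

open ZeroAux in
theorem stZero (hG : StGal) (hC : StCube) (hD : StDesc) : StZero := by
  intro p hpf F K _ _ _ _ _ ζ j ι hS hgood a ha haway hat hτ
  have hp : p.Prime := hpf.out
  obtain ⟨hgal, hexp, -⟩ := hG p F K ζ hS.hζ hS.htop
  have hfd : FiniteDimensional F K := Module.Finite.of_restrictScalars_finite ℚ F K
  choose y hy0 hy using hτ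
  set n := Fintype.card (K ≃ₐ[F] K) with hn
  have hnp : ¬ p ∣ n := by
    intro hdvd
    obtain ⟨τ, hτo⟩ := exists_prime_orderOf_dvd_card p hdvd
    have h1 := orderOf_dvd_of_pow_eq_one (hexp τ)
    rw [hτo] at h1
    have h2 := Nat.le_of_dvd (Nat.sub_pos_of_lt hp.one_lt) h1
    have h3 := hp.pos
    omega
  set Y : K := ∏ τ : K ≃ₐ[F] K, y τ with hY
  have hY0 : Y ≠ 0 := Finset.prod_ne_zero_iff.2 fun τ _ => hy0 τ
  set c : F := Algebra.norm F a with hc
  have hcK : algebraMap F K c = a ^ n * Y ^ p := by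
    rw [hc, Algebra.norm_eq_prod_automorphisms, hY, ← Finset.prod_pow, hn,
      ← Finset.card_univ, ← Finset.prod_const, ← Finset.prod_mul_distrib]
    exact Finset.prod_congr rfl fun τ _ => hy τ
  have hc0 : c ≠ 0 := by
    intro h0
    rw [h0, map_zero] at hcK
    exact mul_ne_zero (pow_ne_zero _ ha) (pow_ne_zero _ hY0) hcK.symm
  have hcaway : PowAway p c := by
    refine hD p F K ζ hS.hζ hS.htop c ?_
    intro l hl hlp J
    obtain ⟨b, hb⟩ := haway l hlp J
    refine ⟨b ^ n * Y, ?_⟩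
    rw [hcK, map_mul, map_pow, map_pow, norm_mul, norm_pow, norm_pow, hb, map_mul, map_pow,
      norm_mul, norm_pow, mul_pow, ← pow_mul, ← pow_mul, mul_comm p n]
  have hcloc : ∃ γ : ℚ_[p], γ ^ p = j c := by
    obtain ⟨β, hβ, hβp⟩ := hat
    refine exists_pow_local (θ := β ^ n * ι Y) hS.hζ hS.htop hS.hι ?_ ?_ ?_
    · exact mul_mem (pow_mem hβ n) (IntermediateField.subset_adjoin _ _ ⟨Y, rfl⟩)
    · exact fun h => hc0 ((map_eq_zero j).1 h)
    · rw [← hS.hι, hcK, mul_pow, ← pow_mul, mul_comm n p, pow_mul, hβp, map_mul, map_pow,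
        map_pow]
  obtain ⟨b, hb⟩ := hC p F j hS.hp2 hgood c hc0 hcaway hcloc
  refine exists_pow_of_coprime (d := n) (y := algebraMap F K b / Y) ha hp.ne_zero ?_ ?_
  · rw [Nat.coprime_comm, hp.coprime_iff_not_dvd]
    exact hnp
  · rw [div_pow, ← map_pow, hb, hcK]
    field_simp

end BKThR
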